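import Pool.Agent.Run7.h523.KF.Iface

/-!
# From `P → ℝ` to Euclidean space (helper523)
-/

set_option autoImplicit false

namespace Run7.h523.KF

open MeasureTheory Set Filter Topology
open scoped ENNReal InnerProductSpace

variable {κ : Type} [Fintype κ]

theorem normsq [DecidableEq κ] (l : EuclideanSpace ℝ κ →L[ℝ] ℝ) :
    ‖l‖ ^ 2 = ∑ i, (l (EuclideanSpace.single i 1)) ^ 2 := by
  obtain ⟨w, rfl⟩ := (InnerProductSpace.toDual ℝ (EuclideanSpace ℝ κ)).surjective l
  rw [LinearIsometryEquiv.norm_map, EuclideanSpace.real_norm_sq_eq]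
  refine Finset.sum_congr rfl fun i _ => ?_
  simp [InnerProductSpace.toDual_apply_apply, EuclideanSpace.inner_single_right]

/-- the polytope in Euclidean space -/
def KE (R : κ × Bool → κ × Bool → Prop) : Set (EuclideanSpace ℝ κ) := {x | WithLp.ofLp x ∈ KK R}

theorem int_KE (R : κ × Bool → κ × Bool → Prop) (g : EuclideanSpace ℝ κ → ℝ) :
    ∫ x in KE R, g x = ∫ y in KK R, g (WithLp.toLp 2 y) := by
  have h := (PiLp.volume_preserving_toLp κ).setIntegral_preimage_emb
    (MeasurableEquiv.toLp 2 (κ → ℝ)).measurableEmbedding g (KE R)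
  rw [← h]
  rfl

theorem vol_KE (R : κ × Bool → κ × Bool → Prop) : volume (KE R) = volume (KK R) := by
  have h := (PiLp.volume_preserving_toLp κ).measure_preimage_emb
    (MeasurableEquiv.toLp 2 (κ → ℝ)).measurableEmbedding (KE R)
  rw [← h]
  rfl

theorem sv_cont {P : Type} (a : P × Bool) : Continuous fun y : P → ℝ => sv y a := by
  unfold sv
  split_ifs
  · exact continuous_apply _
  · exact (continuous_apply _).neg

theorem KK_eq {P : Type} (R : P × Bool → P × Bool → Prop) : KK R =
    (Set.pi univ fun _ : P => Icc (-1 : ℝ) 1) ∩ ⋂ (a) (b) (_ : R a b), {y | sv y a ≤ sv y b} := by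
  ext y
  simp only [KK, Set.mem_ofPred_eq, Set.mem_inter_iff, Set.mem_iInter, Set.mem_pi, Set.mem_univ,
    true_implies, Set.mem_Icc]

theorem KK_compact {P : Type} (R : P × Bool → P × Bool → Prop) : IsCompact (KK R) := by
  rw [KK_eq]
  refine (isCompact_univ_pi fun _ => isCompact_Icc).inter_right ?_
  exact isClosed_iInter fun a => isClosed_iInter fun b => isClosed_iInter fun _ =>
    isClosed_le (sv_cont a) (sv_cont b)

theorem sv_add {P : Type} (a : P × Bool) (y z : P → ℝ) (s t : ℝ) :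
    sv (s • y + t • z) a = s * sv y a + t * sv z a := by
  unfold sv
  split_ifs
  · simp
  · simp; ring

theorem KK_convex {P : Type} (R : P × Bool → P × Bool → Prop) : Convex ℝ (KK R) := by
  intro y hy z hz s t hs ht hst
  refine ⟨fun v => ?_, fun a b hab => ?_⟩
  · have h1 := hy.1 v
    have h2 := hz.1 v
    simp only [Pi.add_apply, Pi.smul_apply, smul_eq_mul]
    constructor <;> nlinarith
  · rw [sv_add, sv_add]
    have h1 := hy.2 a b hab
    have h2 := hz.2 a b hab
    nlinarith

omit [Fintype κ] in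
theorem KE_compact (R : κ × Bool → κ × Bool → Prop) : IsCompact (KE R) := by
  have : KE R = (WithLp.toLp 2) '' (KK R) := by
    ext x
    constructor
    · intro hx
      exact ⟨WithLp.ofLp x, hx, rfl⟩
    · rintro ⟨y, hy, rfl⟩
      exact hy
  rw [this]
  exact (KK_compact R).image (PiLp.continuous_toLp 2 _)

omit [Fintype κ] in
theorem KE_convex (R : κ × Bool → κ × Bool → Prop) : Convex ℝ (KE R) := by
  intro y hy z hz s t hs ht hst
  exact KK_convex R hy hz hs ht hst

/-- the Poincaré inequality in Euclidean space -/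
theorem poinc_E [DecidableEq κ] (R : κ × Bool → κ × Bool → Prop) (lam : ℝ)
    (hM : Master κ R (fun _ => 1) lam) (f : EuclideanSpace ℝ κ → ℝ) (hf : ContDiff ℝ 1 f) :
    (∫ x in KE R, f x ^ 2) - (∫ x in KE R, f x) ^ 2 / (volume (KE R)).toReal ≤
      1 / lam * ∫ x in KE R, ‖fderiv ℝ f x‖ ^ 2 := by
  have hto : ContDiff ℝ 1 (fun y : κ → ℝ => (WithLp.toLp 2 y : EuclideanSpace ℝ κ)) :=
    PiLp.contDiff_toLp
  have h := hM (fun y => f (WithLp.toLp 2 y)) (hf.comp hto)
  rw [int_KE R (fun x => f x ^ 2), int_KE R f, int_KE R (fun x => ‖fderiv ℝ f x‖ ^ 2), vol_KE]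
  refine h.trans_eq ?_
  congr 1
  have hfd : ∀ (y : κ → ℝ) (v : κ),
      fderiv ℝ (fun y : κ → ℝ => f (WithLp.toLp 2 y)) y (Pi.single v 1) =
        fderiv ℝ f (WithLp.toLp 2 y) (EuclideanSpace.single v 1) := by
    intro y v
    have h1 : HasFDerivAt (fun y : κ → ℝ => (WithLp.toLp 2 y : EuclideanSpace ℝ κ))
        ((PiLp.continuousLinearEquiv 2 ℝ (fun _ : κ => ℝ)).symm : (κ → ℝ) →L[ℝ] _) y :=
      PiLp.hasFDerivAt_toLp 2 y
    have h2 : HasFDerivAt f (fderiv ℝ f (WithLp.toLp 2 y)) (WithLp.toLp 2 y) :=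
      (hf.differentiable one_ne_zero _).hasFDerivAt
    have h3 := h2.comp y h1
    have h4 : fderiv ℝ (fun y : κ → ℝ => f (WithLp.toLp 2 y)) y = _ := h3.fderiv
    rw [h4]
    rfl
  have hcont : ∀ v : κ, Continuous fun y : κ → ℝ =>
      (fderiv ℝ f (WithLp.toLp 2 y) (EuclideanSpace.single v 1)) ^ 2 := by
    intro v
    have h1 := (hf.continuous_fderiv one_ne_zero).clm_apply
      (continuous_const (y := (EuclideanSpace.single v (1:ℝ) : EuclideanSpace ℝ κ)))
    exact (h1.comp hto.continuous).pow 2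
  simp only [hfd, one_mul]
  rw [← integral_finsetSum]
  · refine integral_congr_ae (Eventually.of_forall fun y => ?_)
    simp only []
    rw [normsq]
  · intro v _
    exact (hcont v).continuousOn.integrableOn_compact (KK_compact R)

end Run7.h523.KF
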