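import Pool.Agent.Run7.h523.KF.Iface

/-!
# Project KF (helper523), piece ASM (helper704)
-/

set_option autoImplicit false
set_option linter.all false

namespace Run7.h523.KF

open Finset

theorem t_ASM : S_ASM := by
  intro M c h γ g hS hsym hdiag hfar hnear hzero
  obtain ⟨cpos, hpos, hM, hz, hs⟩ := hS
  -- the coefficients
  set a : ℕ → ℝ := fun j => if j = 0 then c 0 ^ 2 * (h 1 / h 0) else 1 / 2 * c j ^ 2 * (h (j + 1) / h j)
    with ha
  set b : ℕ → ℝ := fun j => if j = 0 then 0 else 1 / 2 * c j ^ 2 * (h (j - 1) / h j) with hb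
  -- neighbours
  have hpair : ∀ j, j + 1 < M → -(a j * g j j + b (j + 1) * g (j + 1) (j + 1)) ≤
      2 * (c j * c (j + 1) * g j (j + 1)) := by
    intro j hj
    have hcj := cpos j (by omega)
    have hcj1 := cpos (j + 1) hj
    have hhj := hpos j (by omega)
    have hhj1 := hpos (j + 1) hj
    rcases Nat.eq_zero_or_pos j with rfl | hj1
    · have hsq : Real.sqrt 2 * Real.sqrt 2 = 2 := Real.mul_self_sqrt (by norm_num)
      have hs0 : 0 < Real.sqrt 2 := Real.sqrt_pos.2 (by norm_num)
      have h1 := hzero (Real.sqrt 2 * c 0 * h 1 / (c 1 * h 0)) (by omega) (by positivity)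
      have h2 := mul_le_mul_of_nonneg_left h1 (show (0:ℝ) ≤ 2 * (c 0 * c 1) by positivity)
      have e1 : a 0 = c 0 ^ 2 * (h 1 / h 0) := by simp [ha]
      have e2 : b (0 + 1) = 1 / 2 * c 1 ^ 2 * (h 0 / h 1) := by simp [hb]
      have e3 : 2 * (c 0 * c 1) * (Real.sqrt 2 / 4 * (Real.sqrt 2 * c 0 * h 1 / (c 1 * h 0) * g 0 0 +
          (Real.sqrt 2 * c 0 * h 1 / (c 1 * h 0))⁻¹ * g 1 1)) =
          a 0 * g 0 0 + b (0 + 1) * g (0 + 1) (0 + 1) := by
        rw [e1, e2]
        have hc0 : c 0 ≠ 0 := hcj.ne'
        have hc1 : c 1 ≠ 0 := hcj1.ne'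
        have hh0 : h 0 ≠ 0 := hhj.ne'
        have hh1 : h 1 ≠ 0 := hhj1.ne'
        have hs0' := hs0.ne'
        field_simp
        have : Real.sqrt 2 ^ 2 = 2 := by rw [sq]; exact hsq
        rw [this]
        ring
      rw [e3] at h2
      simp only [zero_add] at h2 ⊢
      linarith
    · have h1 := hnear j (c j * h (j + 1) / (c (j + 1) * h j)) hj1 hj (by positivity)
      have h2 := mul_le_mul_of_nonneg_left h1 (show (0:ℝ) ≤ 2 * (c j * c (j + 1)) by positivity)
      have e1 : a j = 1 / 2 * c j ^ 2 * (h (j + 1) / h j) := by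
        simp [ha, hj1.ne']
      have e2 : b (j + 1) = 1 / 2 * c (j + 1) ^ 2 * (h j / h (j + 1)) := by
        simp [hb]
      have e3 : 2 * (c j * c (j + 1)) * (1 / 4 * (c j * h (j + 1) / (c (j + 1) * h j) * g j j +
          (c j * h (j + 1) / (c (j + 1) * h j))⁻¹ * g (j + 1) (j + 1))) =
          a j * g j j + b (j + 1) * g (j + 1) (j + 1) := by
        rw [e1, e2]
        have hc0 : c j ≠ 0 := hcj.ne'
        have hc1 : c (j + 1) ≠ 0 := hcj1.ne'
        have hh0 : h j ≠ 0 := hhj.ne'
        have hh1 : h (j + 1) ≠ 0 := hhj1.ne'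
        field_simp
        ring
      rw [e3] at h2
      linarith
  -- induction
  have hind : ∀ n, n + 1 ≤ M → ∑ j ∈ range (n + 1), (c j ^ 2 - b j) * g j j -
      ∑ j ∈ range n, a j * g j j ≤ ∑ j ∈ range (n + 1), ∑ k ∈ range (n + 1), c j * c k * g j k := by
    intro n
    induction n with
    | zero =>
      intro _
      have e2 : b 0 = 0 := by simp [hb]
      simp only [zero_add, sum_range_one, range_zero, sum_empty, sub_zero, e2]
      rw [sq]
    | succ n ih =>
      intro hn
      have h1 := ih (by omega)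
      have e1 : ∑ j ∈ range (n + 1 + 1), ∑ k ∈ range (n + 1 + 1), c j * c k * g j k =
          ∑ j ∈ range (n + 1), ∑ k ∈ range (n + 1), c j * c k * g j k +
          2 * ∑ j ∈ range (n + 1), c j * c (n + 1) * g j (n + 1) +
          c (n + 1) ^ 2 * g (n + 1) (n + 1) := by
        rw [sum_range_succ _ (n + 1)]
        have e2 : ∑ j ∈ range (n + 1), ∑ k ∈ range (n + 1 + 1), c j * c k * g j k =
            ∑ j ∈ range (n + 1), ∑ k ∈ range (n + 1), c j * c k * g j k +
            ∑ j ∈ range (n + 1), c j * c (n + 1) * g j (n + 1) := by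
          rw [← sum_add_distrib]
          exact sum_congr rfl fun j _ => sum_range_succ _ _
        have e3 : ∑ k ∈ range (n + 1 + 1), c (n + 1) * c k * g (n + 1) k =
            ∑ j ∈ range (n + 1), c j * c (n + 1) * g j (n + 1) +
            c (n + 1) ^ 2 * g (n + 1) (n + 1) := by
          rw [sum_range_succ _ (n + 1)]
          congr 1
          · refine sum_congr rfl fun k _ => ?_
            rw [hsym (n + 1) k]
            ring
          · ring
        rw [e2, e3]
        ring
      have h2 : c n * c (n + 1) * g n (n + 1) ≤ ∑ j ∈ range (n + 1), c j * c (n + 1) * g j (n + 1) := by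
        rw [sum_range_succ]
        have : 0 ≤ ∑ j ∈ range n, c j * c (n + 1) * g j (n + 1) := by
          refine sum_nonneg fun j hj => ?_
          have hj' := mem_range.1 hj
          have := hfar j (n + 1) (by omega) (by omega)
          have hc1 := cpos j (by omega)
          have hc2 := cpos (n + 1) (by omega)
          positivity
        linarith
      have h3 := hpair n (by omega)
      rw [e1, sum_range_succ _ (n + 1), sum_range_succ (fun j => a j * g j j) n]
      linarith
  rcases Nat.eq_zero_or_pos M with rfl | hMp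
  · simp
  · obtain ⟨m, rfl⟩ : ∃ m, M = m + 1 := ⟨M - 1, by omega⟩
    refine le_trans ?_ (hind m le_rfl)
    have ham : 0 ≤ a m * g m m := by
      refine mul_nonneg ?_ (hdiag m)
      have h0 := hpos 0 (by omega)
      have hm := hpos m (by omega)
      simp only [ha]
      split_ifs with h1
      · subst h1
        simp only [zero_add] at hM
        positivity
      · positivity
    have h1 : ∑ j ∈ range m, a j * g j j ≤ ∑ j ∈ range (m + 1), a j * g j j := by
      rw [sum_range_succ]
      linarith
    have h2 : γ * ∑ j ∈ range (m + 1), c j * g j j ≤ ∑ j ∈ range (m + 1), (c j ^ 2 - b j) * g j j -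
        ∑ j ∈ range (m + 1), a j * g j j := by
      rw [← sum_sub_distrib, mul_sum]
      refine sum_le_sum fun j hj => ?_
      have hj' := mem_range.1 hj
      have hcj := cpos j hj'
      have hhj := hpos j hj'
      have hg := hdiag j
      have key : γ * c j ≤ c j ^ 2 - b j - a j := by
        rcases Nat.eq_zero_or_pos j with rfl | hj1
        · have e1 : a 0 = c 0 ^ 2 * (h 1 / h 0) := by simp [ha]
          have e2 : b 0 = 0 := by simp [hb]
          rw [e1, e2]
          have h3 := mul_le_mul_of_nonneg_left hz (show (0:ℝ) ≤ c 0 / (2 * h 0) by positivity)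
          have e4 : c 0 / (2 * h 0) * (2 * γ * h 0) = γ * c 0 := by
            field_simp
          have e5 : c 0 / (2 * h 0) * (c 0 * (2 * h 0 - 2 * h 1)) = c 0 ^ 2 - 0 - c 0 ^ 2 * (h 1 / h 0) := by
            field_simp
            ring
          rw [e4, e5] at h3
          exact h3
        · obtain ⟨i, rfl⟩ : ∃ i, j = i + 1 := ⟨j - 1, by omega⟩
          have e1 : a (i + 1) = 1 / 2 * c (i + 1) ^ 2 * (h (i + 2) / h (i + 1)) := by
            simp [ha]
          have e2 : b (i + 1) = 1 / 2 * c (i + 1) ^ 2 * (h i / h (i + 1)) := by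
            simp [hb]
          rw [e1, e2]
          have h3 := mul_le_mul_of_nonneg_left (hs i (by omega))
            (show (0:ℝ) ≤ c (i + 1) / (2 * h (i + 1)) by positivity)
          have e4 : c (i + 1) / (2 * h (i + 1)) * (2 * γ * h (i + 1)) = γ * c (i + 1) := by
            field_simp
          have e5 : c (i + 1) / (2 * h (i + 1)) * (c (i + 1) * (2 * h (i + 1) - h (i + 2) - h i)) =
              c (i + 1) ^ 2 - 1 / 2 * c (i + 1) ^ 2 * (h i / h (i + 1)) -
              1 / 2 * c (i + 1) ^ 2 * (h (i + 2) / h (i + 1)) := by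
            field_simp
            ring
          rw [e4, e5] at h3
          exact h3
      have := mul_le_mul_of_nonneg_right key hg
      linarith
    linarith

end Run7.h523.KF
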