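import Pool.Agent.Run7.h523.KF.Iface

/-!
# Project KF, piece CON: connectivity by descent (helper768)
-/

set_option autoImplicit false
set_option linter.unusedSectionVars false

namespace Run7.h523.KF

open Finset

section
variable {P : Type} [Fintype P] [DecidableEq P]

theorem mem_Om_iff {R : P × Bool → P × Bool → Prop} {M : ℕ} {x : P → ℤ} :
    x ∈ Om R M ↔ (∀ v, -(2 * M : ℤ) < x v ∧ x v < 2 * M ∧ Odd (x v)) ∧
      (∀ v w, |x v| = |x w| → v = w) ∧ ∀ a b, R a b → sv x a ≤ sv x b := by
  unfold Om Si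
  simp only [Finset.mem_filter, Fintype.mem_piFinset, Finset.mem_Ioo, and_assoc]

/-- the target, seen from the side where the label is -/
def tg (X Y : ℤ) : ℤ := if 0 < X then Y else -Y

theorem delta_low (j : ℕ) (hj : 1 ≤ j) (X Y : ℤ) (h : |X| = 2 * j - 1) :
    (sb j X - Y) ^ 2 - (X - Y) ^ 2 = 8 * j - 4 * tg X Y := by
  have hj' : (1 : ℤ) ≤ j := by exact_mod_cast hj
  rcases abs_choice X with h1 | h1
  · have hX : X = 2 * j - 1 := by omega
    have h2 : sb j X = 2 * j + 1 := by
      unfold sb; rw [hX]; split_ifs <;> omega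
    have h3 : tg X Y = Y := by unfold tg; rw [if_pos (by omega)]
    rw [h2, h3, hX]; ring
  · have hX : X = -(2 * j - 1) := by omega
    have h2 : sb j X = -(2 * j + 1) := by
      unfold sb; rw [hX]; split_ifs <;> omega
    have h3 : tg X Y = -Y := by unfold tg; rw [if_neg (by omega)]
    rw [h2, h3, hX]; ring

theorem delta_high (j : ℕ) (hj : 1 ≤ j) (X Y : ℤ) (h : |X| = 2 * j + 1) :
    (sb j X - Y) ^ 2 - (X - Y) ^ 2 = 4 * tg X Y - 8 * j := by
  have hj' : (1 : ℤ) ≤ j := by exact_mod_cast hj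
  rcases abs_choice X with h1 | h1
  · have hX : X = 2 * j + 1 := by omega
    have h2 : sb j X = 2 * j - 1 := by
      unfold sb; rw [hX]; split_ifs <;> omega
    have h3 : tg X Y = Y := by unfold tg; rw [if_pos (by omega)]
    rw [h2, h3, hX]; ring
  · have hX : X = -(2 * j + 1) := by omega
    have h2 : sb j X = -(2 * j - 1) := by
      unfold sb; rw [hX]; split_ifs <;> omega
    have h3 : tg X Y = -Y := by unfold tg; rw [if_neg (by omega)]
    rw [h2, h3, hX]; ring

theorem delta_zero (X Y : ℤ) (h : |X| = 1) :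
    (sb 0 X - Y) ^ 2 - (X - Y) ^ 2 = 4 * tg X Y := by
  rcases abs_choice X with h1 | h1
  · have hX : X = 1 := by omega
    subst hX
    simp [sb, tg]; ring
  · have hX : X = -1 := by omega
    subst hX
    simp [sb, tg]; ring

theorem delta_else (j : ℕ) (X Y : ℤ) (h : |X| ≠ 2 * j + 1) (h' : |X| ≠ 2 * j - 1) (hX : Odd X) :
    (sb j X - Y) ^ 2 - (X - Y) ^ 2 = 0 := by
  have h2 : sb j X = X := by
    obtain ⟨k, hk⟩ := hX
    unfold sb
    have h3 := abs_nonneg X
    rcases abs_choice X with h1 | h1 <;> split_ifs <;> omega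
  rw [h2]; ring

/-- where the order of two odd numbers changes -/
theorem sb_flip (j : ℕ) (p q : ℤ) (hp : Odd p) (hq : Odd q) (h : p ≤ q) (h' : sb j q < sb j p) :
    (p = 2 * j - 1 ∧ q = 2 * j + 1) ∨ (p = -(2 * j + 1) ∧ q = -(2 * j - 1)) := by
  obtain ⟨k, hk⟩ := hp
  obtain ⟨l, hl⟩ := hq
  unfold sb at h'
  split_ifs at h' <;> omega

theorem sv_odd_sb (hI : S_INV) (j : ℕ) (x : P → ℤ) (a : P × Bool) :
    sv (sx j x) a = sb j (sv x a) := by
  unfold sv sx
  split_ifs
  · rfl
  · rw [hI.2.1]

theorem sv_not {α : Type} [InvolutiveNeg α] (y : P → α) (a : P × Bool) :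
    sv y (a.1, !a.2) = - sv y a := by
  unfold sv
  rcases a with ⟨v, s⟩
  cases s <;> simp

theorem abs_sv (x : P → ℤ) (a : P × Bool) : |sv x a| = |x a.1| := by
  unfold sv
  split_ifs
  · rfl
  · rw [abs_neg]

theorem odd_sv (x : P → ℤ) (hx : ∀ v, Odd (x v)) (a : P × Bool) : Odd (sv x a) := by
  unfold sv
  split_ifs
  · exact hx _
  · exact (hx _).neg

theorem sv_eq_tg (x y : P → ℤ) (a : P × Bool) (h : 0 < sv x a) : sv y a = tg (x a.1) (y a.1) := by
  unfold sv at h ⊢
  unfold tg
  split_ifs at h ⊢ <;> first | rfl | omega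

/-- the bond `j` is allowed if it brings all pairs it exchanges into the order of `y` -/
theorem good (hI : S_INV) {R : P × Bool → P × Bool → Prop} {M : ℕ} {x y : P → ℤ}
    (hx : x ∈ Om R M) (hy : y ∈ Om R M) (j : ℕ) (hj : j < M)
    (hC : ∀ a b, sv x a = 2 * j - 1 → sv x b = 2 * j + 1 → sv y b < sv y a) :
    sx j x ∈ Om R M := by
  have hx' := mem_Om_iff.mp hx
  have hy' := mem_Om_iff.mp hy
  have hodd : ∀ v, Odd (x v) := fun v => (hx'.1 v).2.2
  rw [mem_Om_iff]
  refine ⟨?_, ?_, ?_⟩
  · intro v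
    have h1 : x v ∈ Si M := by
      unfold Si
      simp only [Finset.mem_filter, Finset.mem_Ioo]
      exact ⟨⟨(hx'.1 v).1, (hx'.1 v).2.1⟩, hodd v⟩
    have h2 := hI.2.2.1 M j (x v) hj h1
    unfold Si at h2
    simp only [Finset.mem_filter, Finset.mem_Ioo] at h2
    exact ⟨h2.1.1, h2.1.2, h2.2⟩
  · intro v w hvw
    exact hx'.2.1 v w ((hI.2.2.2.1 j (x v) (x w) (hodd v) (hodd w)).mp hvw)
  · intro a b hab
    rw [sv_odd_sb hI, sv_odd_sb hI]
    by_contra hlt
    push Not at hlt
    have h1 := hx'.2.2 a b hab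
    have h2 := hy'.2.2 a b hab
    rcases sb_flip j _ _ (odd_sv x hodd a) (odd_sv x hodd b) h1 hlt with h | h
    · have := hC a b h.1 h.2
      omega
    · have := hC (b.1, !b.2) (a.1, !a.2) (by rw [sv_not, h.2]; ring) (by rw [sv_not, h.1]; ring)
      rw [sv_not, sv_not] at this
      omega

theorem abs_tg (X Y : ℤ) : |tg X Y| = |Y| := by
  unfold tg; split_ifs
  · rfl
  · rw [abs_neg]

theorem odd_tg (X Y : ℤ) (h : Odd Y) : Odd (tg X Y) := by
  unfold tg; split_ifs
  · exact h
  · exact h.neg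

theorem step (hI : S_INV) {R : P × Bool → P × Bool → Prop} {M : ℕ} {x y : P → ℤ}
    (hx : x ∈ Om R M) (hy : y ∈ Om R M) (hne : x ≠ y) :
    ∃ j < M, sx j x ∈ Om R M ∧ ∑ v, (sx j x v - y v) ^ 2 < ∑ v, (x v - y v) ^ 2 := by
  classical
  by_contra hcon
  push Not at hcon
  have hx' := mem_Om_iff.mp hx
  have hy' := mem_Om_iff.mp hy
  have hox : ∀ v, Odd (x v) := fun v => (hx'.1 v).2.2
  have hoy : ∀ v, Odd (y v) := fun v => (hy'.1 v).2.2
  have hinj := hx'.2.1
  have hinjy := hy'.2.1
  -- signed labels with a given positive value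
  have hlab : ∀ (a : P × Bool) (z : ℤ) (v : P), 0 < z → sv x a = z → |x v| = z →
      a.1 = v ∧ sv y a = tg (x v) (y v) := by
    intro a z v hz ha hv
    have h1 : a.1 = v := by
      apply hinj
      rw [← abs_sv x a, ha, hv, abs_of_pos hz]
    refine ⟨h1, ?_⟩
    rw [sv_eq_tg x y a (by omega), h1]
  have habs : ∀ (a : P × Bool) (z : ℤ), 0 < z → sv x a = z → |x a.1| = z := by
    intro a z hz ha
    rw [← abs_sv x a, ha, abs_of_pos hz]
  -- sum of the differences
  have hsum : ∀ j < M, sx j x ∈ Om R M →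
      0 ≤ ∑ v, ((sb j (x v) - y v) ^ 2 - (x v - y v) ^ 2) := by
    intro j hj hO
    have := hcon j hj hO
    rw [Finset.sum_sub_distrib]
    have h2 : ∑ v, (sx j x v - y v) ^ 2 = ∑ v, (sb j (x v) - y v) ^ 2 := rfl
    rw [h2] at this
    linarith
  -- (iv)
  have h4 : ∀ v, |x v| = 1 → 0 < tg (x v) (y v) := by
    intro v hv
    by_contra hle
    push Not at hle
    have hM : 0 < M := by
      have := hx'.1 v
      omega
    have hodd := odd_tg (x v) (y v) (hoy v)
    have hlt : tg (x v) (y v) < 0 := by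
      obtain ⟨k, hk⟩ := hodd
      omega
    have hO : sx 0 x ∈ Om R M := by
      apply good hI hx hy 0 hM
      intro a b ha hb
      have hb' : sv x b = 1 := by rw [hb]; norm_num
      have ha' : sv x (a.1, !a.2) = 1 := by rw [sv_not, ha]; norm_num
      obtain ⟨-, h1⟩ := hlab b 1 v (by norm_num) hb' hv
      obtain ⟨-, h2⟩ := hlab (a.1, !a.2) 1 v (by norm_num) ha' hv
      rw [sv_not] at h2
      omega
    have h5 := hsum 0 hM hO
    rw [Fintype.sum_eq_single v] at h5
    · rw [delta_zero _ _ hv] at h5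
      omega
    · intro w hw
      apply delta_else 0 _ _ _ _ (hox w)
      · intro h
        apply hw
        apply hinj
        rw [hv, h]; norm_num
      · intro h
        have := abs_nonneg (x w)
        rw [h] at this
        norm_num at this
  -- (ii)
  have h2 : ∀ j : ℕ, 1 ≤ j → j < M → ∀ v, |x v| = 2 * j - 1 → (∀ w, |x w| ≠ 2 * j + 1) →
      tg (x v) (y v) ≤ 2 * j - 1 := by
    intro j hj1 hjM v hv hno
    by_contra hle
    push Not at hle
    have hodd := odd_tg (x v) (y v) (hoy v)
    have hj' : (1 : ℤ) ≤ j := by exact_mod_cast hj1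
    have hO : sx j x ∈ Om R M := by
      apply good hI hx hy j hjM
      intro a b ha hb
      exact absurd (habs b _ (by omega) hb) (hno b.1)
    have h5 := hsum j hjM hO
    rw [Fintype.sum_eq_single v] at h5
    · rw [delta_low j hj1 _ _ hv] at h5
      obtain ⟨k, hk⟩ := hodd
      omega
    · intro w hw
      apply delta_else j _ _ (hno w) _ (hox w)
      intro h
      exact hw (hinj _ _ (by rw [hv, h]))
  -- (iii)
  have h3 : ∀ j : ℕ, 1 ≤ j → j < M → ∀ v, |x v| = 2 * j + 1 → (∀ w, |x w| ≠ 2 * j - 1) →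
      2 * j + 1 ≤ tg (x v) (y v) := by
    intro j hj1 hjM v hv hno
    by_contra hle
    push Not at hle
    have hodd := odd_tg (x v) (y v) (hoy v)
    have hj' : (1 : ℤ) ≤ j := by exact_mod_cast hj1
    have hO : sx j x ∈ Om R M := by
      apply good hI hx hy j hjM
      intro a b ha hb
      exact absurd (habs a _ (by omega) ha) (hno a.1)
    have h5 := hsum j hjM hO
    rw [Fintype.sum_eq_single v] at h5
    · rw [delta_high j hj1 _ _ hv] at h5
      obtain ⟨k, hk⟩ := hodd
      omega
    · intro w hw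
      apply delta_else j _ _ _ (hno w) (hox w)
      intro h
      exact hw (hinj _ _ (by rw [hv, h]))
  -- (i)
  have h1 : ∀ j : ℕ, 1 ≤ j → j < M → ∀ v w, |x v| = 2 * j - 1 → |x w| = 2 * j + 1 →
      tg (x v) (y v) < tg (x w) (y w) := by
    intro j hj1 hjM v w hv hw
    by_contra hle
    push Not at hle
    have hj' : (1 : ℤ) ≤ j := by exact_mod_cast hj1
    have hvw : v ≠ w := by
      intro h
      rw [h, hw] at hv
      omega
    have hlt : tg (x w) (y w) < tg (x v) (y v) := by
      rcases lt_or_eq_of_le hle with h | h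
      · exact h
      · exfalso
        apply hvw
        apply hinjy
        rw [← abs_tg (x v) (y v), ← abs_tg (x w) (y w), h]
    have hO : sx j x ∈ Om R M := by
      apply good hI hx hy j hjM
      intro a b ha hb
      rw [(hlab a _ v (by omega) ha hv).2, (hlab b _ w (by omega) hb hw).2]
      exact hlt
    have h5 := hsum j hjM hO
    rw [Fintype.sum_eq_add v w hvw] at h5
    · rw [delta_low j hj1 _ _ hv, delta_high j hj1 _ _ hw] at h5
      omega
    · intro z hz
      apply delta_else j _ _ _ _ (hox z)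
      · intro h
        exact hz.2 (hinj _ _ (by rw [hw, h]))
      · intro h
        exact hz.1 (hinj _ _ (by rw [hv, h]))
  have up : ∀ n : ℕ, ∀ v, |x v| = 2 * n + 1 → 2 * (n : ℤ) + 1 ≤ tg (x v) (y v) := by
    intro n
    induction n with
    | zero =>
      intro v hv
      have := h4 v (by rw [hv]; norm_num)
      push_cast
      omega
    | succ n ih =>
      intro v hv
      have hM : n + 1 < M := by
        have h5 := hx'.1 v
        have h6 : |x v| < 2 * M := abs_lt.mpr ⟨h5.1, h5.2.1⟩
        push_cast at hv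
        omega
      by_cases hex : ∃ w, |x w| = 2 * ((n + 1 : ℕ) : ℤ) - 1
      · obtain ⟨w, hw⟩ := hex
        have h5 := h1 (n + 1) (by omega) hM w v hw hv
        have h6 := ih w (by rw [hw]; push_cast; ring)
        obtain ⟨k, hk⟩ := odd_tg (x v) (y v) (hoy v)
        push_cast
        omega
      · push Not at hex
        exact h3 (n + 1) (by omega) hM v hv hex
  have down : ∀ n : ℕ, ∀ v, |x v| = 2 * M - 1 - 2 * n → tg (x v) (y v) ≤ 2 * M - 1 - 2 * n := by
    intro n
    induction n with
    | zero =>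
      intro v hv
      have h5 := hy'.1 v
      have h6 : |y v| < 2 * M := abs_lt.mpr ⟨h5.1, h5.2.1⟩
      have h7 := le_abs_self (tg (x v) (y v))
      rw [abs_tg] at h7
      push_cast
      omega
    | succ n ih =>
      intro v hv
      have h0 : 0 < |x v| := by
        apply abs_pos.mpr
        intro h
        have := hox v
        rw [h] at this
        simp at this
      obtain ⟨j, hj⟩ : ∃ j : ℕ, M = j + n + 1 := ⟨M - n - 1, by push_cast at hv; omega⟩
      have hj1 : 1 ≤ j := by push_cast at hv; omega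
      have hv' : |x v| = 2 * (j : ℤ) - 1 := by rw [hv, hj]; push_cast; ring
      by_cases hex : ∃ w, |x w| = 2 * (j : ℤ) + 1
      · obtain ⟨w, hw⟩ := hex
        have h5 := h1 j hj1 (by omega) v w hv' hw
        have h6 := ih w (by rw [hw, hj]; push_cast; ring)
        obtain ⟨k, hk⟩ := odd_tg (x v) (y v) (hoy v)
        have hj' : (M : ℤ) = j + n + 1 := by exact_mod_cast hj
        push_cast
        obtain ⟨k', hk'⟩ := odd_tg (x w) (y w) (hoy w)
        omega
      · push Not at hex
        have h5 := h2 j hj1 (by omega) v hv' hex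
        have hj' : (M : ℤ) = j + n + 1 := by exact_mod_cast hj
        push_cast
        omega
  apply hne
  funext v
  have hxv := hx'.1 v
  have habs' : |x v| < 2 * M := abs_lt.mpr ⟨hxv.1, hxv.2.1⟩
  obtain ⟨n, hn⟩ : ∃ n : ℕ, |x v| = 2 * n + 1 := by
    obtain ⟨k, hk⟩ := hox v
    rcases abs_choice (x v) with h | h
    · exact ⟨(k.toNat), by have := abs_nonneg (x v); omega⟩
    · exact ⟨((-k - 1).toNat), by have := abs_nonneg (x v); omega⟩
  obtain ⟨m, hm⟩ : ∃ m : ℕ, |x v| = 2 * M - 1 - 2 * m := ⟨M - 1 - n, by omega⟩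
  have h5 := up n v hn
  have h6 := down m v hm
  have h7 : tg (x v) (y v) = |x v| := by omega
  unfold tg at h7
  split_ifs at h7 with h
  · rw [h7, abs_of_pos h]
  · have : x v ≤ 0 := by omega
    rw [abs_of_nonpos this] at h7
    omega

theorem t_CON (hI : S_INV) : S_CON := by
  intro P _ _ R M f hf x hx y hy
  have key : ∀ n : ℕ, ∀ x ∈ Om R M, (∑ v, (x v - y v) ^ 2).toNat ≤ n → f x = f y := by
    intro n
    induction n with
    | zero =>
      intro x hx hQ
      by_cases h : x = y
      · rw [h]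
      · obtain ⟨j, -, -, hlt⟩ := step hI hx hy h
        have h0 : 0 ≤ ∑ v, (sx j x v - y v) ^ 2 := Finset.sum_nonneg fun v _ => sq_nonneg _
        omega
    | succ n ih =>
      intro x hx hQ
      by_cases h : x = y
      · rw [h]
      · obtain ⟨j, hj, hO, hlt⟩ := step hI hx hy h
        have h0 : 0 ≤ ∑ v, (sx j x v - y v) ^ 2 := Finset.sum_nonneg fun v _ => sq_nonneg _
        have h1 := hf j hj x hx
        unfold D at h1
        rw [if_pos ⟨hx, hO⟩] at h1
        have h2 := ih (sx j x) hO (by omega)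
        linarith
  exact key _ x hx le_rfl

end

end Run7.h523.KF
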