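import Pool.Agent.Run7.h523.KF.PAT6

/-!
# Pieces DIH6 and DIH8 of the project KF (helper523), by helper194
-/

set_option autoImplicit false

namespace Run7.h523.KF

open Classical in
/-- edge difference -/
noncomputable def gE {α : Type} (O : Finset α) (f : α → ℝ) (y z : α) : ℝ :=
  if y ∈ O ∧ z ∈ O then f z - f y else 0

theorem gE_left {α : Type} (O : Finset α) (f : α → ℝ) (y z : α) (h : y ∉ O) : gE O f y z = 0 := by
  unfold gE
  rw [if_neg (fun hh => h hh.1)]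

theorem gE_right {α : Type} (O : Finset α) (f : α → ℝ) (y z : α) (h : z ∉ O) : gE O f y z = 0 := by
  unfold gE
  rw [if_neg (fun hh => h hh.2)]

theorem gE_mem {α : Type} (O : Finset α) (f : α → ℝ) (y z : α) (h : y ∈ O) (h' : z ∈ O) :
    gE O f y z = f z - f y := by
  unfold gE
  rw [if_pos ⟨h, h'⟩]

theorem gE_anti {α : Type} (O : Finset α) (f : α → ℝ) (y z : α) : gE O f z y = -gE O f y z := by
  unfold gE
  by_cases h : y ∈ O ∧ z ∈ O
  · rw [if_pos h, if_pos ⟨h.2, h.1⟩]; ring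
  · rw [if_neg h, if_neg (fun hh => h ⟨hh.2, hh.1⟩)]; ring

open Classical in
theorem gE_if {α : Type} (O : Finset α) (f : α → ℝ) (y z : α) :
    (if y ∈ O ∧ z ∈ O then f y - f z else 0) = -gE O f y z := by
  unfold gE
  by_cases h : y ∈ O ∧ z ∈ O
  · rw [if_pos h, if_pos h]; ring
  · rw [if_neg h, if_neg h]; ring

/-- the density at a point -/
noncomputable def gG {α : Type} (O : Finset α) (f : α → ℝ) (a b : α → α) (c t τ : ℝ) (x : α) : ℝ :=
  gE O f x (a x) * gE O f x (b x) + c * (t * gE O f x (a x) ^ 2 + τ * gE O f x (b x) ^ 2)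

theorem sum_invol {α : Type} (X : Finset α) (a : α → α) (h1 : ∀ x ∈ X, a x ∈ X)
    (h2 : ∀ x ∈ X, a (a x) = x) (F : α → ℝ) : ∑ x ∈ X, F (a x) = ∑ x ∈ X, F x := by
  apply Finset.sum_nbij' a a h1 h1 h2 h2
  intro x _
  rfl

theorem alt_mem {α : Type} (X : Finset α) (a b : α → α) (ha : ∀ x ∈ X, a x ∈ X)
    (hb : ∀ x ∈ X, b x ∈ X) (i : ℕ) : ∀ x ∈ X, alt a b i x ∈ X := by
  induction i with
  | zero => intro x hx; exact hx
  | succ i ih =>
    intro x hx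
    simp only [alt]
    split_ifs
    · exact ha _ (ih x hx)
    · exact hb _ (ih x hx)

theorem sum_alt {α : Type} (X : Finset α) (a b : α → α) (ha : ∀ x ∈ X, a x ∈ X)
    (hb : ∀ x ∈ X, b x ∈ X) (haa : ∀ x ∈ X, a (a x) = x) (hbb : ∀ x ∈ X, b (b x) = x) (i : ℕ) :
    ∀ F : α → ℝ, ∑ x ∈ X, F (alt a b i x) = ∑ x ∈ X, F x := by
  induction i with
  | zero => intro F; rfl
  | succ i ih =>
    intro F
    simp only [alt]
    split_ifs
    · rw [ih (fun y => F (a y))]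
      exact sum_invol X a ha haa F
    · rw [ih (fun y => F (b y))]
      exact sum_invol X b hb hbb F

/-- it suffices to have the inequality on the orbits -/
theorem orb {α : Type} (X : Finset α) (a b : α → α) (ha : ∀ x ∈ X, a x ∈ X)
    (hb : ∀ x ∈ X, b x ∈ X) (haa : ∀ x ∈ X, a (a x) = x) (hbb : ∀ x ∈ X, b (b x) = x) (n : ℕ)
    (hn : 0 < n) (F : α → ℝ) (h : ∀ x ∈ X, 0 ≤ ∑ i ∈ Finset.range n, F (alt a b i x)) :
    0 ≤ ∑ x ∈ X, F x := by
  have h1 : 0 ≤ ∑ x ∈ X, ∑ i ∈ Finset.range n, F (alt a b i x) := Finset.sum_nonneg h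
  rw [Finset.sum_comm] at h1
  have h2 : ∑ i ∈ Finset.range n, ∑ x ∈ X, F (alt a b i x) = n * ∑ x ∈ X, F x := by
    rw [Finset.sum_congr rfl (fun i _ => sum_alt X a b ha hb haa hbb i F), Finset.sum_const,
      Finset.card_range, nsmul_eq_mul]
  rw [h2] at h1
  have h3 : (0 : ℝ) < n := by exact_mod_cast hn
  exact nonneg_of_mul_nonneg_right h1 h3

open Classical in
/-- reduction of the two statements -/
theorem red {α : Type} (X O : Finset α) (a b : α → α) (f : α → ℝ) (c t : ℝ) (hO : O ⊆ X)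
    (h : 0 ≤ ∑ x ∈ X, gG O f a b c t t⁻¹ x) :
    -∑ x ∈ O, (if x ∈ O ∧ a x ∈ O then f x - f (a x) else 0) *
        (if x ∈ O ∧ b x ∈ O then f x - f (b x) else 0) ≤
      c * (t * ∑ x ∈ O, (if x ∈ O ∧ a x ∈ O then f x - f (a x) else 0) ^ 2 +
        t⁻¹ * ∑ x ∈ O, (if x ∈ O ∧ b x ∈ O then f x - f (b x) else 0) ^ 2) := by
  have h1 : ∑ x ∈ O, gG O f a b c t t⁻¹ x = ∑ x ∈ X, gG O f a b c t t⁻¹ x := by
    apply Finset.sum_subset hO
    intro x _ hx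
    unfold gG
    rw [gE_left O f _ _ hx, gE_left O f _ _ hx]
    ring
  rw [← h1] at h
  simp only [gE_if]
  have h2 : ∑ x ∈ O, gG O f a b c t t⁻¹ x = ∑ x ∈ O, (-gE O f x (a x)) * (-gE O f x (b x)) +
      c * (t * ∑ x ∈ O, (-gE O f x (a x)) ^ 2 + t⁻¹ * ∑ x ∈ O, (-gE O f x (b x)) ^ 2) := by
    unfold gG
    rw [Finset.mul_sum, Finset.mul_sum, ← Finset.sum_add_distrib, Finset.mul_sum,
      ← Finset.sum_add_distrib]
    apply Finset.sum_congr rfl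
    intro x _
    ring
  linarith

theorem am2 (t τ u v : ℝ) (ht : 0 < t) (h : t * τ = 1) : u * v ≤ (t * u ^ 2 + τ * v ^ 2) / 2 := by
  have h1 : (t * u ^ 2 + τ * v ^ 2) / 2 - u * v = t / 2 * (u - τ * v) ^ 2 := by
    linear_combination (u * v - τ * v ^ 2 / 2) * h
  have h2 : 0 ≤ t / 2 * (u - τ * v) ^ 2 := by positivity
  linarith

theorem am4 (s t τ u v : ℝ) (hs0 : 0 ≤ s) (hs : s * s = 2) (ht : 0 < t) (h : t * τ = 1) :
    u * v ≤ s * t / 2 * u ^ 2 + s * τ / 4 * v ^ 2 := by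
  have h1 : s * t / 2 * u ^ 2 + s * τ / 4 * v ^ 2 - u * v = s * t / 2 * (u - s * τ / 2 * v) ^ 2 := by
    linear_combination (u * v / 2 - s * τ * v ^ 2 / 8) * (t * τ) * hs +
      (u * v / 2 - s * τ * v ^ 2 / 8) * 2 * h
  have h2 : 0 ≤ s * t / 2 * (u - s * τ / 2 * v) ^ 2 := by positivity
  linarith

theorem full6 (e0 e1 e2 e3 e4 e5 t τ : ℝ) (ht : 0 < t) (h : t * τ = 1)
    (h0 : e0 + e1 + e2 + e3 + e4 + e5 = 0) :
    e0 * e1 + e1 * e2 + e2 * e3 + e3 * e4 + e4 * e5 + e5 * e0 ≤ (t * (e0 ^ 2 + e2 ^ 2 + e4 ^ 2) + τ * (e1 ^ 2 + e3 ^ 2 + e5 ^ 2)) / 2 := by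
  have a1 := am2 t τ (-e0) e3 ht h
  have a2 := am2 t τ (-e2) e5 ht h
  have a3 := am2 t τ (-e4) e1 ht h
  have h5 : e5 = -(e0 + e1 + e2 + e3 + e4) := by linarith
  have a4 : e0 * e1 + e1 * e2 + e2 * e3 + e3 * e4 + e4 * e5 + e5 * e0 = -(e0 + e2 + e4) ^ 2 + (-e0) * e3 + (-e2) * e5 + (-e4) * e1 := by
    rw [h5]; ring
  rw [a4]
  nlinarith [a1, a2, a3, sq_nonneg (e0 + e2 + e4)]

theorem full8 (e0 e1 e2 e3 e4 e5 e6 e7 s t τ : ℝ) (hs0 : 0 ≤ s) (hs : s * s = 2) (ht : 0 < t)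
    (hτ : 0 < τ) (h : t * τ = 1) (h0 : e0 + e1 + e2 + e3 + e4 + e5 + e6 + e7 = 0) :
    e0 * e1 + e1 * e2 + e2 * e3 + e3 * e4 + e4 * e5 + e5 * e6 + e6 * e7 + e7 * e0 ≤
      s / 2 * (t * (e0 ^ 2 + e2 ^ 2 + e4 ^ 2 + e6 ^ 2) + τ * (e1 ^ 2 + e3 ^ 2 + e5 ^ 2 + e7 ^ 2)) := by
  obtain ⟨S, hS⟩ : ∃ S, S = e0 + e2 + e4 + e6 := ⟨_, rfl⟩
  obtain ⟨p0, hp0⟩ : ∃ y, y = e0 - S / 4 := ⟨_, rfl⟩
  obtain ⟨p2, hp2⟩ : ∃ y, y = e2 - S / 4 := ⟨_, rfl⟩
  obtain ⟨p4, hp4⟩ : ∃ y, y = e4 - S / 4 := ⟨_, rfl⟩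
  obtain ⟨q1, hq1⟩ : ∃ y, y = e1 + S / 4 := ⟨_, rfl⟩
  obtain ⟨q3, hq3⟩ : ∃ y, y = e3 + S / 4 := ⟨_, rfl⟩
  obtain ⟨q5, hq5⟩ : ∃ y, y = e5 + S / 4 := ⟨_, rfl⟩
  have k0 : e0 = p0 + S / 4 := by linarith
  have k2 : e2 = p2 + S / 4 := by linarith
  have k4 : e4 = p4 + S / 4 := by linarith
  have k6 : e6 = -(p0 + p2 + p4) + S / 4 := by linarith
  have k1 : e1 = q1 - S / 4 := by linarith
  have k3 : e3 = q3 - S / 4 := by linarith
  have k5 : e5 = q5 - S / 4 := by linarith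
  have k7 : e7 = -(q1 + q3 + q5) - S / 4 := by linarith
  have a0 := am4 s t τ p0 (-(q1 + q3 + q5) + q1) hs0 hs ht h
  have a2 := am4 s t τ p2 (q1 + q3) hs0 hs ht h
  have a4 := am4 s t τ p4 (q3 + q5) hs0 hs ht h
  have a6 := am4 s t τ (-(p0 + p2 + p4)) (q5 + -(q1 + q3 + q5)) hs0 hs ht h
  have b1 : 0 ≤ s * t * S ^ 2 := by positivity
  have b2 : 0 ≤ s * τ * S ^ 2 := by positivity
  have b3 : 0 ≤ s * τ * (q1 + q5) ^ 2 := by positivity
  have b4 : 0 ≤ S ^ 2 := by positivity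
  rw [k0, k1, k2, k3, k4, k5, k6, k7]
  linarith

theorem part8 (e e' e'' s t τ : ℝ) (hs0 : 0 ≤ s) (hs : s * s = 2) (ht : 0 < t)
    (hτ : 0 < τ) (h : t * τ = 1) :
    e' * (e + e'') ≤ s / 2 * (t * (e ^ 2 + e'' ^ 2) + τ * e' ^ 2) := by
  have a0 := am4 s τ t e' (e + e'') hs0 hs hτ (by rw [mul_comm]; exact h)
  have b1 : 0 ≤ s * t * (e - e'') ^ 2 := by positivity
  linarith

theorem real8 (e0 e1 e2 e3 e4 e5 e6 e7 s t τ : ℝ) (hs0 : 0 ≤ s) (hs : s * s = 2) (ht : 0 < t)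
    (hτ : 0 < τ) (h : t * τ = 1) (h0 : e0 + e1 + e2 + e3 + e4 + e5 + e6 + e7 = 0 ∨
      (e3 = 0 ∧ e4 = 0 ∧ e5 = 0 ∧ e6 = 0 ∧ e7 = 0) ∨
      (e4 = 0 ∧ e5 = 0 ∧ e6 = 0 ∧ e7 = 0 ∧ e0 = 0) ∨
      (e5 = 0 ∧ e6 = 0 ∧ e7 = 0 ∧ e0 = 0 ∧ e1 = 0) ∨
      (e6 = 0 ∧ e7 = 0 ∧ e0 = 0 ∧ e1 = 0 ∧ e2 = 0) ∨
      (e7 = 0 ∧ e0 = 0 ∧ e1 = 0 ∧ e2 = 0 ∧ e3 = 0) ∨
      (e0 = 0 ∧ e1 = 0 ∧ e2 = 0 ∧ e3 = 0 ∧ e4 = 0) ∨
      (e1 = 0 ∧ e2 = 0 ∧ e3 = 0 ∧ e4 = 0 ∧ e5 = 0) ∨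
      (e2 = 0 ∧ e3 = 0 ∧ e4 = 0 ∧ e5 = 0 ∧ e6 = 0)) :
    e0 * e1 + e1 * e2 + e2 * e3 + e3 * e4 + e4 * e5 + e5 * e6 + e6 * e7 + e7 * e0 ≤
      s / 2 * (t * (e0 ^ 2 + e2 ^ 2 + e4 ^ 2 + e6 ^ 2) + τ * (e1 ^ 2 + e3 ^ 2 + e5 ^ 2 + e7 ^ 2)) := by
  rcases h0 with h0 | ⟨rfl, rfl, rfl, rfl, rfl⟩ |
      ⟨rfl, rfl, rfl, rfl, rfl⟩ |
      ⟨rfl, rfl, rfl, rfl, rfl⟩ |
      ⟨rfl, rfl, rfl, rfl, rfl⟩ |
      ⟨rfl, rfl, rfl, rfl, rfl⟩ |
      ⟨rfl, rfl, rfl, rfl, rfl⟩ |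
      ⟨rfl, rfl, rfl, rfl, rfl⟩ |
      ⟨rfl, rfl, rfl, rfl, rfl⟩
  · exact full8 e0 e1 e2 e3 e4 e5 e6 e7 s t τ hs0 hs ht hτ h h0
  · have a1 := part8 e0 e1 e2 s t τ hs0 hs ht hτ h
    linarith
  · have a1 := part8 e1 e2 e3 s τ t hs0 hs hτ ht (by rw [mul_comm]; exact h)
    linarith
  · have a1 := part8 e2 e3 e4 s t τ hs0 hs ht hτ h
    linarith
  · have a1 := part8 e3 e4 e5 s τ t hs0 hs hτ ht (by rw [mul_comm]; exact h)
    linarith
  · have a1 := part8 e4 e5 e6 s t τ hs0 hs ht hτ h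
    linarith
  · have a1 := part8 e5 e6 e7 s τ t hs0 hs hτ ht (by rw [mul_comm]; exact h)
    linarith
  · have a1 := part8 e6 e7 e0 s t τ hs0 hs ht hτ h
    linarith
  · have a1 := part8 e7 e0 e1 s τ t hs0 hs hτ ht (by rw [mul_comm]; exact h)
    linarith

theorem real6 (e0 e1 e2 e3 e4 e5 t τ : ℝ) (ht : 0 < t)
    (hτ : 0 < τ) (h : t * τ = 1) (h0 : e0 + e1 + e2 + e3 + e4 + e5 = 0 ∨
      (e2 = 0 ∧ e3 = 0 ∧ e4 = 0 ∧ e5 = 0) ∨
      (e3 = 0 ∧ e4 = 0 ∧ e5 = 0 ∧ e0 = 0) ∨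
      (e4 = 0 ∧ e5 = 0 ∧ e0 = 0 ∧ e1 = 0) ∨
      (e5 = 0 ∧ e0 = 0 ∧ e1 = 0 ∧ e2 = 0) ∨
      (e0 = 0 ∧ e1 = 0 ∧ e2 = 0 ∧ e3 = 0) ∨
      (e1 = 0 ∧ e2 = 0 ∧ e3 = 0 ∧ e4 = 0)) :
    e0 * e1 + e1 * e2 + e2 * e3 + e3 * e4 + e4 * e5 + e5 * e0 ≤
      (t * (e0 ^ 2 + e2 ^ 2 + e4 ^ 2) + τ * (e1 ^ 2 + e3 ^ 2 + e5 ^ 2)) / 2 := by
  rcases h0 with h0 | ⟨rfl, rfl, rfl, rfl⟩ |
      ⟨rfl, rfl, rfl, rfl⟩ |
      ⟨rfl, rfl, rfl, rfl⟩ |
      ⟨rfl, rfl, rfl, rfl⟩ |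
      ⟨rfl, rfl, rfl, rfl⟩ |
      ⟨rfl, rfl, rfl, rfl⟩
  · exact full6 e0 e1 e2 e3 e4 e5 t τ ht h h0
  · have a1 := am2 t τ e0 e1 ht h
    linarith
  · have a1 := am2 t τ e2 e1 ht h
    linarith
  · have a1 := am2 t τ e2 e3 ht h
    linarith
  · have a1 := am2 t τ e4 e3 ht h
    linarith
  · have a1 := am2 t τ e4 e5 ht h
    linarith
  · have a1 := am2 t τ e0 e5 ht h
    linarith

theorem pt6 {α : Type} (O : Finset α) (a b : α → α) (f : α → ℝ) (c t τ : ℝ)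
    (x0 x1 x2 x3 x4 x5 : α)
    (h0 : a x0 = x1) (k0 : a x1 = x0)
    (h1 : b x1 = x2) (k1 : b x2 = x1)
    (h2 : a x2 = x3) (k2 : a x3 = x2)
    (h3 : b x3 = x4) (k3 : b x4 = x3)
    (h4 : a x4 = x5) (k4 : a x5 = x4)
    (h5 : b x5 = x0) (k5 : b x0 = x5) :
    gG O f a b c t τ x0 + gG O f a b c t τ x1 + gG O f a b c t τ x2 + gG O f a b c t τ x3 + gG O f a b c t τ x4 + gG O f a b c t τ x5 =
      2 * c * (t * (gE O f x0 x1 ^ 2 + gE O f x2 x3 ^ 2 + gE O f x4 x5 ^ 2) +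
        τ * (gE O f x1 x2 ^ 2 + gE O f x3 x4 ^ 2 + gE O f x5 x0 ^ 2)) -
      (gE O f x0 x1 * gE O f x1 x2 + gE O f x1 x2 * gE O f x2 x3 + gE O f x2 x3 * gE O f x3 x4 + gE O f x3 x4 * gE O f x4 x5 + gE O f x4 x5 * gE O f x5 x0 + gE O f x5 x0 * gE O f x0 x1) := by
  unfold gG
  rw [h0, k0, h1, k1, h2, k2, h3, k3, h4, k4, h5, k5,
    gE_anti O f x0 x1, gE_anti O f x1 x2, gE_anti O f x2 x3, gE_anti O f x3 x4, gE_anti O f x4 x5, gE_anti O f x5 x0]
  ring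

theorem pt8 {α : Type} (O : Finset α) (a b : α → α) (f : α → ℝ) (c t τ : ℝ)
    (x0 x1 x2 x3 x4 x5 x6 x7 : α)
    (h0 : a x0 = x1) (k0 : a x1 = x0)
    (h1 : b x1 = x2) (k1 : b x2 = x1)
    (h2 : a x2 = x3) (k2 : a x3 = x2)
    (h3 : b x3 = x4) (k3 : b x4 = x3)
    (h4 : a x4 = x5) (k4 : a x5 = x4)
    (h5 : b x5 = x6) (k5 : b x6 = x5)
    (h6 : a x6 = x7) (k6 : a x7 = x6)
    (h7 : b x7 = x0) (k7 : b x0 = x7) :
    gG O f a b c t τ x0 + gG O f a b c t τ x1 + gG O f a b c t τ x2 + gG O f a b c t τ x3 + gG O f a b c t τ x4 + gG O f a b c t τ x5 + gG O f a b c t τ x6 + gG O f a b c t τ x7 =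
      2 * c * (t * (gE O f x0 x1 ^ 2 + gE O f x2 x3 ^ 2 + gE O f x4 x5 ^ 2 + gE O f x6 x7 ^ 2) +
        τ * (gE O f x1 x2 ^ 2 + gE O f x3 x4 ^ 2 + gE O f x5 x6 ^ 2 + gE O f x7 x0 ^ 2)) -
      (gE O f x0 x1 * gE O f x1 x2 + gE O f x1 x2 * gE O f x2 x3 + gE O f x2 x3 * gE O f x3 x4 + gE O f x3 x4 * gE O f x4 x5 + gE O f x4 x5 * gE O f x5 x6 + gE O f x5 x6 * gE O f x6 x7 + gE O f x6 x7 * gE O f x7 x0 + gE O f x7 x0 * gE O f x0 x1) := by
  unfold gG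
  rw [h0, k0, h1, k1, h2, k2, h3, k3, h4, k4, h5, k5, h6, k6, h7, k7,
    gE_anti O f x0 x1, gE_anti O f x1 x2, gE_anti O f x2 x3, gE_anti O f x3 x4, gE_anti O f x4 x5, gE_anti O f x5 x6, gE_anti O f x6 x7, gE_anti O f x7 x0]
  ring

theorem t_DIH6 : S_DIH6 := by
  intro α X O a b f t ht hO ha hb haa hbb hn hpat
  apply red X O a b f (1 / 4) t hO
  apply orb X a b ha hb haa hbb 6 (by norm_num)
  intro x hx
  have hm : ∀ i, alt a b i x ∈ X := fun i => alt_mem X a b ha hb i x hx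
  have hτ : 0 < t⁻¹ := inv_pos.mpr ht
  have htt : t * t⁻¹ = 1 := mul_inv_cancel₀ ht.ne'
  have hpt := pt6 O a b f (1 / 4) t t⁻¹
    (alt a b 0 x) (alt a b 1 x) (alt a b 2 x) (alt a b 3 x) (alt a b 4 x) (alt a b 5 x)
    rfl (haa _ (hm 0)) rfl (hbb _ (hm 1)) rfl (haa _ (hm 2)) rfl (hbb _ (hm 3)) rfl (haa _ (hm 4)) (hn x hx) (by
      have h1 : b (alt a b 5 x) = x := hn x hx
      have h2 := hbb _ (hm 5)
      rw [h1] at h2
      exact h2)
  have hr := real6 (gE O f (alt a b 0 x) (alt a b 1 x)) (gE O f (alt a b 1 x) (alt a b 2 x)) (gE O f (alt a b 2 x) (alt a b 3 x)) (gE O f (alt a b 3 x) (alt a b 4 x)) (gE O f (alt a b 4 x) (alt a b 5 x)) (gE O f (alt a b 5 x) (alt a b 0 x))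
    t t⁻¹ ht hτ htt ?_
  · simp only [Finset.sum_range_succ, Finset.sum_range_zero, zero_add]
    rw [hpt]
    linarith
  · rcases hpat x hx with hall | ⟨i₀, hi₀, hi⟩
    · left
      rw [gE_mem O f _ _ (hall 0 (by norm_num)) (hall 1 (by norm_num)), gE_mem O f _ _ (hall 1 (by norm_num)) (hall 2 (by norm_num)), gE_mem O f _ _ (hall 2 (by norm_num)) (hall 3 (by norm_num)), gE_mem O f _ _ (hall 3 (by norm_num)) (hall 4 (by norm_num)), gE_mem O f _ _ (hall 4 (by norm_num)) (hall 5 (by norm_num)), gE_mem O f _ _ (hall 5 (by norm_num)) (hall 0 (by norm_num))]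
      ring
    · right
      interval_cases i₀
      · have n3 : alt a b 3 x ∉ O := fun h => absurd (hi 3 (by norm_num) h) (by norm_num)
        have n4 : alt a b 4 x ∉ O := fun h => absurd (hi 4 (by norm_num) h) (by norm_num)
        have n5 : alt a b 5 x ∉ O := fun h => absurd (hi 5 (by norm_num) h) (by norm_num)
        left
        exact ⟨gE_right O f _ _ n3, gE_left O f _ _ n3, gE_left O f _ _ n4, gE_left O f _ _ n5⟩
      · have n4 : alt a b 4 x ∉ O := fun h => absurd (hi 4 (by norm_num) h) (by norm_num)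
        have n5 : alt a b 5 x ∉ O := fun h => absurd (hi 5 (by norm_num) h) (by norm_num)
        have n0 : alt a b 0 x ∉ O := fun h => absurd (hi 0 (by norm_num) h) (by norm_num)
        right; left
        exact ⟨gE_right O f _ _ n4, gE_left O f _ _ n4, gE_left O f _ _ n5, gE_left O f _ _ n0⟩
      · have n5 : alt a b 5 x ∉ O := fun h => absurd (hi 5 (by norm_num) h) (by norm_num)
        have n0 : alt a b 0 x ∉ O := fun h => absurd (hi 0 (by norm_num) h) (by norm_num)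
        have n1 : alt a b 1 x ∉ O := fun h => absurd (hi 1 (by norm_num) h) (by norm_num)
        right; right; left
        exact ⟨gE_right O f _ _ n5, gE_left O f _ _ n5, gE_left O f _ _ n0, gE_left O f _ _ n1⟩
      · have n0 : alt a b 0 x ∉ O := fun h => absurd (hi 0 (by norm_num) h) (by norm_num)
        have n1 : alt a b 1 x ∉ O := fun h => absurd (hi 1 (by norm_num) h) (by norm_num)
        have n2 : alt a b 2 x ∉ O := fun h => absurd (hi 2 (by norm_num) h) (by norm_num)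
        right; right; right; left
        exact ⟨gE_right O f _ _ n0, gE_left O f _ _ n0, gE_left O f _ _ n1, gE_left O f _ _ n2⟩
      · have n1 : alt a b 1 x ∉ O := fun h => absurd (hi 1 (by norm_num) h) (by norm_num)
        have n2 : alt a b 2 x ∉ O := fun h => absurd (hi 2 (by norm_num) h) (by norm_num)
        have n3 : alt a b 3 x ∉ O := fun h => absurd (hi 3 (by norm_num) h) (by norm_num)
        right; right; right; right; left
        exact ⟨gE_right O f _ _ n1, gE_left O f _ _ n1, gE_left O f _ _ n2, gE_left O f _ _ n3⟩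
      · have n2 : alt a b 2 x ∉ O := fun h => absurd (hi 2 (by norm_num) h) (by norm_num)
        have n3 : alt a b 3 x ∉ O := fun h => absurd (hi 3 (by norm_num) h) (by norm_num)
        have n4 : alt a b 4 x ∉ O := fun h => absurd (hi 4 (by norm_num) h) (by norm_num)
        right; right; right; right; right
        exact ⟨gE_right O f _ _ n2, gE_left O f _ _ n2, gE_left O f _ _ n3, gE_left O f _ _ n4⟩

theorem t_DIH8 : S_DIH8 := by
  intro α X O a b f t ht hO ha hb haa hbb hn hpat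
  apply red X O a b f (Real.sqrt 2 / 4) t hO
  apply orb X a b ha hb haa hbb 8 (by norm_num)
  intro x hx
  have hm : ∀ i, alt a b i x ∈ X := fun i => alt_mem X a b ha hb i x hx
  have hτ : 0 < t⁻¹ := inv_pos.mpr ht
  have htt : t * t⁻¹ = 1 := mul_inv_cancel₀ ht.ne'
  have hpt := pt8 O a b f (Real.sqrt 2 / 4) t t⁻¹
    (alt a b 0 x) (alt a b 1 x) (alt a b 2 x) (alt a b 3 x) (alt a b 4 x) (alt a b 5 x) (alt a b 6 x) (alt a b 7 x)
    rfl (haa _ (hm 0)) rfl (hbb _ (hm 1)) rfl (haa _ (hm 2)) rfl (hbb _ (hm 3)) rfl (haa _ (hm 4)) rfl (hbb _ (hm 5)) rfl (haa _ (hm 6)) (hn x hx) (by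
      have h1 : b (alt a b 7 x) = x := hn x hx
      have h2 := hbb _ (hm 7)
      rw [h1] at h2
      exact h2)
  have hs : Real.sqrt 2 * Real.sqrt 2 = 2 := Real.mul_self_sqrt (by norm_num)
  have hr := real8 (gE O f (alt a b 0 x) (alt a b 1 x)) (gE O f (alt a b 1 x) (alt a b 2 x)) (gE O f (alt a b 2 x) (alt a b 3 x)) (gE O f (alt a b 3 x) (alt a b 4 x)) (gE O f (alt a b 4 x) (alt a b 5 x)) (gE O f (alt a b 5 x) (alt a b 6 x)) (gE O f (alt a b 6 x) (alt a b 7 x)) (gE O f (alt a b 7 x) (alt a b 0 x))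
    (Real.sqrt 2) t t⁻¹ (Real.sqrt_nonneg 2) hs ht hτ htt ?_
  · simp only [Finset.sum_range_succ, Finset.sum_range_zero, zero_add]
    rw [hpt]
    linarith
  · rcases hpat x hx with hall | ⟨i₀, hi₀, hi⟩
    · left
      rw [gE_mem O f _ _ (hall 0 (by norm_num)) (hall 1 (by norm_num)), gE_mem O f _ _ (hall 1 (by norm_num)) (hall 2 (by norm_num)), gE_mem O f _ _ (hall 2 (by norm_num)) (hall 3 (by norm_num)), gE_mem O f _ _ (hall 3 (by norm_num)) (hall 4 (by norm_num)), gE_mem O f _ _ (hall 4 (by norm_num)) (hall 5 (by norm_num)), gE_mem O f _ _ (hall 5 (by norm_num)) (hall 6 (by norm_num)), gE_mem O f _ _ (hall 6 (by norm_num)) (hall 7 (by norm_num)), gE_mem O f _ _ (hall 7 (by norm_num)) (hall 0 (by norm_num))]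
      ring
    · right
      interval_cases i₀
      · have n4 : alt a b 4 x ∉ O := fun h => absurd (hi 4 (by norm_num) h) (by norm_num)
        have n5 : alt a b 5 x ∉ O := fun h => absurd (hi 5 (by norm_num) h) (by norm_num)
        have n6 : alt a b 6 x ∉ O := fun h => absurd (hi 6 (by norm_num) h) (by norm_num)
        have n7 : alt a b 7 x ∉ O := fun h => absurd (hi 7 (by norm_num) h) (by norm_num)
        left
        exact ⟨gE_right O f _ _ n4, gE_left O f _ _ n4, gE_left O f _ _ n5, gE_left O f _ _ n6, gE_left O f _ _ n7⟩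
      · have n5 : alt a b 5 x ∉ O := fun h => absurd (hi 5 (by norm_num) h) (by norm_num)
        have n6 : alt a b 6 x ∉ O := fun h => absurd (hi 6 (by norm_num) h) (by norm_num)
        have n7 : alt a b 7 x ∉ O := fun h => absurd (hi 7 (by norm_num) h) (by norm_num)
        have n0 : alt a b 0 x ∉ O := fun h => absurd (hi 0 (by norm_num) h) (by norm_num)
        right; left
        exact ⟨gE_right O f _ _ n5, gE_left O f _ _ n5, gE_left O f _ _ n6, gE_left O f _ _ n7, gE_left O f _ _ n0⟩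
      · have n6 : alt a b 6 x ∉ O := fun h => absurd (hi 6 (by norm_num) h) (by norm_num)
        have n7 : alt a b 7 x ∉ O := fun h => absurd (hi 7 (by norm_num) h) (by norm_num)
        have n0 : alt a b 0 x ∉ O := fun h => absurd (hi 0 (by norm_num) h) (by norm_num)
        have n1 : alt a b 1 x ∉ O := fun h => absurd (hi 1 (by norm_num) h) (by norm_num)
        right; right; left
        exact ⟨gE_right O f _ _ n6, gE_left O f _ _ n6, gE_left O f _ _ n7, gE_left O f _ _ n0, gE_left O f _ _ n1⟩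
      · have n7 : alt a b 7 x ∉ O := fun h => absurd (hi 7 (by norm_num) h) (by norm_num)
        have n0 : alt a b 0 x ∉ O := fun h => absurd (hi 0 (by norm_num) h) (by norm_num)
        have n1 : alt a b 1 x ∉ O := fun h => absurd (hi 1 (by norm_num) h) (by norm_num)
        have n2 : alt a b 2 x ∉ O := fun h => absurd (hi 2 (by norm_num) h) (by norm_num)
        right; right; right; left
        exact ⟨gE_right O f _ _ n7, gE_left O f _ _ n7, gE_left O f _ _ n0, gE_left O f _ _ n1, gE_left O f _ _ n2⟩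
      · have n0 : alt a b 0 x ∉ O := fun h => absurd (hi 0 (by norm_num) h) (by norm_num)
        have n1 : alt a b 1 x ∉ O := fun h => absurd (hi 1 (by norm_num) h) (by norm_num)
        have n2 : alt a b 2 x ∉ O := fun h => absurd (hi 2 (by norm_num) h) (by norm_num)
        have n3 : alt a b 3 x ∉ O := fun h => absurd (hi 3 (by norm_num) h) (by norm_num)
        right; right; right; right; left
        exact ⟨gE_right O f _ _ n0, gE_left O f _ _ n0, gE_left O f _ _ n1, gE_left O f _ _ n2, gE_left O f _ _ n3⟩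
      · have n1 : alt a b 1 x ∉ O := fun h => absurd (hi 1 (by norm_num) h) (by norm_num)
        have n2 : alt a b 2 x ∉ O := fun h => absurd (hi 2 (by norm_num) h) (by norm_num)
        have n3 : alt a b 3 x ∉ O := fun h => absurd (hi 3 (by norm_num) h) (by norm_num)
        have n4 : alt a b 4 x ∉ O := fun h => absurd (hi 4 (by norm_num) h) (by norm_num)
        right; right; right; right; right; left
        exact ⟨gE_right O f _ _ n1, gE_left O f _ _ n1, gE_left O f _ _ n2, gE_left O f _ _ n3, gE_left O f _ _ n4⟩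
      · have n2 : alt a b 2 x ∉ O := fun h => absurd (hi 2 (by norm_num) h) (by norm_num)
        have n3 : alt a b 3 x ∉ O := fun h => absurd (hi 3 (by norm_num) h) (by norm_num)
        have n4 : alt a b 4 x ∉ O := fun h => absurd (hi 4 (by norm_num) h) (by norm_num)
        have n5 : alt a b 5 x ∉ O := fun h => absurd (hi 5 (by norm_num) h) (by norm_num)
        right; right; right; right; right; right; left
        exact ⟨gE_right O f _ _ n2, gE_left O f _ _ n2, gE_left O f _ _ n3, gE_left O f _ _ n4, gE_left O f _ _ n5⟩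
      · have n3 : alt a b 3 x ∉ O := fun h => absurd (hi 3 (by norm_num) h) (by norm_num)
        have n4 : alt a b 4 x ∉ O := fun h => absurd (hi 4 (by norm_num) h) (by norm_num)
        have n5 : alt a b 5 x ∉ O := fun h => absurd (hi 5 (by norm_num) h) (by norm_num)
        have n6 : alt a b 6 x ∉ O := fun h => absurd (hi 6 (by norm_num) h) (by norm_num)
        right; right; right; right; right; right; right
        exact ⟨gE_right O f _ _ n3, gE_left O f _ _ n3, gE_left O f _ _ n4, gE_left O f _ _ n5, gE_left O f _ _ n6⟩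

end Run7.h523.KF
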