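import Pool.Agent.Run7.h523.KF.Iface

/-!
# Project KF (helper523), piece HEX (helper704)
-/

set_option autoImplicit false
set_option linter.all false

namespace Run7.h523.KF

open Finset

section
variable {P : Type} [Fintype P] [DecidableEq P]

lemma hx_alt (a b : ℕ) (i : ℕ) (x : P → ℤ) (v : P) :
    alt (sx a) (sx b) i x v = alt (sb a) (sb b) i (x v) := by
  induction i with
  | zero => rfl
  | succ i ih =>
    simp only [alt]
    split_ifs
    · show sb a (alt (sx a) (sx b) i x v) = _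
      rw [ih]
    · show sb b (alt (sx a) (sx b) i x v) = _
      rw [ih]

lemma hx_alt_neg (hI : S_INV) (a b : ℕ) (i : ℕ) (z : ℤ) :
    alt (sb a) (sb b) i (-z) = -alt (sb a) (sb b) i z := by
  induction i with
  | zero => rfl
  | succ i ih =>
    simp only [alt]
    split_ifs
    · rw [ih, hI.2.1]
    · rw [ih, hI.2.1]

lemma hx_sv (hI : S_INV) (a b : ℕ) (i : ℕ) (x : P → ℤ) (c : P × Bool) :
    sv (alt (sx a) (sx b) i x) c = alt (sb a) (sb b) i (sv x c) := by
  unfold sv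
  split_ifs
  · exact hx_alt a b i x c.1
  · rw [hx_alt, hx_alt_neg hI]

lemma hx_odd {M : ℕ} {z : ℤ} (hz : z ∈ Si M) : Odd z := by
  unfold Si at hz
  exact (mem_filter.1 hz).2

lemma hx_alt_mem (hI : S_INV) {M a b : ℕ} (ha : a < M) (hb : b < M) (i : ℕ) {z : ℤ} (hz : z ∈ Si M) :
    alt (sb a) (sb b) i z ∈ Si M := by
  induction i with
  | zero => exact hz
  | succ i ih =>
    simp only [alt]
    split_ifs
    · exact hI.2.2.1 M a _ ha ih
    · exact hI.2.2.1 M b _ hb ih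

lemma hx_abs (hI : S_INV) {M a b : ℕ} (ha : a < M) (hb : b < M) (i : ℕ) {z z' : ℤ} (hz : z ∈ Si M)
    (hz' : z' ∈ Si M) : |alt (sb a) (sb b) i z| = |alt (sb a) (sb b) i z'| ↔ |z| = |z'| := by
  induction i with
  | zero => exact Iff.rfl
  | succ i ih =>
    have h1 := hx_odd (hx_alt_mem hI ha hb i hz)
    have h2 := hx_odd (hx_alt_mem hI ha hb i hz')
    simp only [alt]
    split_ifs
    · rw [hI.2.2.2.1 a _ _ h1 h2, ih]
    · rw [hI.2.2.2.1 b _ _ h1 h2, ih]

lemma hx_sv_odd {M : ℕ} {x : P → ℤ} (hx : ∀ v, x v ∈ Si M) (c : P × Bool) : Odd (sv x c) := by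
  unfold sv
  split_ifs
  · exact hx_odd (hx c.1)
  · exact (hx_odd (hx c.1)).neg

/-- the common part: the pattern of the states along the polygon -/
lemma hx_pat (hI : S_INV) (R : P × Bool → P × Bool → Prop) {M a b : ℕ} (ha : a < M) (hb : b < M)
    (N : ℕ) (hN : 0 < N) (C : ℕ → ℕ → Prop)
    (hpat : ∀ p q : ℤ, Odd p → Odd q → (∀ i < N, alt (sb a) (sb b) i p ≤ alt (sb a) (sb b) i q) ∨
      ∃ i₀ < N, ∀ i < N, alt (sb a) (sb b) i p ≤ alt (sb a) (sb b) i q → C i₀ i)
    (x : P → ℤ) (hx : ∀ v, x v ∈ Si M) :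
    (∀ i < N, alt (sx a) (sx b) i x ∈ Om R M) ∨
      ∃ i₀ < N, ∀ i < N, alt (sx a) (sx b) i x ∈ Om R M → C i₀ i := by
  classical
  by_cases hall : ∀ i < N, alt (sx a) (sx b) i x ∈ Om R M
  · exact Or.inl hall
  right
  push Not at hall
  obtain ⟨i₁, hi₁, hnot⟩ := hall
  have hmem : ∀ i v, alt (sx a) (sx b) i x v ∈ Si M := by
    intro i v
    rw [hx_alt]
    exact hx_alt_mem hI ha hb i (hx v)
  by_cases hinj : ∀ v w, |alt (sx a) (sx b) i₁ x v| = |alt (sx a) (sx b) i₁ x w| → v = w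
  · have hcon : ∃ c d, R c d ∧ ¬ sv (alt (sx a) (sx b) i₁ x) c ≤ sv (alt (sx a) (sx b) i₁ x) d := by
      by_contra hcon
      push Not at hcon
      refine hnot ?_
      unfold Om
      rw [mem_filter, Fintype.mem_piFinset]
      exact ⟨fun v => hmem i₁ v, hinj, fun c d hcd => hcon c d hcd⟩
    obtain ⟨c, d, hR, hcd⟩ := hcon
    rcases hpat (sv x c) (sv x d) (hx_sv_odd hx c) (hx_sv_odd hx d) with h | ⟨i₀, hi₀, h⟩
    · exfalso
      refine hcd ?_
      rw [hx_sv hI, hx_sv hI]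
      exact h i₁ hi₁
    · refine ⟨i₀, hi₀, fun i hi hO => h i hi ?_⟩
      unfold Om at hO
      rw [mem_filter] at hO
      have := hO.2.2 c d hR
      rwa [hx_sv hI, hx_sv hI] at this
  · refine ⟨0, hN, fun i hi hO => ?_⟩
    exfalso
    push Not at hinj
    obtain ⟨v, w, hvw, hne⟩ := hinj
    unfold Om at hO
    rw [mem_filter] at hO
    refine hne (hO.2.1 v w ?_)
    rw [hx_alt, hx_alt] at hvw ⊢
    rw [hx_abs hI ha hb i (hx v) (hx w)]
    rwa [hx_abs hI ha hb i₁ (hx v) (hx w)] at hvw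

end

theorem t_HEX (hI : S_INV) (hP : S_PAT6) (hD : S_DIH6) : S_HEX := by
  classical
  intro P _ _ R M f j t hj hjM ht
  have hj0 : j < M := by omega
  set X : Finset (P → ℤ) := Fintype.piFinset fun _ : P => Si M with hX
  have hOX : Om R M ⊆ X := by
    unfold Om
    exact filter_subset _ _
  have hmX : ∀ x, x ∈ X ↔ ∀ v, x v ∈ Si M := fun x => by
    rw [hX, Fintype.mem_piFinset]
  have h := hD (P → ℤ) X (Om R M) (sx j) (sx (j + 1)) f t ht hOX
    (fun x hx => (hmX _).2 fun v => hI.2.2.1 M j _ hj0 ((hmX x).1 hx v))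
    (fun x hx => (hmX _).2 fun v => hI.2.2.1 M (j + 1) _ hjM ((hmX x).1 hx v))
    (fun x _ => funext fun v => hI.1 j (x v)) (fun x _ => funext fun v => hI.1 (j + 1) (x v))
    (fun x hx => funext fun v => by
      rw [hx_alt]
      exact hI.2.2.2.2.2.1 j (x v) hj (hx_odd ((hmX x).1 hx v)))
    (fun x hx => hx_pat hI R hj0 hjM 6 (by norm_num)
      (fun i₀ i => i = i₀ ∨ i = (i₀ + 1) % 6 ∨ i = (i₀ + 2) % 6)
      (fun p q hp hq => hP j p q hj hp hq) x ((hmX x).1 hx))
  have e : ∀ k x, D R M f k x = (if x ∈ Om R M ∧ sx k x ∈ Om R M then f x - f (sx k x) else 0) := by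
    intro k x
    unfold D
    congr
  simp only [e]
  convert h using 6 <;> congr

end Run7.h523.KF
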