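import Pool.Agent.Run7.h523.KF.Iface

/-!
# Piece INV of the project KF (helper523), by helper194
-/

set_option autoImplicit false

namespace Run7.h523.KF

theorem sb_sb (j : ℕ) (z : ℤ) : sb j (sb j z) = z := by
  unfold sb
  split_ifs <;> omega

theorem sb_neg (j : ℕ) (z : ℤ) : sb j (-z) = -sb j z := by
  unfold sb
  split_ifs <;> omega

theorem mem_Si {M : ℕ} {z : ℤ} : z ∈ Si M ↔ (-(2 * M : ℤ) < z ∧ z < 2 * M) ∧ Odd z := by
  unfold Si
  rw [Finset.mem_filter, Finset.mem_Ioo]

theorem sb_odd (j : ℕ) (z : ℤ) (h : Odd z) : Odd (sb j z) := by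
  obtain ⟨k, rfl⟩ := h
  unfold sb
  split_ifs
  · exact ⟨j - 1, by omega⟩
  · exact ⟨-j, by omega⟩
  · exact ⟨j, by omega⟩
  · exact ⟨-j - 1, by omega⟩
  · exact ⟨k, rfl⟩

theorem sb_fix (j : ℕ) (z : ℤ) (h1 : z ≠ 2 * j + 1) (h2 : z ≠ -(2 * j + 1)) (h3 : z ≠ 2 * j - 1)
    (h4 : z ≠ -(2 * j - 1)) : sb j z = z := by
  unfold sb
  rw [if_neg h1, if_neg h2, if_neg h3, if_neg h4]

theorem sb_abs_aux (j : ℕ) (z z' : ℤ) (hz : Odd z) (hz' : Odd z') (h : |z| = |z'|) :
    |sb j z| = |sb j z'| := by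
  rw [abs_eq_abs] at h
  rcases h with h | h
  · rw [h]
  · rw [h, sb_neg, abs_neg]

theorem t_INV : S_INV := by
  refine ⟨sb_sb, sb_neg, ?_, ?_, ?_, ?_, ?_⟩
  · intro M j z hj hz
    rw [mem_Si] at hz ⊢
    refine ⟨?_, sb_odd j z hz.2⟩
    obtain ⟨⟨h1, h2⟩, h3⟩ := hz
    unfold sb
    split_ifs <;> omega
  · intro j z z' hz hz'
    constructor
    · intro h
      have h1 := sb_abs_aux j _ _ (sb_odd j z hz) (sb_odd j z' hz') h
      rwa [sb_sb, sb_sb] at h1
    · exact sb_abs_aux j z z' hz hz'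
  · intro j k z hjk hz
    obtain ⟨m, hm⟩ := hz
    by_cases h : z = 2 * j + 1 ∨ z = -(2 * j + 1) ∨ z = 2 * j - 1 ∨ z = -(2 * j - 1)
    · have h1 : sb k z = z := by
        apply sb_fix <;> omega
      have h2 : sb j z = 2 * j + 1 ∨ sb j z = -(2 * j + 1) ∨ sb j z = 2 * j - 1 ∨
          sb j z = -(2 * j - 1) := by
        unfold sb
        split_ifs <;> omega
      rw [h1]
      symm
      apply sb_fix <;> omega
    · have h1 : sb j z = z := by
        apply sb_fix <;> omega
      rw [h1]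
      have h2 : sb k z = z ∨ sb k z = 2 * k + 1 ∨ sb k z = -(2 * k + 1) ∨ sb k z = 2 * k - 1 ∨
          sb k z = -(2 * k - 1) := by
        unfold sb
        split_ifs <;> omega
      apply sb_fix <;> omega
  · intro j z hj hz
    have a1 : sb j (2 * j + 1) = 2 * j - 1 := by unfold sb; split_ifs <;> omega
    have a2 : sb j (2 * j - 1) = 2 * j + 1 := by unfold sb; split_ifs <;> omega
    have a3 : sb j (2 * j + 3) = 2 * j + 3 := by unfold sb; split_ifs <;> omega
    have b1 : sb (j + 1) (2 * j + 1) = 2 * j + 3 := by unfold sb; push_cast; split_ifs <;> omega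
    have b2 : sb (j + 1) (2 * j - 1) = 2 * j - 1 := by unfold sb; push_cast; split_ifs <;> omega
    have b3 : sb (j + 1) (2 * j + 3) = 2 * j + 1 := by unfold sb; push_cast; split_ifs <;> omega
    by_cases h1 : z = 2 * j + 1
    · rw [h1]; simp only [a1, a2, a3, b1, b2, b3]
    by_cases h2 : z = 2 * j - 1
    · rw [h2]; simp only [a1, a2, a3, b1, b2, b3]
    by_cases h3 : z = 2 * j + 3
    · rw [h3]; simp only [a1, a2, a3, b1, b2, b3]
    by_cases h4 : z = -(2 * j + 1)
    · rw [h4]; simp only [sb_neg, a1, a2, a3, b1, b2, b3]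
    by_cases h5 : z = -(2 * j - 1)
    · rw [h5]; simp only [sb_neg, a1, a2, a3, b1, b2, b3]
    by_cases h6 : z = -(2 * j + 3)
    · rw [h6]; simp only [sb_neg, a1, a2, a3, b1, b2, b3]
    have c1 : sb j z = z := by apply sb_fix <;> omega
    have c2 : sb (j + 1) z = z := by apply sb_fix <;> push_cast <;> omega
    simp only [c1, c2]
  · intro z hz
    by_cases h1 : z = 1
    · subst h1; decide
    by_cases h2 : z = -1
    · subst h2; decide
    by_cases h3 : z = 3
    · subst h3; decide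
    by_cases h4 : z = -3
    · subst h4; decide
    have c1 : sb 0 z = z := by apply sb_fix <;> push_cast <;> omega
    have c2 : sb 1 z = z := by apply sb_fix <;> push_cast <;> omega
    simp only [c1, c2]

end Run7.h523.KF
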