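import Pool.Agent.Run7.h523.KF.HEX

/-!
# Project KF (helper523), piece OCT (helper704)
-/

set_option autoImplicit false
set_option linter.all false

namespace Run7.h523.KF

open Finset

theorem t_OCT (hI : S_INV) (hP : S_PAT8) (hD : S_DIH8) : S_OCT := by
  classical
  intro P _ _ R M f t hjM ht
  have hj0 : 0 < M := by omega
  set X : Finset (P → ℤ) := Fintype.piFinset fun _ : P => Si M with hX
  have hOX : Om R M ⊆ X := by
    unfold Om
    exact filter_subset _ _
  have hmX : ∀ x, x ∈ X ↔ ∀ v, x v ∈ Si M := fun x => by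
    rw [hX, Fintype.mem_piFinset]
  have h := hD (P → ℤ) X (Om R M) (sx 0) (sx 1) f t ht hOX
    (fun x hx => (hmX _).2 fun v => hI.2.2.1 M 0 _ hj0 ((hmX x).1 hx v))
    (fun x hx => (hmX _).2 fun v => hI.2.2.1 M 1 _ hjM ((hmX x).1 hx v))
    (fun x _ => funext fun v => hI.1 0 (x v)) (fun x _ => funext fun v => hI.1 1 (x v))
    (fun x hx => funext fun v => by
      rw [hx_alt]
      exact hI.2.2.2.2.2.2 (x v) (hx_odd ((hmX x).1 hx v)))
    (fun x hx => hx_pat hI R hj0 hjM 8 (by norm_num)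
      (fun i₀ i => i = i₀ ∨ i = (i₀ + 1) % 8 ∨ i = (i₀ + 2) % 8 ∨ i = (i₀ + 3) % 8)
      (fun p q hp hq => hP p q hp hq) x ((hmX x).1 hx))
  have e : ∀ k x, D R M f k x = (if x ∈ Om R M ∧ sx k x ∈ Om R M then f x - f (sx k x) else 0) := by
    intro k x
    unfold D
    congr
  simp only [e]
  convert h using 6 <;> congr

end Run7.h523.KF
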