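import Pool.Agent.Run7.h523.KF.INV

/-!
# Pieces PAT6 and PAT8 of the project KF (helper523), by helper194
-/

set_option autoImplicit false

namespace Run7.h523.KF

theorem alt0 {α : Type} (a b : α → α) (z : α) : alt a b 0 z = z := rfl
theorem alt1 {α : Type} (a b : α → α) (z : α) : alt a b 1 z = a z := rfl
theorem alt2 {α : Type} (a b : α → α) (z : α) : alt a b 2 z = b (a z) := rfl
theorem alt3 {α : Type} (a b : α → α) (z : α) : alt a b 3 z = a (b (a z)) := rfl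
theorem alt4 {α : Type} (a b : α → α) (z : α) : alt a b 4 z = b (a (b (a z))) := rfl
theorem alt5 {α : Type} (a b : α → α) (z : α) : alt a b 5 z = a (b (a (b (a z)))) := rfl
theorem alt6 {α : Type} (a b : α → α) (z : α) : alt a b 6 z = b (a (b (a (b (a z))))) := rfl
theorem alt7 {α : Type} (a b : α → α) (z : α) : alt a b 7 z = a (b (a (b (a (b (a z)))))) := rfl

theorem six_cases (j : ℕ) (p : ℤ) (hj : 1 ≤ j) :
    (p = 2 * j - 1 ∧ alt (sb j) (sb (j + 1)) 1 p = 2 * j + 1 ∧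
      alt (sb j) (sb (j + 1)) 2 p = 2 * j + 3 ∧ alt (sb j) (sb (j + 1)) 3 p = 2 * j + 3 ∧
      alt (sb j) (sb (j + 1)) 4 p = 2 * j + 1 ∧ alt (sb j) (sb (j + 1)) 5 p = 2 * j - 1) ∨
    (p = 2 * j + 1 ∧ alt (sb j) (sb (j + 1)) 1 p = 2 * j - 1 ∧
      alt (sb j) (sb (j + 1)) 2 p = 2 * j - 1 ∧ alt (sb j) (sb (j + 1)) 3 p = 2 * j + 1 ∧
      alt (sb j) (sb (j + 1)) 4 p = 2 * j + 3 ∧ alt (sb j) (sb (j + 1)) 5 p = 2 * j + 3) ∨
    (p = 2 * j + 3 ∧ alt (sb j) (sb (j + 1)) 1 p = 2 * j + 3 ∧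
      alt (sb j) (sb (j + 1)) 2 p = 2 * j + 1 ∧ alt (sb j) (sb (j + 1)) 3 p = 2 * j - 1 ∧
      alt (sb j) (sb (j + 1)) 4 p = 2 * j - 1 ∧ alt (sb j) (sb (j + 1)) 5 p = 2 * j + 1) ∨
    (p = -(2 * j - 1) ∧ alt (sb j) (sb (j + 1)) 1 p = -(2 * j + 1) ∧
      alt (sb j) (sb (j + 1)) 2 p = -(2 * j + 3) ∧ alt (sb j) (sb (j + 1)) 3 p = -(2 * j + 3) ∧
      alt (sb j) (sb (j + 1)) 4 p = -(2 * j + 1) ∧ alt (sb j) (sb (j + 1)) 5 p = -(2 * j - 1)) ∨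
    (p = -(2 * j + 1) ∧ alt (sb j) (sb (j + 1)) 1 p = -(2 * j - 1) ∧
      alt (sb j) (sb (j + 1)) 2 p = -(2 * j - 1) ∧ alt (sb j) (sb (j + 1)) 3 p = -(2 * j + 1) ∧
      alt (sb j) (sb (j + 1)) 4 p = -(2 * j + 3) ∧ alt (sb j) (sb (j + 1)) 5 p = -(2 * j + 3)) ∨
    (p = -(2 * j + 3) ∧ alt (sb j) (sb (j + 1)) 1 p = -(2 * j + 3) ∧
      alt (sb j) (sb (j + 1)) 2 p = -(2 * j + 1) ∧ alt (sb j) (sb (j + 1)) 3 p = -(2 * j - 1) ∧
      alt (sb j) (sb (j + 1)) 4 p = -(2 * j - 1) ∧ alt (sb j) (sb (j + 1)) 5 p = -(2 * j + 1)) ∨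
    ((p ≠ 2 * j - 1 ∧ p ≠ 2 * j + 1 ∧ p ≠ 2 * j + 3 ∧ p ≠ -(2 * j - 1) ∧ p ≠ -(2 * j + 1) ∧
      p ≠ -(2 * j + 3)) ∧ alt (sb j) (sb (j + 1)) 1 p = p ∧
      alt (sb j) (sb (j + 1)) 2 p = p ∧ alt (sb j) (sb (j + 1)) 3 p = p ∧
      alt (sb j) (sb (j + 1)) 4 p = p ∧ alt (sb j) (sb (j + 1)) 5 p = p) := by
  have a1 : sb j (2 * j + 1) = 2 * j - 1 := by unfold sb; split_ifs <;> omega
  have a2 : sb j (2 * j - 1) = 2 * j + 1 := by unfold sb; split_ifs <;> omega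
  have a3 : sb j (2 * j + 3) = 2 * j + 3 := by unfold sb; split_ifs <;> omega
  have b1 : sb (j + 1) (2 * j + 1) = 2 * j + 3 := by unfold sb; push_cast; split_ifs <;> omega
  have b2 : sb (j + 1) (2 * j - 1) = 2 * j - 1 := by unfold sb; push_cast; split_ifs <;> omega
  have b3 : sb (j + 1) (2 * j + 3) = 2 * j + 1 := by unfold sb; push_cast; split_ifs <;> omega
  simp only [alt1, alt2, alt3, alt4, alt5]
  by_cases h2 : p = 2 * j - 1
  · left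
    rw [h2]; simp only [a1, a2, a3, b1, b2, b3, and_self]
  by_cases h1 : p = 2 * j + 1
  · right; left
    rw [h1]; simp only [a1, a2, a3, b1, b2, b3, and_self]
  by_cases h3 : p = 2 * j + 3
  · right; right; left
    rw [h3]; simp only [a1, a2, a3, b1, b2, b3, and_self]
  by_cases h5 : p = -(2 * j - 1)
  · right; right; right; left
    rw [h5]; simp only [sb_neg, a1, a2, a3, b1, b2, b3, and_self]
  by_cases h4 : p = -(2 * j + 1)
  · right; right; right; right; left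
    rw [h4]; simp only [sb_neg, a1, a2, a3, b1, b2, b3, and_self]
  by_cases h6 : p = -(2 * j + 3)
  · right; right; right; right; right; left
    rw [h6]; simp only [sb_neg, a1, a2, a3, b1, b2, b3, and_self]
  right; right; right; right; right; right
  have c1 : sb j p = p := by apply sb_fix <;> omega
  have c2 : sb (j + 1) p = p := by apply sb_fix <;> push_cast <;> omega
  rw [c1, c2, c1, c2, c1]
  exact ⟨⟨h2, h1, h3, h5, h4, h6⟩, rfl, rfl, rfl, rfl, rfl⟩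

/-- all six comparisons or three consecutive ones -/
theorem six_aux (u v : ℕ → ℤ)
    (h : (u 0 ≤ v 0 ∧ u 1 ≤ v 1 ∧ u 2 ≤ v 2 ∧ u 3 ≤ v 3 ∧ u 4 ≤ v 4 ∧ u 5 ≤ v 5) ∨
      (v 3 < u 3 ∧ v 4 < u 4 ∧ v 5 < u 5) ∨ (v 4 < u 4 ∧ v 5 < u 5 ∧ v 0 < u 0) ∨
      (v 5 < u 5 ∧ v 0 < u 0 ∧ v 1 < u 1) ∨ (v 0 < u 0 ∧ v 1 < u 1 ∧ v 2 < u 2) ∨
      (v 1 < u 1 ∧ v 2 < u 2 ∧ v 3 < u 3) ∨ (v 2 < u 2 ∧ v 3 < u 3 ∧ v 4 < u 4)) :
    (∀ i < 6, u i ≤ v i) ∨
    ∃ i₀ < 6, ∀ i < 6, u i ≤ v i → i = i₀ ∨ i = (i₀ + 1) % 6 ∨ i = (i₀ + 2) % 6 := by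
  rcases h with h | h | h | h | h | h | h
  · left
    intro i hi
    interval_cases i
    · exact h.1
    · exact h.2.1
    · exact h.2.2.1
    · exact h.2.2.2.1
    · exact h.2.2.2.2.1
    · exact h.2.2.2.2.2
  · right
    refine ⟨0, by norm_num, ?_⟩
    intro i hi hle
    interval_cases i <;> first | omega | (exfalso; omega)
  · right
    refine ⟨1, by norm_num, ?_⟩
    intro i hi hle
    interval_cases i <;> first | omega | (exfalso; omega)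
  · right
    refine ⟨2, by norm_num, ?_⟩
    intro i hi hle
    interval_cases i <;> first | omega | (exfalso; omega)
  · right
    refine ⟨3, by norm_num, ?_⟩
    intro i hi hle
    interval_cases i <;> first | omega | (exfalso; omega)
  · right
    refine ⟨4, by norm_num, ?_⟩
    intro i hi hle
    interval_cases i <;> first | omega | (exfalso; omega)
  · right
    refine ⟨5, by norm_num, ?_⟩
    intro i hi hle
    interval_cases i <;> first | omega | (exfalso; omega)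

theorem six_order (c p q u1 u2 u3 u4 u5 v1 v2 v3 v4 v5 : ℤ) (hc : 3 ≤ c) (hcp : c % 2 = 1)
    (hp : p % 2 = 1) (hq : q % 2 = 1)
    (hu : (p = c - 2 ∧ u1 = c ∧ u2 = c + 2 ∧ u3 = c + 2 ∧ u4 = c ∧ u5 = c - 2) ∨
      (p = c ∧ u1 = c - 2 ∧ u2 = c - 2 ∧ u3 = c ∧ u4 = c + 2 ∧ u5 = c + 2) ∨
      (p = c + 2 ∧ u1 = c + 2 ∧ u2 = c ∧ u3 = c - 2 ∧ u4 = c - 2 ∧ u5 = c) ∨
      (p = -(c - 2) ∧ u1 = -c ∧ u2 = -(c + 2) ∧ u3 = -(c + 2) ∧ u4 = -c ∧ u5 = -(c - 2)) ∨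
      (p = -c ∧ u1 = -(c - 2) ∧ u2 = -(c - 2) ∧ u3 = -c ∧ u4 = -(c + 2) ∧ u5 = -(c + 2)) ∨
      (p = -(c + 2) ∧ u1 = -(c + 2) ∧ u2 = -c ∧ u3 = -(c - 2) ∧ u4 = -(c - 2) ∧ u5 = -c) ∨
      ((p < -(c + 2) ∨ (-(c - 2) < p ∧ p < c - 2) ∨ c + 2 < p) ∧
        u1 = p ∧ u2 = p ∧ u3 = p ∧ u4 = p ∧ u5 = p))
    (hv : (q = c - 2 ∧ v1 = c ∧ v2 = c + 2 ∧ v3 = c + 2 ∧ v4 = c ∧ v5 = c - 2) ∨
      (q = c ∧ v1 = c - 2 ∧ v2 = c - 2 ∧ v3 = c ∧ v4 = c + 2 ∧ v5 = c + 2) ∨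
      (q = c + 2 ∧ v1 = c + 2 ∧ v2 = c ∧ v3 = c - 2 ∧ v4 = c - 2 ∧ v5 = c) ∨
      (q = -(c - 2) ∧ v1 = -c ∧ v2 = -(c + 2) ∧ v3 = -(c + 2) ∧ v4 = -c ∧ v5 = -(c - 2)) ∨
      (q = -c ∧ v1 = -(c - 2) ∧ v2 = -(c - 2) ∧ v3 = -c ∧ v4 = -(c + 2) ∧ v5 = -(c + 2)) ∨
      (q = -(c + 2) ∧ v1 = -(c + 2) ∧ v2 = -c ∧ v3 = -(c - 2) ∧ v4 = -(c - 2) ∧ v5 = -c) ∨
      ((q < -(c + 2) ∨ (-(c - 2) < q ∧ q < c - 2) ∨ c + 2 < q) ∧
        v1 = q ∧ v2 = q ∧ v3 = q ∧ v4 = q ∧ v5 = q)) :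
    (p ≤ q ∧ u1 ≤ v1 ∧ u2 ≤ v2 ∧ u3 ≤ v3 ∧ u4 ≤ v4 ∧ u5 ≤ v5) ∨
      (v3 < u3 ∧ v4 < u4 ∧ v5 < u5) ∨ (v4 < u4 ∧ v5 < u5 ∧ q < p) ∨
      (v5 < u5 ∧ q < p ∧ v1 < u1) ∨ (q < p ∧ v1 < u1 ∧ v2 < u2) ∨
      (v1 < u1 ∧ v2 < u2 ∧ v3 < u3) ∨ (v2 < u2 ∧ v3 < u3 ∧ v4 < u4) := by
  rcases hu with ⟨rfl, rfl, rfl, rfl, rfl, rfl⟩ | ⟨rfl, rfl, rfl, rfl, rfl, rfl⟩ |
      ⟨rfl, rfl, rfl, rfl, rfl, rfl⟩ | ⟨rfl, rfl, rfl, rfl, rfl, rfl⟩ |
      ⟨rfl, rfl, rfl, rfl, rfl, rfl⟩ | ⟨rfl, rfl, rfl, rfl, rfl, rfl⟩ |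
      ⟨hpc | ⟨hpc, hpc'⟩ | hpc, e1, e2, e3, e4, e5⟩ <;>
    rcases hv with ⟨rfl, rfl, rfl, rfl, rfl, rfl⟩ | ⟨rfl, rfl, rfl, rfl, rfl, rfl⟩ |
      ⟨rfl, rfl, rfl, rfl, rfl, rfl⟩ | ⟨rfl, rfl, rfl, rfl, rfl, rfl⟩ |
      ⟨rfl, rfl, rfl, rfl, rfl, rfl⟩ | ⟨rfl, rfl, rfl, rfl, rfl, rfl⟩ |
      ⟨hqc | ⟨hqc, hqc'⟩ | hqc, g1, g2, g3, g4, g5⟩ <;>
    first
    | (left; refine ⟨?_, ?_, ?_, ?_, ?_, ?_⟩ <;> omega)
    | (right; left; refine ⟨?_, ?_, ?_⟩ <;> omega)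
    | (right; right; left; refine ⟨?_, ?_, ?_⟩ <;> omega)
    | (right; right; right; left; refine ⟨?_, ?_, ?_⟩ <;> omega)
    | (right; right; right; right; left; refine ⟨?_, ?_, ?_⟩ <;> omega)
    | (right; right; right; right; right; left; refine ⟨?_, ?_, ?_⟩ <;> omega)
    | (right; right; right; right; right; right; refine ⟨?_, ?_, ?_⟩ <;> omega)
    | (rcases le_or_gt p q with h | h
       · left; refine ⟨?_, ?_, ?_, ?_, ?_, ?_⟩ <;> omega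
       · right; left; refine ⟨?_, ?_, ?_⟩ <;> omega)

theorem t_PAT6 : S_PAT6 := by
  intro j p q hj hp hq
  obtain ⟨m, hm⟩ := hp
  obtain ⟨n, hn⟩ := hq
  apply six_aux (fun i => alt (sb j) (sb (j + 1)) i p) (fun i => alt (sb j) (sb (j + 1)) i q)
  have hu := six_cases j p hj
  have hv := six_cases j q hj
  simp only [alt0]
  apply six_order (2 * j + 1) p q _ _ _ _ _ _ _ _ _ _ (by omega) (by omega) (by omega) (by omega)
  · rcases hu with hu | hu | hu | hu | hu | hu | hu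
    · left
      exact ⟨by omega, by omega, by omega, by omega, by omega, by omega⟩
    · right; left
      exact ⟨by omega, by omega, by omega, by omega, by omega, by omega⟩
    · right; right; left
      exact ⟨by omega, by omega, by omega, by omega, by omega, by omega⟩
    · right; right; right; left
      exact ⟨by omega, by omega, by omega, by omega, by omega, by omega⟩
    · right; right; right; right; left
      exact ⟨by omega, by omega, by omega, by omega, by omega, by omega⟩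
    · right; right; right; right; right; left
      exact ⟨by omega, by omega, by omega, by omega, by omega, by omega⟩
    · right; right; right; right; right; right
      refine ⟨?_, hu.2⟩
      have := hu.1
      omega
  · rcases hv with hu | hu | hu | hu | hu | hu | hu
    · left
      exact ⟨by omega, by omega, by omega, by omega, by omega, by omega⟩
    · right; left
      exact ⟨by omega, by omega, by omega, by omega, by omega, by omega⟩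
    · right; right; left
      exact ⟨by omega, by omega, by omega, by omega, by omega, by omega⟩
    · right; right; right; left
      exact ⟨by omega, by omega, by omega, by omega, by omega, by omega⟩
    · right; right; right; right; left
      exact ⟨by omega, by omega, by omega, by omega, by omega, by omega⟩
    · right; right; right; right; right; left
      exact ⟨by omega, by omega, by omega, by omega, by omega, by omega⟩
    · right; right; right; right; right; right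
      refine ⟨?_, hu.2⟩
      have := hu.1
      omega

end Run7.h523.KF
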