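import Pool.Agent.Run7.h523.KF.PAT6

/-!
# Piece PAT8 of the project KF (helper523), by helper194
-/

set_option autoImplicit false

namespace Run7.h523.KF

theorem eight_cases (p : ℤ) (hp : p % 2 = 1) :
      (p = 1 ∧ alt (sb 0) (sb 1) 1 p = (-1) ∧ alt (sb 0) (sb 1) 2 p = (-3) ∧ alt (sb 0) (sb 1) 3 p = (-3) ∧ alt (sb 0) (sb 1) 4 p = (-1) ∧ alt (sb 0) (sb 1) 5 p = 1 ∧ alt (sb 0) (sb 1) 6 p = 3 ∧ alt (sb 0) (sb 1) 7 p = 3) ∨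
      (p = (-1) ∧ alt (sb 0) (sb 1) 1 p = 1 ∧ alt (sb 0) (sb 1) 2 p = 3 ∧ alt (sb 0) (sb 1) 3 p = 3 ∧ alt (sb 0) (sb 1) 4 p = 1 ∧ alt (sb 0) (sb 1) 5 p = (-1) ∧ alt (sb 0) (sb 1) 6 p = (-3) ∧ alt (sb 0) (sb 1) 7 p = (-3)) ∨
      (p = 3 ∧ alt (sb 0) (sb 1) 1 p = 3 ∧ alt (sb 0) (sb 1) 2 p = 1 ∧ alt (sb 0) (sb 1) 3 p = (-1) ∧ alt (sb 0) (sb 1) 4 p = (-3) ∧ alt (sb 0) (sb 1) 5 p = (-3) ∧ alt (sb 0) (sb 1) 6 p = (-1) ∧ alt (sb 0) (sb 1) 7 p = 1) ∨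
      (p = (-3) ∧ alt (sb 0) (sb 1) 1 p = (-3) ∧ alt (sb 0) (sb 1) 2 p = (-1) ∧ alt (sb 0) (sb 1) 3 p = 1 ∧ alt (sb 0) (sb 1) 4 p = 3 ∧ alt (sb 0) (sb 1) 5 p = 3 ∧ alt (sb 0) (sb 1) 6 p = 1 ∧ alt (sb 0) (sb 1) 7 p = (-1)) ∨
      ((p < -3 ∨ 3 < p) ∧ alt (sb 0) (sb 1) 1 p = p ∧ alt (sb 0) (sb 1) 2 p = p ∧ alt (sb 0) (sb 1) 3 p = p ∧ alt (sb 0) (sb 1) 4 p = p ∧ alt (sb 0) (sb 1) 5 p = p ∧ alt (sb 0) (sb 1) 6 p = p ∧ alt (sb 0) (sb 1) 7 p = p) := by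
  simp only [alt1, alt2, alt3, alt4, alt5, alt6, alt7]
  by_cases h1 : p = 1
  · left
    subst h1; decide
  by_cases h2 : p = -1
  · right; left
    subst h2; decide
  by_cases h3 : p = 3
  · right; right; left
    subst h3; decide
  by_cases h4 : p = -3
  · right; right; right; left
    subst h4; decide
  right; right; right; right
  have c1 : sb 0 p = p := by apply sb_fix <;> push_cast <;> omega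
  have c2 : sb 1 p = p := by apply sb_fix <;> push_cast <;> omega
  rw [c1, c2, c1, c2, c1, c2, c1]
  exact ⟨by omega, rfl, rfl, rfl, rfl, rfl, rfl, rfl⟩

theorem eight_order (p q u1 u2 u3 u4 u5 u6 u7 v1 v2 v3 v4 v5 v6 v7 : ℤ)
    (hu : (p = 1 ∧ u1 = (-1) ∧ u2 = (-3) ∧ u3 = (-3) ∧ u4 = (-1) ∧ u5 = 1 ∧ u6 = 3 ∧ u7 = 3) ∨
      (p = (-1) ∧ u1 = 1 ∧ u2 = 3 ∧ u3 = 3 ∧ u4 = 1 ∧ u5 = (-1) ∧ u6 = (-3) ∧ u7 = (-3)) ∨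
      (p = 3 ∧ u1 = 3 ∧ u2 = 1 ∧ u3 = (-1) ∧ u4 = (-3) ∧ u5 = (-3) ∧ u6 = (-1) ∧ u7 = 1) ∨
      (p = (-3) ∧ u1 = (-3) ∧ u2 = (-1) ∧ u3 = 1 ∧ u4 = 3 ∧ u5 = 3 ∧ u6 = 1 ∧ u7 = (-1)) ∨
      ((p < -3 ∨ 3 < p) ∧ u1 = p ∧ u2 = p ∧ u3 = p ∧ u4 = p ∧ u5 = p ∧ u6 = p ∧ u7 = p))
    (hv : (q = 1 ∧ v1 = (-1) ∧ v2 = (-3) ∧ v3 = (-3) ∧ v4 = (-1) ∧ v5 = 1 ∧ v6 = 3 ∧ v7 = 3) ∨
      (q = (-1) ∧ v1 = 1 ∧ v2 = 3 ∧ v3 = 3 ∧ v4 = 1 ∧ v5 = (-1) ∧ v6 = (-3) ∧ v7 = (-3)) ∨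
      (q = 3 ∧ v1 = 3 ∧ v2 = 1 ∧ v3 = (-1) ∧ v4 = (-3) ∧ v5 = (-3) ∧ v6 = (-1) ∧ v7 = 1) ∨
      (q = (-3) ∧ v1 = (-3) ∧ v2 = (-1) ∧ v3 = 1 ∧ v4 = 3 ∧ v5 = 3 ∧ v6 = 1 ∧ v7 = (-1)) ∨
      ((q < -3 ∨ 3 < q) ∧ v1 = q ∧ v2 = q ∧ v3 = q ∧ v4 = q ∧ v5 = q ∧ v6 = q ∧ v7 = q)) :
      (p ≤ q ∧ u1 ≤ v1 ∧ u2 ≤ v2 ∧ u3 ≤ v3 ∧ u4 ≤ v4 ∧ u5 ≤ v5 ∧ u6 ≤ v6 ∧ u7 ≤ v7) ∨
      (v4 < u4 ∧ v5 < u5 ∧ v6 < u6 ∧ v7 < u7) ∨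
      (v5 < u5 ∧ v6 < u6 ∧ v7 < u7 ∧ q < p) ∨
      (v6 < u6 ∧ v7 < u7 ∧ q < p ∧ v1 < u1) ∨
      (v7 < u7 ∧ q < p ∧ v1 < u1 ∧ v2 < u2) ∨
      (q < p ∧ v1 < u1 ∧ v2 < u2 ∧ v3 < u3) ∨
      (v1 < u1 ∧ v2 < u2 ∧ v3 < u3 ∧ v4 < u4) ∨
      (v2 < u2 ∧ v3 < u3 ∧ v4 < u4 ∧ v5 < u5) ∨
      (v3 < u3 ∧ v4 < u4 ∧ v5 < u5 ∧ v6 < u6) := by
  rcases hu with ⟨rfl, rfl, rfl, rfl, rfl, rfl, rfl, rfl⟩ | ⟨rfl, rfl, rfl, rfl, rfl, rfl, rfl, rfl⟩ | ⟨rfl, rfl, rfl, rfl, rfl, rfl, rfl, rfl⟩ | ⟨rfl, rfl, rfl, rfl, rfl, rfl, rfl, rfl⟩ |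
      ⟨hpc | hpc, d1, d2, d3, d4, d5, d6, d7⟩ <;>
    rcases hv with ⟨rfl, rfl, rfl, rfl, rfl, rfl, rfl, rfl⟩ | ⟨rfl, rfl, rfl, rfl, rfl, rfl, rfl, rfl⟩ | ⟨rfl, rfl, rfl, rfl, rfl, rfl, rfl, rfl⟩ | ⟨rfl, rfl, rfl, rfl, rfl, rfl, rfl, rfl⟩ |
      ⟨hqc | hqc, g1, g2, g3, g4, g5, g6, g7⟩ <;>
    first
    | (left; refine ⟨?_, ?_, ?_, ?_, ?_, ?_, ?_, ?_⟩ <;> omega)
    | (right; left; refine ⟨?_, ?_, ?_, ?_⟩ <;> omega)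
    | (right; right; left; refine ⟨?_, ?_, ?_, ?_⟩ <;> omega)
    | (right; right; right; left; refine ⟨?_, ?_, ?_, ?_⟩ <;> omega)
    | (right; right; right; right; left; refine ⟨?_, ?_, ?_, ?_⟩ <;> omega)
    | (right; right; right; right; right; left; refine ⟨?_, ?_, ?_, ?_⟩ <;> omega)
    | (right; right; right; right; right; right; left; refine ⟨?_, ?_, ?_, ?_⟩ <;> omega)
    | (right; right; right; right; right; right; right; left; refine ⟨?_, ?_, ?_, ?_⟩ <;> omega)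
    | (right; right; right; right; right; right; right; right; refine ⟨?_, ?_, ?_, ?_⟩ <;> omega)
    | (rcases le_or_gt p q with h | h
       · left; refine ⟨?_, ?_, ?_, ?_, ?_, ?_, ?_, ?_⟩ <;> omega
       · right; left; refine ⟨?_, ?_, ?_, ?_⟩ <;> omega)

theorem eight_aux (u v : ℕ → ℤ)
    (h : (u 0 ≤ v 0 ∧ u 1 ≤ v 1 ∧ u 2 ≤ v 2 ∧ u 3 ≤ v 3 ∧ u 4 ≤ v 4 ∧ u 5 ≤ v 5 ∧ u 6 ≤ v 6 ∧ u 7 ≤ v 7) ∨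
      (v 4 < u 4 ∧ v 5 < u 5 ∧ v 6 < u 6 ∧ v 7 < u 7) ∨
      (v 5 < u 5 ∧ v 6 < u 6 ∧ v 7 < u 7 ∧ v 0 < u 0) ∨
      (v 6 < u 6 ∧ v 7 < u 7 ∧ v 0 < u 0 ∧ v 1 < u 1) ∨
      (v 7 < u 7 ∧ v 0 < u 0 ∧ v 1 < u 1 ∧ v 2 < u 2) ∨
      (v 0 < u 0 ∧ v 1 < u 1 ∧ v 2 < u 2 ∧ v 3 < u 3) ∨
      (v 1 < u 1 ∧ v 2 < u 2 ∧ v 3 < u 3 ∧ v 4 < u 4) ∨
      (v 2 < u 2 ∧ v 3 < u 3 ∧ v 4 < u 4 ∧ v 5 < u 5) ∨
      (v 3 < u 3 ∧ v 4 < u 4 ∧ v 5 < u 5 ∧ v 6 < u 6)) :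
    (∀ i < 8, u i ≤ v i) ∨
    ∃ i₀ < 8, ∀ i < 8, u i ≤ v i →
      i = i₀ ∨ i = (i₀ + 1) % 8 ∨ i = (i₀ + 2) % 8 ∨ i = (i₀ + 3) % 8 := by
  rcases h with ⟨h0, h1, h2, h3, h4, h5, h6, h7⟩ | h | h | h | h | h | h | h | h
  · left
    intro i hi
    interval_cases i
    · exact h0
    · exact h1
    · exact h2
    · exact h3
    · exact h4
    · exact h5
    · exact h6
    · exact h7
  · right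
    refine ⟨0, by norm_num, ?_⟩
    intro i hi hle
    interval_cases i <;> first | omega | (exfalso; omega)
  · right
    refine ⟨1, by norm_num, ?_⟩
    intro i hi hle
    interval_cases i <;> first | omega | (exfalso; omega)
  · right
    refine ⟨2, by norm_num, ?_⟩
    intro i hi hle
    interval_cases i <;> first | omega | (exfalso; omega)
  · right
    refine ⟨3, by norm_num, ?_⟩
    intro i hi hle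
    interval_cases i <;> first | omega | (exfalso; omega)
  · right
    refine ⟨4, by norm_num, ?_⟩
    intro i hi hle
    interval_cases i <;> first | omega | (exfalso; omega)
  · right
    refine ⟨5, by norm_num, ?_⟩
    intro i hi hle
    interval_cases i <;> first | omega | (exfalso; omega)
  · right
    refine ⟨6, by norm_num, ?_⟩
    intro i hi hle
    interval_cases i <;> first | omega | (exfalso; omega)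
  · right
    refine ⟨7, by norm_num, ?_⟩
    intro i hi hle
    interval_cases i <;> first | omega | (exfalso; omega)

theorem t_PAT8 : S_PAT8 := by
  intro p q hp hq
  obtain ⟨m, hm⟩ := hp
  obtain ⟨n, hn⟩ := hq
  apply eight_aux (fun i => alt (sb 0) (sb 1) i p) (fun i => alt (sb 0) (sb 1) i q)
  have hu := eight_cases p (by omega)
  have hv := eight_cases q (by omega)
  simp only [alt0]
  exact eight_order p q _ _ _ _ _ _ _ _ _ _ _ _ _ _ hu hv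

end Run7.h523.KF
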