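import Pool.Agent.Run7.h523.KF.CEL2

set_option autoImplicit false

/-!
# Piece CEL3: Riemann sums
-/

namespace Run7.h523.KF

namespace Cel

open MeasureTheory Set Filter Topology

section
variable {P : Type} [Fintype P] [DecidableEq P]

omit [Fintype P] [DecidableEq P] in
theorem sv_absR (y : P → ℝ) (a : P × Bool) : |sv y a| = |y a.1| := by
  unfold sv
  split_ifs
  · rfl
  · rw [abs_neg]

theorem mem_cell {R : P × Bool → P × Bool → Prop} {M : ℕ} (hM : 1 ≤ M) {y : P → ℝ}
    (hy : y ∈ KK R) (h0 : ∀ v, y v ≠ 0) (h1 : ∀ v, y v ≠ 1)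
    (h2 : ∀ v w, v ≠ w → 1 / (M : ℝ) < |(|y v| - |y w|)|) :
    (fun v => 2 * ⌊(M : ℝ) * y v⌋ + 1) ∈ Om R M ∧
      y ∈ Cl M (fun v => 2 * ⌊(M : ℝ) * y v⌋ + 1) (fun _ => 0) := by
  have hM0 : (0 : ℝ) < M := by positivity
  set x : P → ℤ := fun v => 2 * ⌊(M : ℝ) * y v⌋ + 1 with hx
  have hfl : ∀ v, (⌊(M : ℝ) * y v⌋ : ℝ) ≤ M * y v ∧ (M : ℝ) * y v < ⌊(M : ℝ) * y v⌋ + 1 :=
    fun v => ⟨Int.floor_le _, Int.lt_floor_add_one _⟩
  have e1 : ∀ v, ((x v : ℝ) - 1) / (2 * M) = ⌊(M : ℝ) * y v⌋ / M := by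
    intro v
    simp only [hx]
    push_cast
    field_simp
    ring
  have e2 : ∀ v, ((x v : ℝ) + 1) / (2 * M) = (⌊(M : ℝ) * y v⌋ + 1) / M := by
    intro v
    simp only [hx]
    push_cast
    field_simp
    ring
  have hb : ∀ w, ((x w : ℝ) - 1) / (2 * M) ≤ y w ∧ y w ≤ ((x w : ℝ) + 1) / (2 * M) := by
    intro w
    rw [e1, e2, div_le_iff₀ hM0, le_div_iff₀ hM0]
    obtain ⟨c1, c2⟩ := hfl w
    constructor <;> linarith
  have hodd : ∀ v, Odd (x v) := fun v => ⟨⌊(M : ℝ) * y v⌋, rfl⟩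
  refine ⟨?_, ?_⟩
  · rw [mem_Om]
    refine ⟨fun v => ⟨?_, ?_, hodd v⟩, fun v w hvw => ?_, fun a b hab => ?_⟩
    · have h3 : -(M : ℤ) ≤ ⌊(M : ℝ) * y v⌋ := by
        rw [Int.le_floor]
        push_cast
        nlinarith [(hy.1 v).1]
      simp only [hx]; omega
    · have h3 : ⌊(M : ℝ) * y v⌋ < (M : ℤ) := by
        rw [Int.floor_lt]
        have h4 : y v < 1 := lt_of_le_of_ne (hy.1 v).2 (h1 v)
        push_cast
        nlinarith
      simp only [hx]; omega
    · by_contra hne
      have h3 := h2 v w hne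
      obtain ⟨a1, a2⟩ := hfl v
      obtain ⟨b1, b2⟩ := hfl w
      have h5 : |(|y v| - |y w|)| ≤ 1 / (M : ℝ) := by
        rcases abs_eq_abs.1 hvw with h4 | h4
        · have h6 : ⌊(M : ℝ) * y v⌋ = ⌊(M : ℝ) * y w⌋ := by
            simp only [hx] at h4; omega
          rw [h6] at a1 a2
          refine (abs_abs_sub_abs_le_abs_sub _ _).trans ?_
          rw [abs_le, neg_le, le_div_iff₀ hM0, le_div_iff₀ hM0]
          constructor <;> linarith
        · have h6 : ⌊(M : ℝ) * y v⌋ = -⌊(M : ℝ) * y w⌋ - 1 := by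
            simp only [hx] at h4; omega
          have h6' : (⌊(M : ℝ) * y v⌋ : ℝ) = -(⌊(M : ℝ) * y w⌋ : ℝ) - 1 := by
            rw [h6]; push_cast; ring
          rw [h6'] at a1 a2
          have h7 := abs_abs_sub_abs_le_abs_sub (y v) (-y w)
          rw [abs_neg] at h7
          refine h7.trans ?_
          rw [abs_le, neg_le, le_div_iff₀ hM0, le_div_iff₀ hM0]
          constructor <;> linarith
      linarith
    · by_contra hcon
      push Not at hcon
      obtain ⟨k, hk⟩ := sv_odd hodd a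
      obtain ⟨l, hl⟩ := sv_odd hodd b
      have h4 : sv x b + 1 ≤ sv x a - 1 := by omega
      have h5 : ((sv x b : ℤ) : ℝ) + 1 ≤ ((sv x a : ℤ) : ℝ) - 1 := by exact_mod_cast h4
      have h6 : (((sv x b : ℤ) : ℝ) + 1) / (2 * M) ≤ (((sv x a : ℤ) : ℝ) - 1) / (2 * M) := by
        gcongr
      obtain ⟨c1, -⟩ := sv_pos_bounds hM x hb a
      obtain ⟨-, d2⟩ := sv_pos_bounds hM x hb b
      have h7 := hy.2 a b hab
      have h8 : sv y a = sv y b := le_antisymm h7 (d2.trans (h6.trans c1))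
      have h9 : a.1 = b.1 := by
        by_contra hne
        have h10 := h2 _ _ hne
        rw [← sv_absR, ← sv_absR y b, h8, sub_self, abs_zero] at h10
        have : (0 : ℝ) < 1 / M := by positivity
        linarith
      obtain ⟨v, s⟩ := a
      obtain ⟨w, t⟩ := b
      simp only at h9
      subst h9
      have h11 := h0 v
      cases s <;> cases t
      · exact lt_irrefl _ hcon
      · simp only [sv, Bool.false_eq_true, if_false, if_true] at h8
        apply h11; linarith
      · simp only [sv, Bool.false_eq_true, if_false, if_true] at h8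
        apply h11; linarith
      · exact lt_irrefl _ hcon
  · intro w
    rw [e1, add_zero, ← add_div, div_le_iff₀ hM0, lt_div_iff₀ hM0]
    obtain ⟨c1, c2⟩ := hfl w
    constructor <;> linarith

omit [DecidableEq P] in
theorem ae_ne_val (c : ℝ) : ∀ᵐ y : P → ℝ ∂volume, ∀ v, y v ≠ c := by
  rw [ae_all_iff]
  intro v
  rw [volume_pi]
  exact Measure.ae_eval_ne (μ := fun _ : P => (volume : Measure ℝ)) v c

theorem ae_ne_lin (c : ℝ) : ∀ᵐ y : P → ℝ ∂volume, ∀ v w, v ≠ w → y v ≠ c * y w := by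
  rw [ae_all_iff]
  intro v
  rw [ae_all_iff]
  intro w
  by_cases hvw : v = w
  · exact Eventually.of_forall fun y h => absurd hvw h
  · set L : (P → ℝ) →ₗ[ℝ] ℝ := LinearMap.proj v - c • LinearMap.proj w with hL
    have h1 : LinearMap.ker L ≠ ⊤ := by
      intro h
      have h2 : (Pi.single v (1 : ℝ) : P → ℝ) ∈ LinearMap.ker L := by rw [h]; trivial
      rw [LinearMap.mem_ker] at h2
      simp [hL, Pi.single_apply, Ne.symm hvw] at h2
    have h3 := Measure.addHaar_submodule (volume : Measure (P → ℝ)) _ h1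
    have h4 : ∀ᵐ y : P → ℝ ∂volume, y ∉ (LinearMap.ker L : Set (P → ℝ)) :=
      measure_eq_zero_iff_ae_notMem.1 h3
    filter_upwards [h4] with y hy _ he
    apply hy
    show y ∈ LinearMap.ker L
    rw [LinearMap.mem_ker]
    simp [hL, he]

/-- the union of the cells of the states -/
def UU (R : P × Bool → P × Bool → Prop) (M : ℕ) : Set (P → ℝ) :=
  ⋃ x ∈ Om R M, Cl M x (fun _ => 0)

theorem meas_UU (R : P × Bool → P × Bool → Prop) (M : ℕ) : MeasurableSet (UU R M) :=
  Finset.measurableSet_biUnion _ fun x _ => meas_Cl M x _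

theorem Cl0_sub {R : P × Bool → P × Bool → Prop} {M : ℕ} (hM : 1 ≤ M) {x : P → ℤ}
    (hx : x ∈ Om R M) : Cl M x (fun _ => 0) ⊆ KK R := by
  have hM0 : (0 : ℝ) < M := by positivity
  intro y hy
  refine cell_mem_KK hM hx fun w => ?_
  obtain ⟨h1, h2⟩ := hy w
  rw [add_zero] at h1 h2
  refine ⟨h1, ?_⟩
  have : ((x w : ℝ) + 1) / (2 * M) = ((x w : ℝ) - 1) / (2 * M) + 1 / M := by
    field_simp; ring
  rw [this]
  exact h2.le

theorem sum_eq {R : P × Bool → P × Bool → Prop} {G : (P → ℝ) → ℝ} (hG : Continuous G) {M : ℕ}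
    (hM : 1 ≤ M) :
    ∑ x ∈ Om R M, ∫ t in Qb P M, G (pos M x t) = ∫ y in KK R, (UU R M).indicator G y := by
  have h1 : ∀ x, ∫ t in Qb P M, G (pos M x t) = ∫ y in Cl M x (fun _ => 0), G y := by
    intro x
    rw [← int_shift]
    simp only [add_zero]
  simp only [h1]
  have hodd : ∀ x ∈ Om R M, ∀ w, Odd (x w) := fun x hx w => ((mem_Om.1 hx).1 w).2.2
  rw [← integral_biUnion_finset (Om R M) (fun x _ => meas_Cl M x _)
    (fun x hx x' hx' hne => disj_Cl hM (hodd x hx) (hodd x' hx') hne _)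
    (fun x hx => (int_KK R hG).mono_set (Cl0_sub hM hx))]
  rw [setIntegral_indicator (meas_UU R M)]
  congr 2
  symm
  exact Set.inter_eq_right.2 (Set.iUnion₂_subset fun x hx => Cl0_sub hM hx)

end

end Cel

open Cel MeasureTheory Set Filter Topology in
theorem t_CEL3 : S_CEL3 := by
  intro P _ _ R G hG
  have h1 : (fun M : ℕ => ∫ y in KK R, (UU R M).indicator G y) =ᶠ[atTop]
      fun M : ℕ => ∑ x ∈ Om R M, ∫ t in Qb P M, G (pos M x t) := by
    filter_upwards [eventually_ge_atTop 1] with M hM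
    exact (sum_eq hG hM).symm
  refine Tendsto.congr' h1 ?_
  refine tendsto_integral_of_dominated_convergence (fun y => ‖G y‖) ?_ ?_ ?_ ?_
  · intro M
    exact (hG.measurable.indicator (meas_UU R M)).aestronglyMeasurable
  · exact (int_KK R hG).norm
  · intro M
    exact Eventually.of_forall fun y => norm_indicator_le_norm_self _ _
  · have h2 : ∀ᵐ y : P → ℝ ∂(volume.restrict (KK R)), y ∈ KK R :=
      ae_restrict_mem (closed_KK R).measurableSet
    filter_upwards [h2, ae_restrict_of_ae (ae_ne_val 0), ae_restrict_of_ae (ae_ne_val 1),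
      ae_restrict_of_ae (ae_ne_lin 1), ae_restrict_of_ae (ae_ne_lin (-1))] with y hy h0 h1 h3 h4
    have h5 : ∀ v w, v ≠ w → 0 < |(|y v| - |y w|)| := by
      intro v w hvw
      rw [abs_pos, sub_ne_zero]
      intro he
      rcases abs_eq_abs.1 he with h | h
      · exact h3 v w hvw (by rw [one_mul]; exact h)
      · exact h4 v w hvw (by rw [h]; ring)
    have h6 : ∀ᶠ M : ℕ in atTop, ∀ v w, v ≠ w → 1 / (M : ℝ) < |(|y v| - |y w|)| := by
      rw [eventually_all]
      intro v
      rw [eventually_all]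
      intro w
      by_cases hvw : v = w
      · exact Eventually.of_forall fun M h => absurd hvw h
      · have h7 := (tendsto_one_div_atTop_nhds_zero_nat (𝕜 := ℝ)).eventually_lt_const
          (h5 v w hvw)
        filter_upwards [h7] with M hM _
        exact hM
    refine tendsto_const_nhds.congr' ?_
    filter_upwards [h6, eventually_ge_atTop 1] with M hM6 hM1
    have h8 := mem_cell hM1 hy h0 h1 hM6
    rw [Set.indicator_of_mem]
    exact Set.mem_iUnion₂.2 ⟨_, h8.1, h8.2⟩

end Run7.h523.KF
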