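import Pool.Agent.Run7.h523.KF.Iface

set_option autoImplicit false

namespace Run7.h523.KF

open MeasureTheory Set Filter Topology
open scoped ENNReal

theorem sx_invol (hINV : S_INV) {P : Type} (j : ℕ) (x : P → ℤ) : sx j (sx j x) = x := by
  funext v
  exact hINV.1 j (x v)

theorem t_DISC : S_INV → S_COM → S_HEX → S_OCT → S_ASM → S_CON → S_DUA → S_DISC := by
  intro hINV hCOM hHEX hOCT hASM hCON hDUA P _ _ R M c h γ hγ hS hne f
  have h1 := hDUA (P → ℤ) (Om R M) M sx c γ hne hγ (fun j x => sx_invol hINV j x) hS.cpos
    ?_ ?_ f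
  · simpa [D] using h1
  · intro f
    have h2 := hASM M c h γ (fun j k => ∑ x ∈ Om R M, D R M f j x * D R M f k x) hS
      (fun j k => Finset.sum_congr rfl fun x _ => mul_comm _ _)
      (fun j => Finset.sum_nonneg fun x _ => mul_self_nonneg _)
      (fun j k hjk hk => hCOM P R M f j k hjk hk)
      (fun j t hj hj1 ht => by
        have := hHEX P R M f j t hj hj1 ht
        simpa only [sq] using this)
      (fun t hM ht => by
        have := hOCT P R M f t hM ht
        simpa only [sq] using this)
    have e1 : ∀ j, ∑ x ∈ Om R M, D R M f j x * D R M f j x =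
        ∑ x ∈ Om R M, D R M f j x ^ 2 := by
      intro j
      refine Finset.sum_congr rfl fun x _ => ?_
      rw [← sq]
    have e2 : ∑ j ∈ Finset.range M, ∑ k ∈ Finset.range M,
        c j * c k * ∑ x ∈ Om R M, D R M f j x * D R M f k x =
        ∑ x ∈ Om R M, (∑ j ∈ Finset.range M, c j * D R M f j x) ^ 2 := by
      have e3 : ∀ x, (∑ j ∈ Finset.range M, c j * D R M f j x) ^ 2 =
          ∑ j ∈ Finset.range M, ∑ k ∈ Finset.range M,
            c j * c k * (D R M f j x * D R M f k x) := by
        intro x
        rw [sq, Finset.sum_mul_sum]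
        refine Finset.sum_congr rfl fun j _ => Finset.sum_congr rfl fun k _ => ?_
        ring
      have e4 : ∑ x ∈ Om R M, (∑ j ∈ Finset.range M, c j * D R M f j x) ^ 2 =
          ∑ x ∈ Om R M, ∑ j ∈ Finset.range M, ∑ k ∈ Finset.range M,
            c j * c k * (D R M f j x * D R M f k x) := Finset.sum_congr rfl fun x _ => e3 x
      rw [e4]
      refine Eq.trans ?_ Finset.sum_comm
      refine Finset.sum_congr rfl fun j _ => ?_
      refine Eq.trans ?_ Finset.sum_comm
      exact Finset.sum_congr rfl fun k _ => Finset.mul_sum _ _ _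
    rw [e2] at h2
    simp only [e1] at h2
    simpa [D] using h2
  · intro f hf x hx y hy
    exact hCON P R M f (fun j hj x hx => by simpa [D] using hf j hj x hx) x hx y hy

end Run7.h523.KF
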