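import Pool.Agent.Run7.h523.KF.Iface

/-!
# Project KF (helper523), piece ENE (helper704)
-/

set_option autoImplicit false
set_option linter.all false

namespace Run7.h523.KF

open MeasureTheory Set Filter Topology

lemma en_cs (φ : ℝ → ℝ) (hφ : Continuous φ) (a : ℝ) (ha : 0 < a) :
    (∫ s in (0 : ℝ)..a, φ s) ^ 2 ≤ a * ∫ s in (0 : ℝ)..a, φ s ^ 2 := by
  set I : ℝ := ∫ s in (0 : ℝ)..a, φ s with hI
  have h1 : 0 ≤ ∫ s in (0 : ℝ)..a, (a * φ s - I) ^ 2 :=
    intervalIntegral.integral_nonneg ha.le fun s _ => sq_nonneg _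
  have i1 : IntervalIntegrable (fun s => a ^ 2 * φ s ^ 2) volume 0 a :=
    (continuous_const.mul (hφ.pow 2)).intervalIntegrable _ _
  have i2 : IntervalIntegrable (fun s => 2 * a * I * φ s) volume 0 a :=
    (continuous_const.mul hφ).intervalIntegrable _ _
  have i3 : IntervalIntegrable (fun _ : ℝ => I ^ 2) volume 0 a :=
    continuous_const.intervalIntegrable _ _
  have e1 : (fun s => (a * φ s - I) ^ 2) = fun s => a ^ 2 * φ s ^ 2 - 2 * a * I * φ s + I ^ 2 := by
    funext s
    ring
  rw [e1, intervalIntegral.integral_add (i1.sub i2) i3, intervalIntegral.integral_sub i1 i2,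
    intervalIntegral.integral_const_mul, intervalIntegral.integral_const_mul,
    intervalIntegral.integral_const, sub_zero, smul_eq_mul, ← hI] at h1
  have h2 : 0 ≤ a * (a * (∫ s in (0 : ℝ)..a, φ s ^ 2) - I ^ 2) := by
    have : a ^ 2 * (∫ s in (0 : ℝ)..a, φ s ^ 2) - 2 * a * I * I + a * I ^ 2 =
      a * (a * (∫ s in (0 : ℝ)..a, φ s ^ 2) - I ^ 2) := by ring
    linarith
  have h3 := nonneg_of_mul_nonneg_right h2 ha
  linarith

section
variable {P : Type} [Fintype P] [DecidableEq P]

/-- the moved point -/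
noncomputable def en_pt (M : ℕ) (v : P) (x : P → ℤ) (t : P → ℝ) (s : ℝ) : P → ℝ :=
  fun w => pos M x t w + if w = v then s else 0

lemma en_pt_zero (M : ℕ) (v : P) (x : P → ℤ) (t : P → ℝ) : en_pt M v x t 0 = pos M x t := by
  funext w
  simp [en_pt]

lemma en_pt_one (M : ℕ) (hM : 1 ≤ M) (v : P) (x : P → ℤ) (t : P → ℝ) :
    en_pt M v x t (1 / M) = pos M (rt v x) t := by
  have hM0 : (M : ℝ) ≠ 0 := by positivity
  funext w
  unfold en_pt pos rt
  by_cases hw : w = v
  · subst hw
    rw [if_pos rfl, Function.update_self]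
    push_cast
    field_simp
    ring
  · rw [if_neg hw, Function.update_of_ne hw, add_zero]

lemma en_pt_cont (M : ℕ) (v : P) (x : P → ℤ) :
    Continuous fun p : (P → ℝ) × ℝ => en_pt M v x p.1 p.2 := by
  refine continuous_pi fun w => ?_
  unfold en_pt pos
  by_cases hw : w = v
  · simp only [if_pos hw]
    fun_prop
  · simp only [if_neg hw]
    fun_prop

lemma en_pt_deriv (M : ℕ) (v : P) (x : P → ℤ) (t : P → ℝ) (s : ℝ) :
    HasDerivAt (fun s => en_pt M v x t s) (Pi.single v (1 : ℝ)) s := by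
  rw [hasDerivAt_pi]
  intro w
  unfold en_pt
  by_cases hw : w = v
  · subst hw
    simp only [if_pos rfl, Pi.single_eq_same]
    exact (hasDerivAt_id s).const_add _
  · simp only [if_neg hw, Pi.single_eq_of_ne hw]
    exact hasDerivAt_const _ _

lemma en_meas (M : ℕ) : MeasurableSet (Qb P M) := by
  have : Qb P M = Set.pi univ fun _ : P => Ico (0 : ℝ) (1 / M) := by
    ext t
    simp [Qb, Set.mem_pi]
  rw [this]
  exact MeasurableSet.univ_pi fun _ => measurableSet_Ico

lemma en_sub (M : ℕ) : Qb P M ⊆ Icc (0 : P → ℝ) (fun _ => 1 / M) := by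
  intro t ht
  exact ⟨fun v => (ht v).1, fun v => (ht v).2.le⟩

lemma en_int (M : ℕ) (φ : (P → ℝ) → ℝ) (hφ : Continuous φ) : IntegrableOn φ (Qb P M) :=
  (hφ.continuousOn.integrableOn_compact isCompact_Icc).mono_set (en_sub M)

lemma en_prod (M : ℕ) (φ : (P → ℝ) × ℝ → ℝ) (hφ : Continuous φ) :
    Integrable φ ((volume.restrict (Qb P M)).prod (volume.restrict (Ioc (0 : ℝ) (1 / M)))) := by
  rw [Measure.prod_restrict]
  have h : IntegrableOn φ ((Icc (0 : P → ℝ) (fun _ => 1 / (M : ℝ))) ×ˢ (Icc (0 : ℝ) (1 / M)))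
      ((volume : Measure (P → ℝ)).prod (volume : Measure ℝ)) :=
    hφ.continuousOn.integrableOn_compact (isCompact_Icc.prod isCompact_Icc)
  exact h.mono_set (Set.prod_mono (en_sub M) Ioc_subset_Icc_self)

/-- the weight -/
lemma en_weight (R : P × Bool → P × Bool → Prop) (M : ℕ) (hM : 1 ≤ M) (v : P) (W : ℝ → ℝ) (ω : ℝ)
    (hWe : ∀ y, W (-y) = W y)
    (hmod : ∀ y z : ℝ, |y| ≤ 1 → |z| ≤ 1 → |y - z| ≤ 1 / M → W z ≤ W y + ω)
    (x : P → ℤ) (hx : x ∈ Om R M) (hx' : rt v x ∈ Om R M) (t : P → ℝ) (ht : t ∈ Qb P M) (s : ℝ)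
    (hs0 : 0 ≤ s) (hs1 : s ≤ 1 / M) :
    W ((((x v + 1).natAbs / 2 : ℕ) : ℝ) / M) ≤ W (en_pt M v x t s v) + ω := by
  classical
  have hMR : (0 : ℝ) < M := by exact_mod_cast hM
  have h1 : x v ∈ Si M := by
    unfold Om at hx
    exact Fintype.mem_piFinset.1 (Finset.mem_filter.1 hx).1 v
  have h2 : x v + 2 ∈ Si M := by
    unfold Om at hx'
    have := Fintype.mem_piFinset.1 (Finset.mem_filter.1 hx').1 v
    unfold rt at this
    rwa [Function.update_self] at this
  unfold Si at h1 h2
  rw [Finset.mem_filter, Finset.mem_Ioo] at h1 h2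
  obtain ⟨⟨h1a, h1b⟩, k, hk⟩ := h1
  obtain ⟨⟨h2a, h2b⟩, -⟩ := h2
  -- the value of the weight
  have e1 : (((x v + 1).natAbs / 2 : ℕ) : ℝ) = |((k : ℝ) + 1)| := by
    have : (x v + 1).natAbs / 2 = (k + 1).natAbs := by omega
    rw [this, Nat.cast_natAbs]
    push_cast
    rfl
  have hkR : (x v : ℝ) = 2 * k + 1 := by
    rw [hk]
    push_cast
    ring
  have e2 : W (|((k : ℝ) + 1)| / M) = W (((k : ℝ) + 1) / M) := by
    rcases abs_choice ((k : ℝ) + 1) with h | h
    · rw [h]
    · rw [h, neg_div, hWe]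
  rw [e1, e2]
  have ey : en_pt M v x t s v = (k : ℝ) / M + t v + s := by
    unfold en_pt pos
    rw [if_pos rfl, hkR]
    field_simp
    ring
  have htv := ht v
  have hk1 : -(M : ℝ) ≤ k := by
    have : -(M : ℤ) ≤ k := by omega
    exact_mod_cast this
  have hk2 : (k : ℝ) + 2 ≤ M := by
    have : k + 2 ≤ (M : ℤ) := by omega
    exact_mod_cast this
  have hM1 : (1 : ℝ) / M = 1 / M := rfl
  have hkM1 : -1 ≤ (k : ℝ) / M := by
    rw [le_div_iff₀ hMR]
    linarith
  have hkM2 : (k : ℝ) / M + 2 / M ≤ 1 := by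
    rw [← add_div, div_le_one hMR]
    exact hk2
  have h2M : (2 : ℝ) / M = 1 / M + 1 / M := by ring
  refine hmod _ _ ?_ ?_ ?_
  · rw [ey, abs_le]
    constructor
    · linarith [htv.1]
    · linarith [htv.2]
  · rw [abs_le, add_div]
    constructor
    · have : 0 < 1 / (M : ℝ) := by positivity
      linarith
    · have : 0 < 1 / (M : ℝ) := by positivity
      linarith
  · rw [ey, abs_le, add_div]
    constructor
    · linarith [htv.1]
    · linarith [htv.2]

end

theorem t_ENE (hC2 : S_CEL2) : S_ENE := by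
  classical
  intro P _ _ R M hM v F W ω hF hW hW0 hWe hω hmod
  have hMR : (0 : ℝ) < M := by exact_mod_cast hM
  have h1M : (0 : ℝ) < 1 / M := by positivity
  -- the derivative
  set dF : (P → ℝ) → ℝ := fun y => fderiv ℝ F y (Pi.single v 1) with hdF
  have hdFc : Continuous dF := (hF.continuous_fderiv one_ne_zero).clm_apply continuous_const
  set G : (P → ℝ) → ℝ := fun y => (W (y v) + ω) * (dF y) ^ 2 with hG
  have hGc : Continuous G :=
    ((hW.comp (continuous_apply v)).add continuous_const).mul (hdFc.pow 2)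
  have hG0 : ∀ y, 0 ≤ G y := fun y => mul_nonneg (add_nonneg (hW0 _) hω) (sq_nonneg _)
  set ν : Measure ℝ := volume.restrict (Ioc (0 : ℝ) (1 / M)) with hν
  set μ : Measure (P → ℝ) := volume.restrict (Qb P M) with hμ
  have hcp : ∀ x : P → ℤ, Continuous fun p : (P → ℝ) × ℝ => G (en_pt M v x p.1 p.2) := fun x =>
    hGc.comp (en_pt_cont M v x)
  have hprod : ∀ x : P → ℤ, Integrable (fun p : (P → ℝ) × ℝ => G (en_pt M v x p.1 p.2)) (μ.prod ν) :=
    fun x => en_prod M _ (hcp x)
  have hFc : Continuous F := hF.continuous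
  -- one state
  have hone : ∀ x ∈ (Om R M).filter (fun x => rt v x ∈ Om R M),
      W ((((x v + 1).natAbs / 2 : ℕ) : ℝ) / M) *
        ∫ t in Qb P M, (F (pos M (rt v x) t) - F (pos M x t)) ^ 2 ≤
      1 / M * ∫ s, (∫ t, G (en_pt M v x t s) ∂μ) ∂ν := by
    intro x hx
    rw [Finset.mem_filter] at hx
    rw [← integral_const_mul]
    have hswap : ∫ s, (∫ t, G (en_pt M v x t s) ∂μ) ∂ν = ∫ t, (∫ s, G (en_pt M v x t s) ∂ν) ∂μ :=
      (integral_integral_swap (f := fun t s => G (en_pt M v x t s)) (hprod x)).symm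
    rw [hswap, ← integral_const_mul]
    have hcpos : Continuous fun t : P → ℝ => pos M x t := by
      refine continuous_pi fun w => ?_
      unfold pos
      fun_prop
    have hcpos' : Continuous fun t : P → ℝ => pos M (rt v x) t := by
      refine continuous_pi fun w => ?_
      unfold pos
      fun_prop
    refine setIntegral_mono_on ?_ ?_ (en_meas M) ?_
    · exact en_int M _ (continuous_const.mul (((hFc.comp hcpos').sub (hFc.comp hcpos)).pow 2))
    · exact ((hprod x).integral_prod_left).const_mul _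
    · intro t ht
      -- the fundamental theorem
      have hd : ∀ s : ℝ, HasDerivAt (fun s => F (en_pt M v x t s)) (dF (en_pt M v x t s)) s := by
        intro s
        have h1 : HasFDerivAt F (fderiv ℝ F (en_pt M v x t s)) (en_pt M v x t s) :=
          ((hF.differentiable one_ne_zero) _).hasFDerivAt
        exact h1.comp_hasDerivAt s (en_pt_deriv M v x t s)
      have hcs : Continuous fun s : ℝ => en_pt M v x t s :=
        (en_pt_cont M v x).comp (Continuous.prodMk_right t)
      have hdc : Continuous fun s : ℝ => dF (en_pt M v x t s) := hdFc.comp hcs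
      have hftc := intervalIntegral.integral_eq_sub_of_hasDerivAt (a := 0) (b := 1 / (M : ℝ))
        (fun s _ => hd s) (hdc.intervalIntegrable _ _)
      rw [en_pt_zero, en_pt_one M hM] at hftc
      rw [← hftc]
      have h2 := en_cs _ hdc (1 / M) h1M
      have h3 := mul_le_mul_of_nonneg_left h2 (hW0 ((((x v + 1).natAbs / 2 : ℕ) : ℝ) / M))
      refine h3.trans ?_
      have h4 : W ((((x v + 1).natAbs / 2 : ℕ) : ℝ) / M) *
          (1 / M * ∫ s in (0 : ℝ)..(1 / M), dF (en_pt M v x t s) ^ 2) =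
          1 / M * ∫ s in (0 : ℝ)..(1 / M), W ((((x v + 1).natAbs / 2 : ℕ) : ℝ) / M) *
            dF (en_pt M v x t s) ^ 2 := by
        rw [intervalIntegral.integral_const_mul]
        ring
      rw [h4]
      refine mul_le_mul_of_nonneg_left ?_ h1M.le
      rw [hν, ← intervalIntegral.integral_of_le h1M.le]
      refine intervalIntegral.integral_mono_on h1M.le
        ((continuous_const.mul (hdc.pow 2)).intervalIntegrable _ _)
        ((hGc.comp hcs).intervalIntegrable _ _) ?_
      intro s hs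
      exact mul_le_mul_of_nonneg_right
        (en_weight R M hM v W ω hWe hmod x hx.1 hx.2 t ht s hs.1 hs.2) (sq_nonneg _)
  refine (Finset.sum_le_sum hone).trans ?_
  rw [← Finset.mul_sum, ← integral_finset_sum _ fun x _ => (hprod x).integral_prod_right]
  have hfin : ∫ s, (∑ x ∈ (Om R M).filter (fun x => rt v x ∈ Om R M),
      ∫ t, G (en_pt M v x t s) ∂μ) ∂ν ≤ ∫ s, (∫ y in KK R, G y) ∂ν := by
    rw [hν]
    refine setIntegral_mono_on ?_ ?_ measurableSet_Ioc ?_
    · exact integrable_finset_sum _ fun x _ => (hprod x).integral_prod_right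
    · exact integrableOn_const (by simp) (by simp)
    · intro s hs
      exact hC2 P R M hM v s hs.1.le hs.2 G hGc hG0
  have e3 : ∫ s, (∫ y in KK R, G y) ∂ν = 1 / M * ∫ y in KK R, G y := by
    rw [hν, setIntegral_const, smul_eq_mul]
    congr 1
    simp [Measure.real]
  rw [e3] at hfin
  have h5 := mul_le_mul_of_nonneg_left hfin h1M.le
  refine h5.trans (le_of_eq ?_)
  ring

end Run7.h523.KF
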