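import Pool.Agent.Run7.h523.KF.Iface

/-! Project KLS of helper523, piece MOV (helper531). -/

set_option autoImplicit false

namespace Run7.h523.KF

open MeasureTheory Set Filter Topology
open scoped ENNReal

theorem mov_sb_invol (j : ℕ) (z : ℤ) : sb j (sb j z) = z := by
  unfold sb; split_ifs <;> omega

theorem mov_sb_cases (j : ℕ) (z : ℤ) (h : sb j z ≠ z) :
    (|z| = 2 * j + 1 ∨ |z| = 2 * j - 1 ∨ (j = 0 ∧ |z| = 1)) ∧
    ((sb j z = z + 2 ∧ (z + 1).natAbs / 2 = j) ∨ (sb j z + 2 = z ∧ (sb j z + 1).natAbs / 2 = j)) := by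
  rw [Int.abs_eq_natAbs]
  unfold sb at h ⊢
  split_ifs at h ⊢ <;> constructor <;> omega

theorem mov_key {P : Type} [Fintype P] [DecidableEq P] (R : P × Bool → P × Bool → Prop) (M j : ℕ)
    (x : P → ℤ) (hx : x ∈ Om R M) :
    sx j x = x ∨ (∃ v, sx j x = rt v x ∧ (x v + 1).natAbs / 2 = j) ∨
      (∃ v, x = rt v (sx j x) ∧ (sx j x v + 1).natAbs / 2 = j) ∨
      ∃ v w, v ≠ w ∧ |x v| = 2 * j - 1 ∧ |x w| = 2 * j + 1 := by
  classical
  by_cases h0 : ∀ v, sb j (x v) = x v
  · left; funext v; exact h0 v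
  right
  push Not at h0
  obtain ⟨v, hv⟩ := h0
  obtain ⟨hv1, hv2⟩ := mov_sb_cases j (x v) hv
  by_cases h1 : ∃ w, w ≠ v ∧ sb j (x w) ≠ x w
  · obtain ⟨w, hwv, hw⟩ := h1
    obtain ⟨hw1, -⟩ := mov_sb_cases j (x w) hw
    have hne : |x v| ≠ |x w| := by
      intro h
      unfold Om at hx
      rw [Finset.mem_filter] at hx
      exact hwv (hx.2.1 v w h).symm
    right; right
    have : (|x v| = 2 * j - 1 ∧ |x w| = 2 * j + 1) ∨ (|x w| = 2 * j - 1 ∧ |x v| = 2 * j + 1) := by
      have a1 := abs_nonneg (x v)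
      have a2 := abs_nonneg (x w)
      omega
    rcases this with h | h
    · exact ⟨v, w, hwv.symm, h.1, h.2⟩
    · exact ⟨w, v, hwv, h.1, h.2⟩
  · push Not at h1
    have hup : sx j x = Function.update x v (sb j (x v)) := by
      funext w
      by_cases hw : w = v
      · subst hw; simp [sx]
      · rw [Function.update_of_ne hw]
        exact h1 w hw
    rcases hv2 with ⟨h2, h3⟩ | ⟨h2, h3⟩
    · left
      exact ⟨v, by rw [hup, h2]; rfl, h3⟩
    · right; left
      refine ⟨v, ?_, h3⟩
      unfold rt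
      rw [hup]
      simp only [Function.update_self, Function.update_idem]
      rw [h2, Function.update_eq_self]

open Classical in
theorem t_MOV0 : S_MOV := by
  intro P _ _ R M f c L hc hL hlip
  set Ω := Om R M with hΩ
  -- the three kinds of terms
  let a : ℕ → (P → ℤ) → ℝ := fun j x => ∑ v : P,
    if rt v x ∈ Ω ∧ (x v + 1).natAbs / 2 = j then c j * (f (rt v x) - f x) ^ 2 else 0
  let b : ℕ → (P → ℤ) → ℝ := fun j x => ∑ v : P, ∑ w : P,
    if v ≠ w ∧ |x v| = 2 * j - 1 ∧ |x w| = 2 * j + 1 then L ^ 2 else 0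
  have ha0 : ∀ j x, 0 ≤ a j x := by
    intro j x
    refine Finset.sum_nonneg fun v _ => ?_
    split_ifs
    · exact mul_nonneg (hc j).1 (sq_nonneg _)
    · exact le_rfl
  have hb0 : ∀ j x, 0 ≤ b j x := by
    intro j x
    refine Finset.sum_nonneg fun v _ => Finset.sum_nonneg fun w _ => ?_
    split_ifs
    · positivity
    · exact le_rfl
  have hale : ∀ j x v, rt v x ∈ Ω → (x v + 1).natAbs / 2 = j →
      c j * (f (rt v x) - f x) ^ 2 ≤ a j x := by
    intro j x v h1 h2
    have h3 : ∀ w ∈ (Finset.univ : Finset P), 0 ≤ (if rt w x ∈ Ω ∧ (x w + 1).natAbs / 2 = j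
        then c j * (f (rt w x) - f x) ^ 2 else 0) := by
      intro w _
      split_ifs
      · exact mul_nonneg (hc j).1 (sq_nonneg _)
      · exact le_rfl
    have h4 := Finset.single_le_sum h3 (Finset.mem_univ v)
    simp only [h1, h2, and_self, if_true] at h4
    exact h4
  have hpt : ∀ j, j < M → ∀ x ∈ Ω, c j * D R M f j x ^ 2 ≤
      a j x + (if sx j x ∈ Ω then a j (sx j x) else 0) + b j x := by
    intro j hj x hx
    by_cases hs : sx j x ∈ Ω
    · have hD : D R M f j x = f x - f (sx j x) := by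
        unfold D; rw [if_pos ⟨hx, hs⟩]
      rw [if_pos hs, hD]
      have i1 := ha0 j x
      have i2 := ha0 j (sx j x)
      have i3 := hb0 j x
      rcases mov_key R M j x hx with h | ⟨v, h, h'⟩ | ⟨v, h, h'⟩ | ⟨v, w, hvw, h1, h2⟩
      · rw [h] at i2 ⊢; simp only [sub_self]; nlinarith
      · have k := hale j x v (by rw [← h]; exact hs) h'
        rw [← h] at k
        nlinarith
      · have k := hale j (sx j x) v (by rw [← h]; exact hx) h'
        rw [← h] at k
        nlinarith
      · have k : L ^ 2 ≤ b j x := by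
          have q0 : ∀ v' w' : P, 0 ≤ (if v' ≠ w' ∧ |x v'| = 2 * (j:ℤ) - 1 ∧ |x w'| = 2 * (j:ℤ) + 1
              then L ^ 2 else 0) := by
            intro v' w'; split_ifs
            · positivity
            · exact le_rfl
          have q1 := Finset.single_le_sum (f := fun w' : P => if v ≠ w' ∧ |x v| = 2 * (j:ℤ) - 1 ∧
            |x w'| = 2 * (j:ℤ) + 1 then L ^ 2 else 0) (fun w' _ => q0 v w') (Finset.mem_univ w)
          have q2 := Finset.single_le_sum (f := fun v' : P => ∑ w' : P, if v' ≠ w' ∧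
            |x v'| = 2 * (j:ℤ) - 1 ∧ |x w'| = 2 * (j:ℤ) + 1 then L ^ 2 else 0)
            (fun v' _ => Finset.sum_nonneg fun w' _ => q0 v' w') (Finset.mem_univ v)
          simp only [h1, h2, hvw, ne_eq, not_false_eq_true, and_self, if_true] at q1 q2
          refine le_trans q1 ?_
          exact q2
        have k2 := hlip j hj x hx hs
        have k3 : (f x - f (sx j x)) ^ 2 ≤ L ^ 2 := by
          rw [← sq_abs (f x - f (sx j x))]
          exact pow_le_pow_left₀ (abs_nonneg _) k2 2
        have k4 : c j * (f x - f (sx j x)) ^ 2 ≤ L ^ 2 := by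
          have := (hc j).2
          have := (hc j).1
          nlinarith [sq_nonneg (f x - f (sx j x))]
        linarith
    · have hD : D R M f j x = 0 := by
        unfold D; rw [if_neg (fun h => hs h.2)]
      rw [if_neg hs, hD]
      have i1 := ha0 j x
      have i3 := hb0 j x
      nlinarith
  -- involution
  have hinvo : ∀ j, ∑ x ∈ Ω, (if sx j x ∈ Ω then a j (sx j x) else 0) ≤ ∑ x ∈ Ω, a j x := by
    intro j
    rw [← Finset.sum_filter]
    have e : ∑ x ∈ Ω.filter (fun x => sx j x ∈ Ω), a j (sx j x) =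
        ∑ x ∈ Ω.filter (fun x => sx j x ∈ Ω), a j x := by
      refine Finset.sum_nbij' (fun x => sx j x) (fun x => sx j x) ?_ ?_ ?_ ?_ ?_
      · intro x hx
        rw [Finset.mem_filter] at hx ⊢
        refine ⟨hx.2, ?_⟩
        have : sx j (sx j x) = x := by funext v; exact mov_sb_invol j (x v)
        rw [this]; exact hx.1
      · intro x hx
        rw [Finset.mem_filter] at hx ⊢
        refine ⟨hx.2, ?_⟩
        have : sx j (sx j x) = x := by funext v; exact mov_sb_invol j (x v)
        rw [this]; exact hx.1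
      · intro x _; funext v; exact mov_sb_invol j (x v)
      · intro x _; funext v; exact mov_sb_invol j (x v)
      · intro x _; rfl
    rw [e]
    exact Finset.sum_le_sum_of_subset_of_nonneg (Finset.filter_subset _ _) (fun x _ _ => ha0 j x)
  have h1 : ∑ j ∈ Finset.range M, c j * ∑ x ∈ Ω, D R M f j x ^ 2 ≤
      2 * (∑ j ∈ Finset.range M, ∑ x ∈ Ω, a j x) + ∑ j ∈ Finset.range M, ∑ x ∈ Ω, b j x := by
    rw [Finset.mul_sum, ← Finset.sum_add_distrib]
    refine Finset.sum_le_sum fun j hj => ?_
    rw [Finset.mul_sum]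
    have q := Finset.sum_le_sum (fun x hx => hpt j (Finset.mem_range.1 hj) x hx)
    rw [Finset.sum_add_distrib, Finset.sum_add_distrib] at q
    have q2 := hinvo j
    linarith
  have h2 : ∑ j ∈ Finset.range M, ∑ x ∈ Ω, a j x ≤
      ∑ v : P, ∑ x ∈ Ω.filter (fun x => rt v x ∈ Ω),
          c ((x v + 1).natAbs / 2) * (f (rt v x) - f x) ^ 2 := by
    rw [Finset.sum_comm]
    have e1 : ∀ x ∈ Ω, ∑ j ∈ Finset.range M, a j x ≤
        ∑ v : P, if rt v x ∈ Ω then c ((x v + 1).natAbs / 2) * (f (rt v x) - f x) ^ 2 else 0 := by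
      intro x _
      simp only [a]
      rw [Finset.sum_comm]
      refine Finset.sum_le_sum fun v _ => ?_
      by_cases hr : rt v x ∈ Ω
      · simp only [hr, true_and, if_true]
        rw [Finset.sum_ite_eq]
        split_ifs
        · exact le_rfl
        · exact mul_nonneg (hc _).1 (sq_nonneg _)
      · simp only [hr, false_and, if_false, Finset.sum_const_zero, le_refl]
    refine le_trans (Finset.sum_le_sum e1) ?_
    rw [Finset.sum_comm]
    refine Finset.sum_le_sum fun v _ => ?_
    rw [Finset.sum_filter]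
  have h3 : ∑ j ∈ Finset.range M, ∑ x ∈ Ω, b j x ≤ L ^ 2 * (Fintype.card P : ℝ) ^ 2 *
      (Ω.filter fun x => ∃ v w, v ≠ w ∧ abs (|x v| - |x w|) ≤ 2).card := by
    rw [Finset.sum_comm]
    have e1 : ∀ x ∈ Ω, ∑ j ∈ Finset.range M, b j x ≤
        if (∃ v w, v ≠ w ∧ abs (|x v| - |x w|) ≤ 2) then L ^ 2 * (Fintype.card P : ℝ) ^ 2 else 0 := by
      intro x _
      have e2 : ∀ v w : P, ∑ j ∈ Finset.range M, (if v ≠ w ∧ |x v| = 2 * (j:ℤ) - 1 ∧
          |x w| = 2 * (j:ℤ) + 1 then L ^ 2 else 0) ≤
          if v ≠ w ∧ abs (|x v| - |x w|) ≤ 2 then L ^ 2 else 0 := by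
        intro v w
        by_cases hh : ∃ j ∈ Finset.range M, v ≠ w ∧ |x v| = 2 * (j:ℤ) - 1 ∧ |x w| = 2 * (j:ℤ) + 1
        · obtain ⟨j, hj, hj1, hj2, hj3⟩ := hh
          rw [Finset.sum_eq_single j]
          · rw [if_pos ⟨hj1, hj2, hj3⟩, if_pos]
            refine ⟨hj1, ?_⟩
            rw [hj2, hj3, abs_le]; constructor <;> omega
          · intro k _ hk
            rw [if_neg]
            rintro ⟨-, k2, -⟩
            apply hk
            omega
          · intro h; exact absurd hj h
        · rw [Finset.sum_eq_zero]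
          · split_ifs
            · positivity
            · exact le_rfl
          · intro j hj
            rw [if_neg]
            intro h
            exact hh ⟨j, hj, h⟩
      have e3 : ∑ j ∈ Finset.range M, b j x ≤ ∑ v : P, ∑ w : P,
          (if v ≠ w ∧ abs (|x v| - |x w|) ≤ 2 then L ^ 2 else 0) := by
        simp only [b]
        rw [Finset.sum_comm]
        refine Finset.sum_le_sum fun v _ => ?_
        rw [Finset.sum_comm]
        exact Finset.sum_le_sum fun w _ => e2 v w
      refine le_trans e3 ?_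
      split_ifs with hbad
      · refine le_trans (Finset.sum_le_sum fun v _ => Finset.sum_le_sum fun w _ =>
          (show (if v ≠ w ∧ abs (|x v| - |x w|) ≤ 2 then L ^ 2 else 0) ≤ L ^ 2 by
            split_ifs
            · exact le_rfl
            · positivity)) ?_
        simp only [Finset.sum_const, Finset.card_univ, nsmul_eq_mul]
        apply le_of_eq; ring
      · apply le_of_eq
        refine Finset.sum_eq_zero fun v _ => Finset.sum_eq_zero fun w _ => ?_
        rw [if_neg]
        intro h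
        exact hbad ⟨v, w, h⟩
    refine le_trans (Finset.sum_le_sum e1) ?_
    rw [← Finset.sum_filter, Finset.sum_const, nsmul_eq_mul]
    apply le_of_eq; ring
  have h4 := h1
  linarith

/-- piece MOV -/
theorem t_MOV (_ : S_INV) : S_MOV := t_MOV0

end Run7.h523.KF
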