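import Pool.Agent.Run7.h523.KF.Iface2
import Pool.Agent.Run7.h523.KF.DISC
import Pool.Agent.Run7.h523.KF.MOV
import Pool.Agent.Run7.h523.KF.ENE
import Pool.Agent.Run7.h523.KF.CEL3
import Pool.Agent.Run7.h67.KF.LIM
import Pool.Agent.Run7.h593.KF.SUP1
import Pool.Agent.Run7.h593.KF.SUP2
import Pool.Agent.Run7.h847.KF.COM

/-!
# The master inequality for the two weights (helper523), from the discrete inequality
-/

set_option autoImplicit false

namespace Run7.h523.KF

open MeasureTheory Set Filter Topology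
open scoped ENNReal

theorem lim_of (hD : S_DISC) : S_LIM :=
  Run7.h67.KF.t_LIM hD t_MOV0 Run7.h847.KF.t_CNT (t_ENE t_CEL2) t_CEL1 t_CEL3

theorem W2_cont : Continuous W2 := by
  unfold W2
  fun_prop

theorem W2_even (y : ℝ) : W2 (-y) = W2 y := by
  unfold W2
  rw [neg_sq]

theorem W2_nonneg (y : ℝ) : 0 ≤ W2 y := sq_nonneg _

theorem W2_le (y : ℝ) : W2 y ≤ 1 := by
  unfold W2
  have h1 : max 0 (1 - y ^ 2) ≤ 1 := max_le zero_le_one (by nlinarith [sq_nonneg y])
  exact pow_le_one₀ (le_max_left _ _) h1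

/-- `c` matters only below `M` -/
theorem Sup.congr {M : ℕ} {c c' h : ℕ → ℝ} {γ : ℝ} (H : Sup M c h γ) (hM : 1 ≤ M)
    (hc : ∀ j < M, c' j = c j) : Sup M c' h γ where
  cpos j hj := by rw [hc j hj]; exact H.cpos j hj
  hpos := H.hpos
  hM := H.hM
  zero := by rw [hc 0 (by omega)]; exact H.zero
  succ j hj := by rw [hc (j + 1) hj]; exact H.succ j hj

theorem W2_node {M j : ℕ} (hj : j < M) : W2 ((j : ℝ) / M) = (1 - ((j : ℝ) / M) ^ 2) ^ 2 := by
  unfold W2
  have hM : (0 : ℝ) < M := by exact_mod_cast (by omega : 0 < M)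
  have h1 : (j : ℝ) / M ≤ 1 := (div_le_one hM).2 (by exact_mod_cast hj.le)
  have h2 : (0 : ℝ) ≤ (j : ℝ) / M := by positivity
  rw [max_eq_right (by nlinarith)]

/-- `W = 1`: the constant of the cube -/
theorem master_one (hD : S_DISC) (P : Type) [Fintype P] [DecidableEq P]
    (R : P × Bool → P × Bool → Prop) (hv : 0 < volume (KK R)) :
    Master P R (fun _ => 1) (Real.pi ^ 2 / 4) := by
  refine lim_of hD P R (fun _ => 1) (Real.pi ^ 2 / 4) hv continuous_const (fun _ => zero_le_one)
    (fun _ => rfl) (fun _ => le_rfl) (by positivity)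
    ⟨1, fun M j => Real.cos (Real.pi * j / (2 * M)), fun M => 1 - Real.cos (Real.pi / (2 * M)),
      fun M hM => ⟨?_, Run7.h593.KF.t_SUP1 M hM⟩, ?_⟩
  · have hM0 : (0 : ℝ) < M := by exact_mod_cast hM
    have h1 : Real.cos (Real.pi / (2 * M)) < 1 := by
      rw [← Real.cos_zero]
      refine Real.cos_lt_cos_of_nonneg_of_le_pi le_rfl ?_ (by positivity)
      rw [div_le_iff₀ (by positivity)]
      have h2 : (1 : ℝ) ≤ M := by exact_mod_cast hM
      nlinarith [Real.pi_pos]
    linarith
  · -- `2 M² (1 - cos (π / (2M))) → π²/4`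
    have h1 : Tendsto (fun x : ℝ => Real.sin x / x) (𝓝[≠] 0) (𝓝 1) := by
      have := Real.hasDerivAt_sin 0
      rw [hasDerivAt_iff_tendsto_slope_zero] at this
      simp only [zero_add, Real.sin_zero, sub_zero, smul_eq_mul, Real.cos_zero] at this
      refine this.congr fun x => ?_
      rw [div_eq_inv_mul]
    have h2 : Tendsto (fun M : ℕ => Real.pi / (4 * (M : ℝ))) atTop (𝓝[≠] 0) := by
      rw [tendsto_nhdsWithin_iff]
      constructor
      · have h3 : Tendsto (fun M : ℕ => (M : ℝ)) atTop atTop := tendsto_natCast_atTop_atTop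
        have h4 : Tendsto (fun M : ℕ => 4 * (M : ℝ)) atTop atTop :=
          h3.const_mul_atTop (by norm_num)
        exact h4.const_div_atTop _
      · filter_upwards [eventually_ge_atTop 1] with M hM
        have hM0 : (0 : ℝ) < M := by exact_mod_cast hM
        have : Real.pi / (4 * (M : ℝ)) ≠ 0 := by positivity
        exact this
    have h5 := (h1.comp h2).pow 2
    have h6 : Tendsto (fun M : ℕ => Real.pi ^ 2 / 4 *
        (Real.sin (Real.pi / (4 * (M : ℝ))) / (Real.pi / (4 * (M : ℝ)))) ^ 2) atTop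
        (𝓝 (Real.pi ^ 2 / 4 * 1 ^ 2)) := h5.const_mul _
    rw [one_pow, mul_one] at h6
    refine h6.congr' ?_
    filter_upwards [eventually_ge_atTop 1] with M hM
    have hM0 : (0 : ℝ) < M := by exact_mod_cast hM
    have h7 : Real.cos (Real.pi / (2 * M)) = 1 - 2 * Real.sin (Real.pi / (4 * M)) ^ 2 := by
      have h8 : Real.pi / (2 * M) = 2 * (Real.pi / (4 * M)) := by field_simp; norm_num
      have h9 := Real.cos_sq_add_sin_sq (Real.pi / (4 * M))
      rw [h8, Real.cos_two_mul]
      linarith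
    rw [h7]
    field_simp
    ring

/-- `W = (1 - y²)²` -/
theorem master_two (hD : S_DISC) (P : Type) [Fintype P] [DecidableEq P]
    (R : P × Bool → P × Bool → Prop) (hv : 0 < volume (KK R)) : Master P R W2 1 := by
  refine lim_of hD P R W2 1 hv W2_cont W2_nonneg W2_even W2_le one_pos
    ⟨2, fun M j => Real.sqrt (1 - ((j : ℝ) / M) ^ 2), fun M => 1 / (2 * (M : ℝ) ^ 2),
      fun M hM => ⟨?_, (Run7.h593.KF.t_SUP2 M hM).congr (by omega) fun j hj => W2_node hj⟩, ?_⟩
  · have hM0 : (0 : ℝ) < M := by exact_mod_cast (by omega : 0 < M)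
    positivity
  · refine tendsto_const_nhds.congr' ?_
    filter_upwards [eventually_ge_atTop 1] with M hM
    have hM0 : (0 : ℝ) < M := by exact_mod_cast hM
    field_simp

end Run7.h523.KF
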