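import Pool.Agent.Run7.h523.KF.FIN4
import Pool.Agent.Run7.h299.KF.CH0
import Pool.Agent.Run7.h11.KF.SPM
import Pool.Agent.Run7.h11.KF.RF
import Pool.Agent.Run7.h11.KF.BND
import Pool.Agent.Run7.h760.KF.GP1
import Pool.Agent.Run7.h721.KF.GP2
import Pool.Agent.Run7.h721.KF.GSQ
import Pool.Agent.Run7.h340.KF.GAP
import Pool.Agent.Run7.h340.KF.CMB
import Pool.Agent.Run7.h224.KF.OS
import Pool.Agent.Run7.h224.KF.SYR
import Pool.Agent.Run7.h603.KF.SRT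
import Pool.Agent.Run7.h324.KF.CHP
import Pool.Agent.Run7.h324.KF.MOL
import Pool.Agent.Run7.h593.KF.SUP2

/-!
# Project KF: the theorem for 1-symmetric measures, from the discrete spectral gap
-/

set_option autoImplicit false

namespace Run7.h523.KF

theorem all_syr : S_SYR := Run7.h224.KF.t_SYR

theorem cmb_of (hD : S_DISC) : ∃ K : ℝ, 0 < K ∧ S_CMB K := by
  obtain ⟨K, hK, hO⟩ := Run7.h224.KF.t_OS
  have hCH := Run7.h299.KF.t_CH0
  have hSPM := Run7.h11.KF.t_SPM hCH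
  have hRF := Run7.h11.KF.t_RF
  have hBND := Run7.h11.KF.t_BND hSPM hRF
  have hGAP := Run7.h340.KF.t_GAP hCH hSPM hRF Run7.h760.KF.t_GP1 (t_GP2 hRF hSPM) t_GSQ
  have hCHP := Run7.h324.KF.t_CHP hCH hSPM (Run7.h603.KF.t_SRT hCH) Run7.h324.KF.t_MOL K hO
  exact ⟨K, hK, Run7.h340.KF.t_CMB hD Run7.h593.KF.t_SUP2 hCH hSPM hRF hBND hGAP K hCHP⟩

end Run7.h523.KF
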