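import Pool.Agent.Run7.h523.KF.Iface3

/-!
# Last piece: independent log-concave variables conditioned on a partial order (helper523)
-/

set_option autoImplicit false

namespace Run7.h523.KF

open MeasureTheory Set Filter Topology
open scoped ENNReal

/-- **LCP.** Combination of the second batch. (Given `S_QNT`, `S_TRN`, `S_APX`, `S_SYMA`, `S_SUM2`, `S_MOM` and
`hM : ∀ P R, 0 < volume (KK R) → Master P R W2 1`, theorem `t_LCP`.) Proof. QNT gives `T`, `T'`, `B`. For bounded continuous `g`: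
`∫_{KC} g ∏ρ = 2^{-n} ∫_{KK} g(T y) dy` (TRN for the nonnegative function `g + C`, and for `1`; `y ↦ g(T y)` is a.e. measurable on `KK R` because `T` is continuous on `(-1, 1)` and the boundary of the cube is a null set).
So `Z = 2^{-n} vol(KK R)`, `vol (KK R) > 0`, and APX divided by the volume is the first claim, `B² ≤ 48 ∫ (x - m)² ρ` (QNT, the second moment is finite by MOM, `∫⁻ ofReal = ofReal ∫`). Second claim: SYMA for `Φ = ofReal ((∑ x_v)²)`, `ofReal ((∑ x_v)^±)` and SUM2: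
`∫_{KC} (∑ x_v)² ∏ρ = Z ∫ (∑ x_v)² ∏ρ`, `∫_{KC} (∑ x_v) ∏ρ = Z ∫ (∑ x_v) ∏ρ`, and `∫ (x - m)² ρ = ∫ x² ρ - m²`. -/
def S_LCP : Prop :=
  ∀ (P : Type) [Fintype P] [DecidableEq P] [Nonempty P] (R : P × Bool → P × Bool → Prop)
    (ρ : ℝ → ℝ) (m : ℝ), TypeA R → LCD ρ → m = ∫ x, x * ρ x →
    0 < ∫ y in KC R, ∏ v, ρ (y v) →
    Integrable (fun x => (x - m) ^ 2 * ρ x) ∧
    (∀ (f : (P → ℝ) → ℝ) (C : ℝ), Bf f C →
      (∫ y in KC R, f y ^ 2 * ∏ v, ρ (y v)) / (∫ y in KC R, ∏ v, ρ (y v)) -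
          ((∫ y in KC R, f y * ∏ v, ρ (y v)) / ∫ y in KC R, ∏ v, ρ (y v)) ^ 2 ≤
        48 * (∫ x, (x - m) ^ 2 * ρ x) *
          ((∫ y in KC R, gr f y * ∏ v, ρ (y v)) / ∫ y in KC R, ∏ v, ρ (y v))) ∧
    IntegrableOn (fun y : P → ℝ => (∑ v, y v) ^ 2 * ∏ v, ρ (y v)) (KC R) ∧
    (∫ y in KC R, (∑ v, y v) ^ 2 * ∏ v, ρ (y v)) / (∫ y in KC R, ∏ v, ρ (y v)) -
        ((∫ y in KC R, (∑ v, y v) * ∏ v, ρ (y v)) / ∫ y in KC R, ∏ v, ρ (y v)) ^ 2 =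
      Fintype.card P * ∫ x, (x - m) ^ 2 * ρ x

end Run7.h523.KF
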