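import Pool.Agent.Run7.h523.KF.FIN3
import Pool.Agent.Run7.h523.KF.Iface4

/-!
# Conditional measures with densities (helper523)
-/

set_option autoImplicit false

namespace Run7.h523.KF

open MeasureTheory Set Filter Topology
open scoped ENNReal InnerProductSpace

variable {κ : Type} [Fintype κ]

/-- the measure with density `w`, conditioned on `K` -/
noncomputable def cnd (w : EuclideanSpace ℝ κ → ℝ) (K : Set (EuclideanSpace ℝ κ)) :
    Measure (EuclideanSpace ℝ κ) :=
  (((volume.withDensity fun x => ENNReal.ofReal (w x)).restrict K) univ)⁻¹ •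
    (volume.withDensity fun x => ENNReal.ofReal (w x)).restrict K

section

variable {w : EuclideanSpace ℝ κ → ℝ} {K : Set (κ → ℝ)} (hw0 : ∀ x, 0 ≤ w x) (hwm : Measurable w)
  (hK : MeasurableSet K) (hZ : 0 < ∫ y in K, w (WithLp.toLp 2 y))

include hK in
omit [Fintype κ] in
theorem EE_meas : MeasurableSet (EE K) :=
  (WithLp.measurable_ofLp 2 (κ → ℝ)) hK

include hZ in
theorem w_int : IntegrableOn (fun y => w (WithLp.toLp 2 y)) K := by
  by_contra h
  rw [integral_undef h] at hZ
  exact lt_irrefl _ hZ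

include hw0 hwm hK hZ in
theorem cnd_mass : ((volume.withDensity fun x => ENNReal.ofReal (w x)).restrict (EE K)) univ =
    ENNReal.ofReal (∫ y in K, w (WithLp.toLp 2 y)) := by
  rw [Measure.restrict_apply_univ, withDensity_apply _ (EE_meas hK)]
  have h1 := int_EE K w
  have h2 : Integrable w (volume.restrict (EE K)) := by
    by_contra h
    rw [integral_undef h] at h1
    rw [← h1] at hZ
    exact lt_irrefl _ hZ
  rw [← ofReal_integral_eq_lintegral_ofReal h2 (Eventually.of_forall hw0), h1]

include hw0 hwm hK hZ in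
theorem cnd_prob : IsProbabilityMeasure (cnd w (EE K)) := by
  refine ⟨?_⟩
  have h := cnd_mass hw0 hwm hK hZ
  unfold cnd
  rw [Measure.smul_apply, h, smul_eq_mul, ENNReal.inv_mul_cancel (ENNReal.ofReal_pos.2 hZ).ne'
    ENNReal.ofReal_ne_top]

include hw0 hwm hK hZ in
theorem cnd_int (g : EuclideanSpace ℝ κ → ℝ) : ∫ x, g x ∂(cnd w (EE K)) =
    (∫ y in K, g (WithLp.toLp 2 y) * w (WithLp.toLp 2 y)) / ∫ y in K, w (WithLp.toLp 2 y) := by
  have h := cnd_mass hw0 hwm hK hZ
  unfold cnd
  rw [h, integral_smul_measure, ENNReal.toReal_inv, ENNReal.toReal_ofReal hZ.le, smul_eq_mul,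
    inv_mul_eq_div]
  congr 1
  rw [← int_EE K (fun x => g x * w x), restrict_withDensity (EE_meas hK),
    integral_withDensity_eq_integral_toReal_smul hwm.ennreal_ofReal
      (Eventually.of_forall fun x => ENNReal.ofReal_lt_top)]
  refine integral_congr_ae (Eventually.of_forall fun x => ?_)
  simp only [smul_eq_mul]
  rw [ENNReal.toReal_ofReal (hw0 x), mul_comm]

include hw0 hwm hK hZ in
theorem cnd_var (g : EuclideanSpace ℝ κ → ℝ) (hg : AEStronglyMeasurable g (cnd w (EE K)))
    (hi : Integrable (fun x => g x ^ 2) (cnd w (EE K))) :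
    ProbabilityTheory.variance g (cnd w (EE K)) =
      (∫ y in K, g (WithLp.toLp 2 y) ^ 2 * w (WithLp.toLp 2 y)) /
          (∫ y in K, w (WithLp.toLp 2 y)) -
        ((∫ y in K, g (WithLp.toLp 2 y) * w (WithLp.toLp 2 y)) /
          ∫ y in K, w (WithLp.toLp 2 y)) ^ 2 := by
  have hprob := cnd_prob hw0 hwm hK hZ
  have hL2 : MemLp g 2 (cnd w (EE K)) := (memLp_two_iff_integrable_sq hg).2 hi
  rw [ProbabilityTheory.variance_eq_sub hL2, cnd_int hw0 hwm hK hZ, cnd_int hw0 hwm hK hZ]
  rfl

include hw0 hwm hK hZ in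
/-- square integrability from the one on `κ → ℝ` -/
theorem cnd_integrable (g : EuclideanSpace ℝ κ → ℝ) (hg : Measurable g)
    (hi : IntegrableOn (fun y => g (WithLp.toLp 2 y) * w (WithLp.toLp 2 y)) K) :
    Integrable g (cnd w (EE K)) := by
  have h := cnd_mass hw0 hwm hK hZ
  unfold cnd
  rw [h]
  refine Integrable.smul_measure ?_ (ENNReal.inv_ne_top.2 (ENNReal.ofReal_pos.2 hZ).ne')
  rw [restrict_withDensity (EE_meas hK), integrable_withDensity_iff hwm.ennreal_ofReal
    (Eventually.of_forall fun x => ENNReal.ofReal_lt_top)]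
  have h1 : (fun x => g x * (ENNReal.ofReal (w x)).toReal) = fun x => g x * w x := by
    funext x
    rw [ENNReal.toReal_ofReal (hw0 x)]
  rw [h1]
  have h2 := (PiLp.volume_preserving_toLp κ).restrict_preimage_emb
    (MeasurableEquiv.toLp 2 (κ → ℝ)).measurableEmbedding (EE K)
  have h3 := h2.integrable_comp_emb (MeasurableEquiv.toLp 2 (κ → ℝ)).measurableEmbedding
    (g := fun x => g x * w x)
  exact h3.1 hi

end

end Run7.h523.KF
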