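import Pool.Agent.Run7.h523.KF.Iface5
import Pool.Agent.Run7.h590.KF.APX
import Pool.Agent.Run7.h590.KF.SUM2
import Pool.Agent.Run7.h961.KF.SYMA

/-!
# Project KF: LCP, first part (helper523)
-/

set_option autoImplicit false

namespace Run7.h523.KF

open MeasureTheory Set Filter Topology
open scoped ENNReal

section

variable {P : Type} [Fintype P] [DecidableEq P]

theorem ae_open (R : P × Bool → P × Bool → Prop) :
    ∀ᵐ y ∂((volume : Measure (P → ℝ)).restrict (KK R)), ∀ v, y v ∈ Ioo (-1 : ℝ) 1 := by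
  have h1 : ∀ᵐ y ∂(volume : Measure (P → ℝ)), ∀ v, y v ≠ 1 ∧ y v ≠ -1 := by
    rw [ae_all_iff]
    intro v
    rw [volume_pi]
    exact (Measure.ae_eval_ne (μ := fun _ : P => (volume : Measure ℝ)) v 1).and
      (Measure.ae_eval_ne (μ := fun _ : P => (volume : Measure ℝ)) v (-1))
  filter_upwards [ae_restrict_of_ae h1,
    ae_restrict_mem (Run7.h590.KF.AP.KK_closed R).measurableSet] with y hy hy' v
  exact ⟨lt_of_le_of_ne (hy'.1 v).1 (Ne.symm (hy v).2), lt_of_le_of_ne (hy'.1 v).2 (hy v).1⟩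

/-- the transport formula for real integrals -/
theorem trn_real (hTRN : S_TRN) (R : P × Bool → P × Bool → Prop) {ρ T T' : ℝ → ℝ} {B : ℝ}
    (hA : TypeA R) (hρ : LCD ρ) (hT : Qtl ρ T T' B) (g : (P → ℝ) → ℝ) (hg : Measurable g) :
    AEStronglyMeasurable (fun y => g fun v => T (y v)) (volume.restrict (KK R)) ∧
    ∫ x in KC R, g x * ∏ v, ρ (x v) =
      (1 / 2) ^ Fintype.card P * ∫ y in KK R, g fun v => T (y v) := by
  classical
  have hTc : ContinuousOn T (Ioo (-1) 1) := fun y hy =>
    (hT.deriv y hy).continuousAt.continuousWithinAt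
  set T₀ : ℝ → ℝ := (Ioo (-1 : ℝ) 1).piecewise T (fun _ => 0) with hT₀
  have hT₀m : Measurable T₀ := hTc.measurable_piecewise continuousOn_const measurableSet_Ioo
  have hT₀e : ∀ y ∈ Ioo (-1 : ℝ) 1, T₀ y = T y := fun y hy => piecewise_eq_of_mem _ _ _ hy
  have hmm : Measurable fun y : P → ℝ => fun v => T₀ (y v) :=
    measurable_pi_lambda _ fun v => hT₀m.comp (measurable_pi_apply v)
  have hae : ∀ᵐ y ∂((volume : Measure (P → ℝ)).restrict (KK R)),
      (fun v => T₀ (y v)) = fun v => T (y v) := by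
    filter_upwards [ae_open R] with y hy
    funext v
    exact hT₀e _ (hy v)
  have hKC : MeasurableSet (KC R) := Run7.h961.KF.meas_KC R
  have hρm : Measurable fun x => ENNReal.ofReal (ρ x) := hρ.meas.ennreal_ofReal
  have hprodm : Measurable fun x : P → ℝ => ∏ v, ENNReal.ofReal (ρ (x v)) :=
    Finset.measurable_prod _ fun v _ => hρm.comp (measurable_pi_apply v)
  set c : ℝ≥0∞ := (1 / 2) ^ Fintype.card P with hc
  have hmeas : (volume.restrict (KC R)).withDensity (fun x : P → ℝ => ∏ v, ENNReal.ofReal (ρ (x v))) =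
      c • (volume.restrict (KK R)).map fun y : P → ℝ => fun v => T₀ (y v) := by
    refine Measure.ext fun A hA' => ?_
    have h1 := hTRN P R ρ T T' B hA hρ hT (A.indicator fun _ => 1)
      (measurable_const.indicator hA')
    rw [withDensity_apply _ hA', Measure.smul_apply, Measure.map_apply hmm hA', smul_eq_mul,
      ← lintegral_indicator hA']
    have e1 : ∫⁻ x in KC R, A.indicator (fun x : P → ℝ => ∏ v, ENNReal.ofReal (ρ (x v))) x =
        ∫⁻ x in KC R, A.indicator (fun _ => 1) x * ∏ v, ENNReal.ofReal (ρ (x v)) := by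
      refine lintegral_congr fun x => ?_
      by_cases hx : x ∈ A
      · rw [indicator_of_mem hx, indicator_of_mem hx, one_mul]
      · rw [indicator_of_notMem hx, indicator_of_notMem hx, zero_mul]
    rw [e1, h1]
    congr 1
    have e2 : ∫⁻ y in KK R, A.indicator (fun _ => (1 : ℝ≥0∞)) (fun v => T (y v)) =
        ∫⁻ y in KK R, ((fun y : P → ℝ => fun v => T₀ (y v)) ⁻¹' A).indicator (fun _ => 1) y := by
      refine lintegral_congr_ae ?_
      filter_upwards [hae] with y hy
      rw [← hy]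
      rfl
    rw [e2, lintegral_indicator (hmm hA'), lintegral_const, one_mul, Measure.restrict_apply_univ]
  have hs : AEStronglyMeasurable (fun y : P → ℝ => g fun v => T₀ (y v))
      (volume.restrict (KK R)) := (hg.comp hmm).aestronglyMeasurable
  have hcongr : (fun y : P → ℝ => g fun v => T₀ (y v)) =ᵐ[volume.restrict (KK R)]
      fun y => g fun v => T (y v) := by
    filter_upwards [hae] with y hy
    rw [hy]
  refine ⟨hs.congr hcongr, ?_⟩
  have h2 : ∫ x, g x ∂((volume.restrict (KC R)).withDensity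
      (fun x : P → ℝ => ∏ v, ENNReal.ofReal (ρ (x v)))) = ∫ x in KC R, g x * ∏ v, ρ (x v) := by
    rw [integral_withDensity_eq_integral_toReal_smul hprodm
      (Filter.Eventually.of_forall fun x => ENNReal.prod_lt_top fun v _ => ENNReal.ofReal_lt_top)]
    refine integral_congr_ae (Filter.Eventually.of_forall fun x => ?_)
    simp only [ENNReal.toReal_prod, ENNReal.toReal_ofReal (hρ.nonneg _), smul_eq_mul]
    ring
  rw [← h2, hmeas, integral_smul_measure, integral_map hmm.aemeasurable hg.aestronglyMeasurable,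
    integral_congr_ae hcongr, smul_eq_mul]
  congr 1
  rw [hc, ENNReal.toReal_pow]
  norm_num

end

theorem t_LCP1 (hQNT : S_QNT) (hTRN : S_TRN) (hAPX : S_APX) (hMOM : S_MOM)
    (hM : ∀ (P : Type) [Fintype P] [DecidableEq P] (R : P × Bool → P × Bool → Prop),
      0 < volume (KK R) → Master P R W2 1) : S_LCP1 := by
  intro P _ _ _ R ρ m hA hρ hZ
  obtain ⟨T, T', B, hB, hT, hBm⟩ := hQNT ρ hρ
  have h2 := hMOM ρ hρ
  have hint : Integrable (fun x => (x - m) ^ 2 * ρ x) := by
    have e1 := Run7.h590.KF.mom_int hρ h2 1 (by norm_num)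
    have e0 := Run7.h590.KF.LCD.integrable hρ
    have e3 : (fun x => (x - m) ^ 2 * ρ x) = fun x => x ^ 2 * ρ x - 2 * m * (x ^ 1 * ρ x) + m ^ 2 * ρ x := by
      funext x
      ring
    rw [e3]
    exact (h2.sub (e1.const_mul _)).add (e0.const_mul _)
  refine ⟨hint, fun f C hf => ?_⟩
  set V := (volume (KK R)).toReal with hV
  set c : ℝ := (1 / 2) ^ Fintype.card P with hc
  have hc0 : 0 < c := by positivity
  have hfc : Continuous f := hf.cd.continuous
  have hdc : ∀ v, Continuous fun x => fderiv ℝ f x (Pi.single v 1) := fun v =>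
    (hf.cd.continuous_fderiv one_ne_zero).clm_apply continuous_const
  -- the mass
  have hZV : ∫ y in KC R, ∏ v, ρ (y v) = c * V := by
    have h := (trn_real hTRN R hA hρ hT (fun _ => 1) measurable_const).2
    simp only [one_mul] at h
    rw [h]
    congr 1
    rw [setIntegral_const, smul_eq_mul, mul_one]
    rfl
  rw [hZV] at hZ ⊢
  have hV0 : 0 < V := by
    by_contra hcon
    have : c * V ≤ 0 := mul_nonpos_of_nonneg_of_nonpos hc0.le (not_lt.1 hcon)
    linarith
  have hvol : 0 < volume (KK R) := by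
    rw [hV] at hV0
    exact (ENNReal.toReal_pos_iff.1 hV0).1
  have hfin : volume (KK R) < ∞ := (Run7.h590.KF.AP.KK_compact R).measure_lt_top
  have : IsFiniteMeasure (volume.restrict (KK R)) := ⟨by
    rw [Measure.restrict_apply_univ]
    exact hfin⟩
  have hapx := hAPX P R T T' B C f hvol (hM P R hvol) hT.deriv hT.cont hT.pos hT.bound hf.cd hf.bd
    hf.db
  have a1 := (trn_real hTRN R hA hρ hT (fun x => f x ^ 2) (hfc.pow 2).measurable).2
  have a2 := (trn_real hTRN R hA hρ hT f hfc.measurable).2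
  have a3 := (trn_real hTRN R hA hρ hT (gr f)
    (Finset.measurable_sum _ fun v _ => ((hdc v).pow 2).measurable)).2
  have a4 : ∫ y in KK R, gr f (fun v => T (y v)) =
      ∑ v : P, ∫ y in KK R, (fderiv ℝ f (fun v => T (y v)) (Pi.single v 1)) ^ 2 := by
    unfold gr
    refine integral_finsetSum _ fun v _ => ?_
    refine Integrable.of_bound (trn_real hTRN R hA hρ hT
      (fun x => (fderiv ℝ f x (Pi.single v 1)) ^ 2) ((hdc v).pow 2).measurable).1 (C ^ 2)
      (Filter.Eventually.of_forall fun y => ?_)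
    rw [Real.norm_eq_abs, abs_pow]
    exact pow_le_pow_left₀ (abs_nonneg _) (hf.db _ v) 2
  rw [a1, a2, a3, a4]
  have hvar : 0 ≤ ∫ x, (x - m) ^ 2 * ρ x :=
    integral_nonneg fun x => mul_nonneg (sq_nonneg _) (hρ.nonneg x)
  have hB2 : B ^ 2 ≤ 48 * ∫ x, (x - m) ^ 2 * ρ x := by
    have h := hBm m
    have e1 : ∫⁻ x, ENNReal.ofReal ((x - m) ^ 2) * ENNReal.ofReal (ρ x) =
        ENNReal.ofReal (∫ x, (x - m) ^ 2 * ρ x) := by
      rw [ofReal_integral_eq_lintegral_ofReal hint
        (Filter.Eventually.of_forall fun x => mul_nonneg (sq_nonneg _) (hρ.nonneg x))]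
      refine lintegral_congr fun x => ?_
      rw [ENNReal.ofReal_mul (sq_nonneg _)]
    rw [e1, show (48 : ℝ≥0∞) = ENNReal.ofReal 48 by norm_num, ← ENNReal.ofReal_mul (by norm_num)] at h
    exact (ENNReal.ofReal_le_ofReal_iff (by positivity)).1 h
  set a := ∫ y in KK R, f (fun v => T (y v)) ^ 2
  set b := ∫ y in KK R, f (fun v => T (y v))
  set G := ∑ v : P, ∫ y in KK R, (fderiv ℝ f (fun v => T (y v)) (Pi.single v 1)) ^ 2 with hG
  have hG0 : 0 ≤ G := Finset.sum_nonneg fun v _ => integral_nonneg fun y => sq_nonneg _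
  have e1 : c * a / (c * V) - (c * b / (c * V)) ^ 2 = (a - b ^ 2 / V) / V := by
    field_simp
  have e2 : c * G / (c * V) = G / V := by
    field_simp
  rw [e1, e2, ← mul_div_assoc]
  refine div_le_div_of_nonneg_right (hapx.trans ?_) hV0.le
  exact mul_le_mul_of_nonneg_right hB2 hG0

end Run7.h523.KF
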