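import Pool.Agent.Run7.h523.KF.Iface5
import Pool.Agent.Run7.h590.KF.SUM2
import Pool.Agent.Run7.h961.KF.SYMA

/-!
# Project KF: LCP, second part (helper523)
-/

set_option autoImplicit false

namespace Run7.h523.KF

open MeasureTheory Set Filter Topology
open scoped ENNReal

section

variable {P : Type} [Fintype P] [DecidableEq P]

theorem ofReal_mul_prod {ρ : ℝ → ℝ} (hρ : LCD ρ) (a : ℝ) (x : P → ℝ) :
    ENNReal.ofReal (a * ∏ v, ρ (x v)) = ENNReal.ofReal a * ∏ v, ENNReal.ofReal (ρ (x v)) := by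
  rw [ENNReal.ofReal_mul' (Finset.prod_nonneg fun v _ => hρ.nonneg _),
    ENNReal.ofReal_prod_of_nonneg fun v _ => hρ.nonneg _]

/-- symmetrization for real integrals -/
theorem sym_real (hSYMA : S_SYMA) (R : P × Bool → P × Bool → Prop) {ρ : ℝ → ℝ}
    (hA : TypeA R) (hρ : LCD ρ) (g : (P → ℝ) → ℝ) (hg : Measurable g)
    (hs : ∀ (σ : Equiv.Perm P) (x : P → ℝ), g (fun v => x (σ v)) = g x)
    (hi : Integrable fun x : P → ℝ => g x * ∏ v, ρ (x v)) :
    ∫ x in KC R, g x * ∏ v, ρ (x v) =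
      (∫ x in KC R, ∏ v, ρ (x v)) * ∫ x, g x * ∏ v, ρ (x v) := by
  have h1 := hSYMA P R ρ hA hρ (fun x => ENNReal.ofReal (g x)) hg.ennreal_ofReal
    (fun σ x => by rw [hs])
  have h2 := hSYMA P R ρ hA hρ (fun x => ENNReal.ofReal (-g x)) hg.neg.ennreal_ofReal
    (fun σ x => by rw [hs])
  simp only [← ofReal_mul_prod hρ] at h1 h2
  have h3 : ∫⁻ x in KC R, ∏ v, ENNReal.ofReal (ρ (x v)) =
      ENNReal.ofReal (∫ x in KC R, ∏ v, ρ (x v)) := by
    have hint : Integrable fun x : P → ℝ => ∏ v, ρ (x v) :=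
      Integrable.fintype_prod fun _ => Run7.h590.KF.LCD.integrable hρ
    rw [ofReal_integral_eq_lintegral_ofReal hint.integrableOn
      (Filter.Eventually.of_forall fun x => Finset.prod_nonneg fun v _ => hρ.nonneg _)]
    refine lintegral_congr fun x => ?_
    rw [ENNReal.ofReal_prod_of_nonneg fun v _ => hρ.nonneg _]
  have hZ0 : 0 ≤ ∫ x in KC R, ∏ v, ρ (x v) :=
    integral_nonneg fun x => Finset.prod_nonneg fun v _ => hρ.nonneg _
  rw [h3] at h1 h2
  rw [integral_eq_lintegral_pos_part_sub_lintegral_neg_part hi.integrableOn,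
    integral_eq_lintegral_pos_part_sub_lintegral_neg_part hi]
  simp only [← neg_mul]
  rw [h1, h2, ENNReal.toReal_mul, ENNReal.toReal_mul, ENNReal.toReal_ofReal hZ0, mul_sub]

end

theorem t_LCP2 (hSYMA : S_SYMA) (hSUM2 : S_SUM2) (hMOM : S_MOM) : S_LCP2 := by
  intro P _ _ _ R ρ m hA hρ hm hZ
  have h2 := hMOM ρ hρ
  obtain ⟨i2, s1, s2⟩ := hSUM2 P ρ hρ h2
  have i0 : Integrable fun x : P → ℝ => ∏ v, ρ (x v) :=
    Integrable.fintype_prod fun _ => Run7.h590.KF.LCD.integrable hρ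
  have hsm : Measurable fun x : P → ℝ => ∑ v, x v :=
    Finset.measurable_sum _ fun v _ => measurable_pi_apply v
  have hpm : Measurable fun x : P → ℝ => ∏ v, ρ (x v) :=
    Finset.measurable_prod _ fun v _ => hρ.meas.comp (measurable_pi_apply v)
  have i1 : Integrable fun x : P → ℝ => (∑ v, x v) * ∏ v, ρ (x v) := by
    refine (i0.add i2).mono' (hsm.mul hpm).aestronglyMeasurable
      (Filter.Eventually.of_forall fun x => ?_)
    have h3 : 0 ≤ ∏ v, ρ (x v) := Finset.prod_nonneg fun v _ => hρ.nonneg _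
    show ‖(∑ v, x v) * ∏ v, ρ (x v)‖ ≤ ∏ v, ρ (x v) + (∑ v, x v) ^ 2 * ∏ v, ρ (x v)
    rw [norm_mul, Real.norm_eq_abs, Real.norm_eq_abs, abs_of_nonneg h3]
    have h4 : |∑ v, x v| ≤ 1 + (∑ v, x v) ^ 2 := by
      rw [← sq_abs]
      nlinarith [sq_nonneg (|∑ v, x v| - 1), abs_nonneg (∑ v, x v)]
    nlinarith
  have hinv : ∀ (σ : Equiv.Perm P) (x : P → ℝ), ∑ v, x (σ v) = ∑ v, x v := fun σ x =>
    Equiv.sum_comp σ x
  refine ⟨i2.integrableOn, ?_⟩
  have j1 := sym_real hSYMA R hA hρ (fun x => ∑ v, x v) hsm hinv i1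
  have j2 := sym_real hSYMA R hA hρ (fun x => (∑ v, x v) ^ 2) (hsm.pow_const 2)
    (fun σ x => by simp only [hinv]) i2
  rw [j1, j2, s1, s2]
  have e1 := Run7.h590.KF.mom_int hρ h2 1 (by norm_num)
  have e0 := Run7.h590.KF.LCD.integrable hρ
  have e3 : ∫ x, (x - m) ^ 2 * ρ x = (∫ x, x ^ 2 * ρ x) - (∫ x, x * ρ x) ^ 2 := by
    have e4 : (fun x => (x - m) ^ 2 * ρ x) =
        fun x => x ^ 2 * ρ x - 2 * m * (x ^ 1 * ρ x) + m ^ 2 * ρ x := by
      funext x
      ring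
    have e5 : Integrable fun x => 2 * m * (x ^ 1 * ρ x) := e1.const_mul _
    have e6 : Integrable fun x => m ^ 2 * ρ x := e0.const_mul _
    have e7 : Integrable fun x => x ^ 2 * ρ x - 2 * m * (x ^ 1 * ρ x) := h2.sub e5
    rw [e4, integral_add e7 e6, integral_sub h2 e5, integral_const_mul, integral_const_mul,
      Run7.h590.KF.LCD.integral hρ]
    simp only [pow_one]
    rw [← hm]
    ring
  rw [e3]
  field_simp
  ring

end Run7.h523.KF
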