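import Pool.Agent.Run7.h523.KF.Iface2

/-!
# Project KF (helper523), piece QA (helper704)
-/

set_option autoImplicit false
set_option linter.all false

namespace Run7.h523.KF

open MeasureTheory Set Filter Topology
open scoped ENNReal

section
variable {ρ : ℝ → ℝ}

lemma LCD.int (hρ : LCD ρ) : Integrable ρ := by
  refine ⟨hρ.meas.aestronglyMeasurable, ?_⟩
  rw [hasFiniteIntegral_iff_ofReal (Eventually.of_forall hρ.nonneg), hρ.mass]
  exact ENNReal.one_lt_top

lemma LCD.tot (hρ : LCD ρ) : ∫ x, ρ x = 1 := by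
  rw [integral_eq_lintegral_of_nonneg_ae (Eventually.of_forall hρ.nonneg)
    hρ.meas.aestronglyMeasurable, hρ.mass, ENNReal.toReal_one]

lemma FF_nonneg (hρ : LCD ρ) (x : ℝ) : 0 ≤ FF ρ x :=
  setIntegral_nonneg measurableSet_Iic fun t _ => hρ.nonneg t

lemma FF_compl (hρ : LCD ρ) (x : ℝ) : ∫ t in Ioi x, ρ t = 1 - FF ρ x := by
  have h := integral_add_compl (measurableSet_Iic (a := x)) hρ.int
  rw [compl_Iic, hρ.tot] at h
  unfold FF
  linarith

lemma FF_le_one (hρ : LCD ρ) (x : ℝ) : FF ρ x ≤ 1 := by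
  have h := FF_compl hρ x
  have h2 : 0 ≤ ∫ t in Ioi x, ρ t := setIntegral_nonneg measurableSet_Ioi fun t _ => hρ.nonneg t
  linarith

lemma FF_mono (hρ : LCD ρ) : Monotone (FF ρ) := by
  intro x y hxy
  exact setIntegral_mono_set hρ.int.integrableOn (Eventually.of_forall hρ.nonneg)
    (Iic_subset_Iic.2 hxy).eventuallyLE

lemma FF_sub (hρ : LCD ρ) (x y : ℝ) : FF ρ y - FF ρ x = ∫ t in x..y, ρ t :=
  intervalIntegral.integral_Iic_sub_Iic hρ.int.integrableOn hρ.int.integrableOn

lemma FF_cont (hρ : LCD ρ) : Continuous (FF ρ) := by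
  have h : FF ρ = fun x => FF ρ 0 + ∫ t in (0 : ℝ)..x, ρ t := by
    funext x
    rw [← FF_sub hρ]
    ring
  rw [h]
  exact continuous_const.add (intervalIntegral.continuous_primitive
    (fun a b => hρ.int.intervalIntegrable) 0)

lemma FF_exists (hρ : LCD ρ) (c : ℝ) (hc0 : 0 < c) (hc1 : c < 1) : ∃ x, FF ρ x = c := by
  have h1 : Tendsto (fun n : ℕ => ∫ t in Iic (n : ℝ), ρ t) atTop (𝓝 (∫ t in ⋃ n : ℕ, Iic (n : ℝ), ρ t)) :=
    tendsto_setIntegral_of_monotone (fun _ => measurableSet_Iic)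
      (fun m n hmn => Iic_subset_Iic.2 (by exact_mod_cast hmn)) hρ.int.integrableOn
  have e1 : (⋃ n : ℕ, Iic (n : ℝ)) = univ := by
    ext x
    simp only [mem_iUnion, mem_Iic, mem_univ, iff_true]
    exact exists_nat_ge x
  rw [e1, setIntegral_univ, hρ.tot] at h1
  have h2 : Tendsto (fun n : ℕ => ∫ t in Iic (-(n : ℝ)), ρ t) atTop
      (𝓝 (∫ t in ⋂ n : ℕ, Iic (-(n : ℝ)), ρ t)) :=
    tendsto_setIntegral_of_antitone (fun _ => measurableSet_Iic)
      (fun m n hmn => Iic_subset_Iic.2 (by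
        have : (m : ℝ) ≤ n := by exact_mod_cast hmn
        linarith)) ⟨0, hρ.int.integrableOn⟩
  have e2 : (⋂ n : ℕ, Iic (-(n : ℝ))) = ∅ := by
    ext x
    simp only [mem_iInter, mem_Iic, mem_empty_iff_false, iff_false, not_forall, not_le]
    obtain ⟨n, hn⟩ := exists_nat_gt (-x)
    exact ⟨n, by linarith⟩
  rw [e2, setIntegral_empty] at h2
  obtain ⟨n, hn⟩ := (h1.eventually (lt_mem_nhds hc1)).exists
  obtain ⟨k, hk⟩ := (h2.eventually (gt_mem_nhds hc0)).exists
  have := mem_range_of_exists_le_of_exists_ge (FF_cont hρ) ⟨-(k : ℝ), hk.le⟩ ⟨(n : ℝ), hn.le⟩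
  exact this

/-- the ratio inequality -/
lemma LCD.ratio (hρ : LCD ρ) {x x' u : ℝ} (hx : x < x') (hu : 0 ≤ u) :
    ρ x * ρ (x' + u) ≤ ρ (x + u) * ρ x' := by
  rcases eq_or_lt_of_le hu with rfl | hu
  · simp
  set t : ℝ := u / (x' - x + u) with ht
  have hd : 0 < x' - x + u := by linarith
  have ht0 : 0 < t := div_pos hu hd
  have ht1 : t < 1 := by
    rw [ht, div_lt_one hd]
    linarith
  have htd : t * (x' - x + u) = u := by
    rw [ht]
    exact div_mul_cancel₀ u hd.ne'
  have h1 := hρ.logc x (x' + u) t ht0 ht1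
  have h2 := hρ.logc x (x' + u) (1 - t) (by linarith) (by linarith)
  have e1 : (1 - t) * x + t * (x' + u) = x + u := by nlinarith
  have e2 : (1 - (1 - t)) * x + (1 - t) * (x' + u) = x' := by nlinarith
  rw [e1] at h1
  rw [e2, sub_sub_cancel] at h2
  have a0 := hρ.nonneg x
  have b0 := hρ.nonneg (x' + u)
  have e3 : ρ x ^ (1 - t) * ρ x ^ t = ρ x := by
    rw [← Real.rpow_add' a0 (by norm_num), sub_add_cancel, Real.rpow_one]
  have e4 : ρ (x' + u) ^ t * ρ (x' + u) ^ (1 - t) = ρ (x' + u) := by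
    rw [← Real.rpow_add' b0 (by norm_num), add_sub_cancel, Real.rpow_one]
  calc ρ x * ρ (x' + u) = (ρ x ^ (1 - t) * ρ x ^ t) * (ρ (x' + u) ^ t * ρ (x' + u) ^ (1 - t)) := by
        rw [e3, e4]
    _ = (ρ x ^ (1 - t) * ρ (x' + u) ^ t) * (ρ x ^ t * ρ (x' + u) ^ (1 - t)) := by ring
    _ ≤ ρ (x + u) * ρ x' := mul_le_mul h1 h2 (mul_nonneg (Real.rpow_nonneg a0 _)
        (Real.rpow_nonneg b0 _)) (hρ.nonneg _)

lemma LCD.up (hρ : LCD ρ) {x x' : ℝ} (hx : x < x') :
    ρ x * (1 - FF ρ x') ≤ ρ x' * (1 - FF ρ x) := by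
  have hI : ∀ y, Integrable ((Ioi y).indicator ρ) := fun y => hρ.int.indicator measurableSet_Ioi
  have e : ∀ y, ∫ u, (Ioi y).indicator ρ (y + u) = 1 - FF ρ y := by
    intro y
    rw [integral_add_left_eq_self (fun t => (Ioi y).indicator ρ t) y,
      integral_indicator measurableSet_Ioi, FF_compl hρ]
  rw [← e x, ← e x', ← integral_const_mul, ← integral_const_mul]
  refine integral_mono (((hI x').comp_add_left x').const_mul _) (((hI x).comp_add_left x).const_mul _) ?_
  intro u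
  show ρ x * (Ioi x').indicator ρ (x' + u) ≤ ρ x' * (Ioi x).indicator ρ (x + u)
  by_cases hu : 0 < u
  · rw [indicator_of_mem (show x' + u ∈ Ioi x' by rw [mem_Ioi]; linarith),
      indicator_of_mem (show x + u ∈ Ioi x by rw [mem_Ioi]; linarith)]
    have := hρ.ratio hx hu.le
    linarith
  · rw [indicator_of_notMem (show x' + u ∉ Ioi x' by rw [mem_Ioi]; linarith),
      indicator_of_notMem (show x + u ∉ Ioi x by rw [mem_Ioi]; linarith)]
    simp

lemma LCD.down (hρ : LCD ρ) {x x' : ℝ} (hx : x < x') :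
    ρ x' * FF ρ x ≤ ρ x * FF ρ x' := by
  have hI : ∀ y, Integrable ((Iic y).indicator ρ) := fun y => hρ.int.indicator measurableSet_Iic
  have e : ∀ y, ∫ u, (Iic y).indicator ρ (y - u) = FF ρ y := by
    intro y
    rw [integral_sub_left_eq_self (fun t => (Iic y).indicator ρ t) volume y,
      integral_indicator measurableSet_Iic]
    rfl
  rw [← e x, ← e x', ← integral_const_mul, ← integral_const_mul]
  refine integral_mono (((hI x).comp_sub_left x).const_mul _) (((hI x').comp_sub_left x').const_mul _) ?_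
  intro u
  show ρ x' * (Iic x).indicator ρ (x - u) ≤ ρ x * (Iic x').indicator ρ (x' - u)
  by_cases hu : 0 ≤ u
  · rw [indicator_of_mem (show x' - u ∈ Iic x' by rw [mem_Iic]; linarith),
      indicator_of_mem (show x - u ∈ Iic x by rw [mem_Iic]; linarith)]
    have := hρ.ratio (x := x - u) (x' := x' - u) (u := u) (by linarith) hu
    rw [sub_add_cancel, sub_add_cancel] at this
    linarith
  · rw [indicator_of_notMem (show x' - u ∉ Iic x' by rw [mem_Iic]; linarith),
      indicator_of_notMem (show x - u ∉ Iic x by rw [mem_Iic]; linarith)]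
    simp

end

theorem t_QA : S_QA := by
  intro ρ hρ
  obtain ⟨m, hm⟩ := FF_exists hρ (1 / 2) (by norm_num) (by norm_num)
  have h2 : ∀ x, ρ x ≤ 2 * ρ m := by
    intro x
    rcases lt_trichotomy x m with h | h | h
    · have h3 := hρ.up h
      have h4 := FF_nonneg hρ x
      have h5 := hρ.nonneg m
      rw [hm] at h3
      nlinarith
    · rw [h]
      linarith [hρ.nonneg m]
    · have h3 := hρ.down h
      have h4 := FF_le_one hρ x
      have h5 := hρ.nonneg m
      rw [hm] at h3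
      nlinarith
  refine ⟨m, hm, ?_, h2, ?_⟩
  · by_contra hcon
    have h0 : ∀ x, ρ x = 0 := fun x => le_antisymm (by linarith [h2 x]) (hρ.nonneg x)
    have h1 := hρ.mass
    simp [h0] at h1
  · intro x
    have h0 := hρ.nonneg m
    have h1 := FF_nonneg hρ x
    have h3 := FF_le_one hρ x
    rcases lt_trichotomy x m with h | h | h
    · have h4 := hρ.down h
      rw [hm] at h4
      have h5 : ρ m * FF ρ x * (1 - FF ρ x) ≤ ρ m * FF ρ x :=
        mul_le_of_le_one_right (mul_nonneg h0 h1) (by linarith)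
      nlinarith
    · rw [h, hm]
      nlinarith
    · have h4 := hρ.up h
      rw [hm] at h4
      have h5 : ρ m * (1 - FF ρ x) * FF ρ x ≤ ρ m * (1 - FF ρ x) :=
        mul_le_of_le_one_right (mul_nonneg h0 (by linarith)) h3
      nlinarith

end Run7.h523.KF
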