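import Pool.Agent.Run7.h523.KF.QA

/-!
# Project KF (helper523), piece QB (helper704)
-/

set_option autoImplicit false
set_option linter.all false

namespace Run7.h523.KF

open MeasureTheory Set Filter Topology
open scoped ENNReal

theorem t_QB : S_QB := by
  intro ρ hρ hpos
  set U : Set ℝ := {x | 0 < FF ρ x ∧ FF ρ x < 1} with hU
  have hFc := FF_cont hρ
  have hFm := FF_mono hρ
  have hUo : IsOpen U := (isOpen_lt continuous_const hFc).inter (isOpen_lt hFc continuous_const)
  have hUoc : OrdConnected U := by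
    refine ⟨fun x hx y hy z hz => ?_⟩
    exact ⟨lt_of_lt_of_le hx.1 (hFm hz.1), lt_of_le_of_lt (hFm hz.2) hy.2⟩
  have hUc : Convex ℝ U := hUoc.convex
  have hρU : ∀ x ∈ U, 0 < ρ x := fun x hx => hpos x hx.1 hx.2
  -- continuity of the density
  have hconc : ConcaveOn ℝ U fun x => Real.log (ρ x) := by
    refine ⟨hUc, fun x hx y hy a b ha hb hab => ?_⟩
    have hx' := hρU x hx
    have hy' := hρU y hy
    simp only [smul_eq_mul]
    rcases eq_or_lt_of_le ha with rfl | ha
    · have : b = 1 := by linarith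
      subst this
      simp
    rcases eq_or_lt_of_le hb with rfl | hb
    · have : a = 1 := by linarith
      subst this
      simp
    have h1 := hρ.logc x y b hb (by linarith)
    have ea : 1 - b = a := by linarith
    rw [ea] at h1
    have h2 := Real.log_le_log (by positivity) h1
    rwa [Real.log_mul (by positivity) (by positivity), Real.log_rpow hx', Real.log_rpow hy'] at h2
  have hρc : ContinuousOn ρ U := by
    have h1 : ContinuousOn (fun x => Real.exp (Real.log (ρ x))) U :=
      Real.continuous_exp.comp_continuousOn (hconc.continuousOn hUo)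
    refine h1.congr fun x hx => ?_
    exact (Real.exp_log (hρU x hx)).symm
  -- the derivative of the distribution function
  have hFd : ∀ x ∈ U, HasDerivAt (FF ρ) (ρ x) x := by
    intro x hx
    have h1 : HasDerivAt (fun y => ∫ t in (0 : ℝ)..y, ρ t) (ρ x) x := by
      refine intervalIntegral.integral_hasDerivAt_right hρ.int.intervalIntegrable ?_
        (hρc.continuousAt (hUo.mem_nhds hx))
      exact hρ.meas.stronglyMeasurable.stronglyMeasurableAtFilter
    have h2 : FF ρ = fun y => FF ρ 0 + ∫ t in (0 : ℝ)..y, ρ t := by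
      funext y
      rw [← FF_sub hρ]
      ring
    rw [h2]
    exact h1.const_add _
  have hFs : StrictMonoOn (FF ρ) U := by
    refine strictMonoOn_of_deriv_pos hUc hFc.continuousOn fun x hx => ?_
    rw [hUo.interior_eq] at hx
    rw [(hFd x hx).deriv]
    exact hρU x hx
  -- the quantile function
  have hex : ∀ y : ℝ, ∃ x : ℝ, y ∈ Ioo (-1 : ℝ) 1 → FF ρ x = (1 + y) / 2 := by
    intro y
    by_cases hy : y ∈ Ioo (-1 : ℝ) 1
    · obtain ⟨x, hx⟩ := FF_exists hρ ((1 + y) / 2) (by linarith [hy.1]) (by linarith [hy.2])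
      exact ⟨x, fun _ => hx⟩
    · exact ⟨0, fun h => absurd h hy⟩
  choose T hT using hex
  have hTU : ∀ y ∈ Ioo (-1 : ℝ) 1, T y ∈ U := by
    intro y hy
    rw [hU, mem_ofPred_eq, hT y hy]
    constructor
    · linarith [hy.1]
    · linarith [hy.2]
  have hTs : StrictMonoOn T (Ioo (-1) 1) := by
    intro y hy y' hy' hyy
    by_contra hcon
    push Not at hcon
    have := hFm hcon
    rw [hT y hy, hT y' hy'] at this
    linarith
  have hTim : T '' Ioo (-1) 1 = U := by
    ext x
    constructor
    · rintro ⟨y, hy, rfl⟩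
      exact hTU y hy
    · intro hx
      have hy : 2 * FF ρ x - 1 ∈ Ioo (-1 : ℝ) 1 := ⟨by linarith [hx.1], by linarith [hx.2]⟩
      refine ⟨2 * FF ρ x - 1, hy, ?_⟩
      refine hFs.injOn (hTU _ hy) hx ?_
      rw [hT _ hy]
      ring
  have hTc : ∀ y ∈ Ioo (-1 : ℝ) 1, ContinuousAt T y := fun y hy =>
    hTs.continuousAt_of_image_mem_nhds (isOpen_Ioo.mem_nhds hy)
      (by rw [hTim]; exact hUo.mem_nhds (hTU y hy))
  have hTd : ∀ y ∈ Ioo (-1 : ℝ) 1, HasDerivAt T (1 / (2 * ρ (T y))) y := by
    intro y hy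
    have h1 : HasDerivAt (fun x => 2 * FF ρ x - 1) (2 * ρ (T y)) (T y) :=
      ((hFd (T y) (hTU y hy)).const_mul 2).sub_const 1
    have h2 := h1.of_local_left_inverse (hTc y hy)
      (by have := hρU _ (hTU y hy); positivity)
      (by
        filter_upwards [isOpen_Ioo.mem_nhds hy] with z hz
        rw [hT z hz]
        ring)
    rwa [← one_div] at h2
  refine ⟨T, hTd, ?_, hT, ?_⟩
  · refine ContinuousOn.div continuousOn_const (continuousOn_const.mul ?_) fun y hy => ?_
    · exact hρc.comp (fun y hy => (hTc y hy).continuousWithinAt) fun y hy => hTU y hy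
    · have := hρU _ (hTU y hy)
      positivity
  · -- the law
    have hchange : ∀ φ : ℝ → ℝ≥0∞, ∫⁻ x in U, φ x * ENNReal.ofReal (ρ x) =
        1 / 2 * ∫⁻ y in Ioo (-1 : ℝ) 1, φ (T y) := by
      intro φ
      have h1 := lintegral_image_eq_lintegral_abs_deriv_mul measurableSet_Ioo
        (fun y hy => (hTd y hy).hasDerivWithinAt) hTs.injOn (fun x => φ x * ENNReal.ofReal (ρ x))
      rw [hTim] at h1
      rw [h1, ← lintegral_const_mul' _ _ (by simp)]
      refine setLIntegral_congr_fun measurableSet_Ioo fun y hy => ?_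
      have h2 := hρU _ (hTU y hy)
      have e1 : ENNReal.ofReal |1 / (2 * ρ (T y))| * (φ (T y) * ENNReal.ofReal (ρ (T y))) =
          (ENNReal.ofReal |1 / (2 * ρ (T y))| * ENNReal.ofReal (ρ (T y))) * φ (T y) := by ring
      show ENNReal.ofReal |1 / (2 * ρ (T y))| * (φ (T y) * ENNReal.ofReal (ρ (T y))) = 1 / 2 * φ (T y)
      rw [e1, ← ENNReal.ofReal_mul (abs_nonneg _), abs_of_pos (by positivity)]
      congr 1
      have e2 : 1 / (2 * ρ (T y)) * ρ (T y) = 1 / 2 := by
        field_simp
      rw [e2, ENNReal.ofReal_div_of_pos (by norm_num)]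
      simp
    have hUm : MeasurableSet U := hUo.measurableSet
    -- there is no mass outside of `U`
    have hnull : ∫⁻ x in Uᶜ, ENNReal.ofReal (ρ x) = 0 := by
      have h1 := hchange (fun _ => 1)
      simp only [one_mul] at h1
      have h2 := lintegral_add_compl (μ := volume) (fun x => ENNReal.ofReal (ρ x)) hUm
      rw [hρ.mass, h1] at h2
      have h3 : (1 / 2 : ℝ≥0∞) * ∫⁻ y in Ioo (-1 : ℝ) 1, (1 : ℝ≥0∞) = 1 := by
        rw [lintegral_const, Measure.restrict_apply_univ, Real.volume_Ioo, one_mul]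
        have : (1 : ℝ) - -1 = 2 := by norm_num
        rw [this, ENNReal.ofReal_ofNat, one_div]
        exact ENNReal.inv_mul_cancel (by norm_num) (by norm_num)
      rw [h3] at h2
      have h4 : (1 : ℝ≥0∞) + ∫⁻ x in Uᶜ, ENNReal.ofReal (ρ x) = 1 + 0 := by rw [h2, add_zero]
      exact (ENNReal.add_right_inj ENNReal.one_ne_top).1 h4
    have hnull2 : ∀ φ : ℝ → ℝ≥0∞, ∫⁻ x in Uᶜ, φ x * ENNReal.ofReal (ρ x) = 0 := by
      intro φ
      rw [lintegral_eq_zero_iff hρ.meas.ennreal_ofReal] at hnull
      refine (lintegral_congr_ae ?_).trans lintegral_zero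
      filter_upwards [hnull] with x hx
      rw [hx]
      simp
    intro φ hφ
    rw [← lintegral_add_compl (fun x => φ x * ENNReal.ofReal (ρ x)) hUm, hnull2, add_zero, hchange]

end Run7.h523.KF
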