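import Pool.Agent.Run7.h523.KF.Iface2

/-!
# Project KF (helper523), piece QC (helper704)
-/

set_option autoImplicit false
set_option linter.all false

namespace Run7.h523.KF

open MeasureTheory Set Filter Topology
open scoped ENNReal

theorem t_QC : S_QC := by
  intro ρ S m hρ hS hle
  set δ : ℝ := 1 / (2 * S) with hδ
  have hδ0 : 0 < δ := by positivity
  have hSδ : 2 * S * δ = 1 := by
    rw [hδ]
    field_simp
  set A : Set ℝ := Icc (m - δ) (m + δ) with hA
  have hAm : MeasurableSet A := measurableSet_Icc
  -- the pointwise inequality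
  have hpt : ∀ x, A.indicator (fun x => ENNReal.ofReal (S * (x - m) ^ 2)) x +
      ENNReal.ofReal (δ ^ 2) * ENNReal.ofReal (ρ x) ≤
      ENNReal.ofReal ((x - m) ^ 2) * ENNReal.ofReal (ρ x) +
        A.indicator (fun _ => ENNReal.ofReal (S * δ ^ 2)) x := by
    intro x
    have h0 := hρ.nonneg x
    by_cases hx : x ∈ A
    · rw [indicator_of_mem hx, indicator_of_mem hx, ← ENNReal.ofReal_mul (by positivity),
        ← ENNReal.ofReal_mul (by positivity), ← ENNReal.ofReal_add (by positivity) (by positivity),
        ← ENNReal.ofReal_add (by positivity) (by positivity)]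
      refine ENNReal.ofReal_le_ofReal ?_
      have hx' : (x - m) ^ 2 ≤ δ ^ 2 := by
        rw [sq_le_sq, abs_of_pos hδ0, abs_le]
        constructor
        · linarith [hx.1]
        · linarith [hx.2]
      nlinarith [hle x, mul_nonneg (sub_nonneg.2 hx') (sub_nonneg.2 (hle x))]
    · rw [indicator_of_notMem hx, indicator_of_notMem hx, zero_add, add_zero,
        ← ENNReal.ofReal_mul (by positivity), ← ENNReal.ofReal_mul (by positivity)]
      refine ENNReal.ofReal_le_ofReal (mul_le_mul_of_nonneg_right ?_ h0)
      rw [sq_le_sq, abs_of_pos hδ0]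
      by_contra hcon
      push Not at hcon
      rw [abs_lt] at hcon
      exact hx ⟨by linarith [hcon.1], by linarith [hcon.2]⟩
  have hint := lintegral_mono (μ := volume) hpt
  have hm1 : Measurable (A.indicator fun x => ENNReal.ofReal (S * (x - m) ^ 2)) :=
    (by fun_prop : Measurable fun x : ℝ => ENNReal.ofReal (S * (x - m) ^ 2)).indicator hAm
  rw [lintegral_add_left hm1, lintegral_add_right _ (measurable_const.indicator hAm),
    lintegral_indicator hAm, lintegral_indicator hAm, lintegral_const_mul _ hρ.meas.ennreal_ofReal,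
    hρ.mass, mul_one, lintegral_const, Measure.restrict_apply_univ, hA, Real.volume_Icc] at hint
  -- the integral over `A`
  have e1 : ∫⁻ x in Icc (m - δ) (m + δ), ENNReal.ofReal (S * (x - m) ^ 2) =
      ENNReal.ofReal (1 / (12 * S ^ 2)) := by
    rw [← ofReal_integral_eq_lintegral_ofReal
      ((by fun_prop : Continuous fun x : ℝ => S * (x - m) ^ 2).continuousOn.integrableOn_compact
        isCompact_Icc) (Eventually.of_forall fun x => by positivity)]
    congr 1
    rw [integral_Icc_eq_integral_Ioc, ← intervalIntegral.integral_of_le (by linarith),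
      intervalIntegral.integral_const_mul,
      intervalIntegral.integral_comp_sub_right (fun x => x ^ 2) m, integral_pow]
    have e2 : m - δ - m = -δ := by ring
    have e3 : m + δ - m = δ := by ring
    rw [e2, e3]
    have e4 : δ = 1 / (2 * S) := hδ
    rw [e4]
    push_cast
    field_simp
    norm_num
  have e5 : ENNReal.ofReal (S * δ ^ 2) * ENNReal.ofReal (m + δ - (m - δ)) = ENNReal.ofReal (δ ^ 2) := by
    rw [← ENNReal.ofReal_mul (by positivity)]
    congr 1
    have : S * δ ^ 2 * (m + δ - (m - δ)) = (2 * S * δ) * δ ^ 2 := by ring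
    rw [this, hSδ, one_mul]
  rw [e1, e5] at hint
  exact (ENNReal.add_le_add_iff_right ENNReal.ofReal_ne_top).1 hint

end Run7.h523.KF
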