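import Pool.Agent.Run7.h523.KF.Iface2

/-!
# Project KF (helper523), piece QNT (helper704)
-/

set_option autoImplicit false
set_option linter.all false

namespace Run7.h523.KF

open MeasureTheory Set Filter Topology
open scoped ENNReal

theorem t_QNT (hQA : S_QA) (hQB : S_QB) (hQC : S_QC) : S_QNT := by
  intro ρ hρ
  obtain ⟨m₀, hm, hm0, hmax, hlow⟩ := hQA ρ hρ
  obtain ⟨T, hTd, hTc, hTF, hlaw⟩ := hQB ρ hρ (fun x h0 h1 => by
    have h2 := hlow x
    have h3 : 0 < 2 * ρ m₀ * (FF ρ x * (1 - FF ρ x)) := by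
      have : 0 < 1 - FF ρ x := by linarith
      positivity
    linarith)
  have hlowT : ∀ y ∈ Ioo (-1 : ℝ) 1, ρ m₀ * (1 - y ^ 2) ≤ 2 * ρ (T y) := by
    intro y hy
    have h1 := hlow (T y)
    rw [hTF y hy] at h1
    nlinarith
  have hTpos : ∀ y ∈ Ioo (-1 : ℝ) 1, 0 < ρ (T y) := by
    intro y hy
    have h1 := hlowT y hy
    have h2 : 0 < 1 - y ^ 2 := by nlinarith [hy.1, hy.2]
    have h3 : 0 < ρ m₀ * (1 - y ^ 2) := by positivity
    linarith
  refine ⟨T, fun y => 1 / (2 * ρ (T y)), 1 / ρ m₀, by positivity,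
    ⟨hTd, hTc, fun y hy => ?_, fun y hy => ?_, hlaw⟩, ?_⟩
  · have := hTpos y hy
    positivity
  · have h1 := hTpos y hy
    have h2 := hlowT y hy
    show (1 - y ^ 2) * (1 / (2 * ρ (T y))) ≤ 1 / ρ m₀
    rw [mul_one_div, div_le_div_iff₀ (by positivity) hm0]
    linarith
  · intro m
    have h1 := hQC ρ (2 * ρ m₀) m hρ (by positivity) hmax
    have e1 : ENNReal.ofReal ((1 / ρ m₀) ^ 2) = 48 * ENNReal.ofReal (1 / (12 * (2 * ρ m₀) ^ 2)) := by
      rw [show (48 : ℝ≥0∞) = ENNReal.ofReal 48 by norm_num, ← ENNReal.ofReal_mul (by norm_num)]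
      congr 1
      field_simp
      norm_num
    rw [e1]
    exact mul_le_mul_right h1 48

end Run7.h523.KF
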