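import Pool.Agent.Run7.h523.KF.Iface2
import Pool.Agent.Run7.h961.KF.SYMA
import Pool.Agent.H988R2.Gauss

/-!
# Project KF (helper523), piece TRN (helper704)
-/

set_option autoImplicit false
set_option linter.all false

namespace Run7.h523.KF

open MeasureTheory Set Filter Topology
open scoped ENNReal

theorem t_TRN : S_TRN := by
  classical
  intro P _ _ R ρ T T' B hR hρ hT Φ hΦ
  have hTc : ContinuousOn T (Ioo (-1) 1) := fun y hy =>
    (hT.deriv y hy).continuousAt.continuousWithinAt
  have hTs : StrictMonoOn T (Ioo (-1) 1) := by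
    refine strictMonoOn_of_deriv_pos (convex_Ioo _ _) hTc fun y hy => ?_
    rw [interior_Ioo] at hy
    rw [(hT.deriv y hy).deriv]
    exact hT.pos y hy
  set T₀ : ℝ → ℝ := (Ioo (-1 : ℝ) 1).piecewise T (fun _ => 0) with hT₀
  have hT₀m : Measurable T₀ := hTc.measurable_piecewise continuousOn_const measurableSet_Ioo
  have hT₀e : ∀ y ∈ Ioo (-1 : ℝ) 1, T₀ y = T y := fun y hy => piecewise_eq_of_mem _ _ _ hy
  have hρm : Measurable fun x => ENNReal.ofReal (ρ x) := hρ.meas.ennreal_ofReal
  set lam : Measure ℝ := volume.withDensity (fun x => ENNReal.ofReal (ρ x)) with hlam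
  haveI : IsProbabilityMeasure lam := ⟨by
    rw [hlam, withDensity_apply _ MeasurableSet.univ, setLIntegral_univ]
    exact hρ.mass⟩
  set μ : Measure ℝ := (1 / 2 : ℝ≥0∞) • (volume : Measure ℝ).restrict (Ioo (-1 : ℝ) 1) with hμ
  haveI : IsFiniteMeasure μ := by
    refine ⟨?_⟩
    rw [hμ, Measure.smul_apply, Measure.restrict_apply_univ, Real.volume_Ioo, smul_eq_mul]
    exact ENNReal.mul_lt_top (by simp) ENNReal.ofReal_lt_top
  -- the image of `μ`
  have hmap : μ.map T₀ = lam := by
    refine Measure.ext fun A hA => ?_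
    rw [Measure.map_apply hT₀m hA, hlam, withDensity_apply _ hA, ← lintegral_indicator hA]
    have h1 := hT.law (A.indicator fun _ => 1) (measurable_const.indicator hA)
    have e1 : ∀ x, A.indicator (fun _ => (1 : ℝ≥0∞)) x * ENNReal.ofReal (ρ x) =
        A.indicator (fun x => ENNReal.ofReal (ρ x)) x := by
      intro x
      by_cases hx : x ∈ A
      · rw [indicator_of_mem hx, indicator_of_mem hx, one_mul]
      · rw [indicator_of_notMem hx, indicator_of_notMem hx, zero_mul]
    simp only [e1] at h1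
    rw [h1, hμ, Measure.smul_apply, smul_eq_mul, Measure.restrict_apply (hT₀m hA)]
    congr 1
    have e2 : ∫⁻ y in Ioo (-1 : ℝ) 1, A.indicator (fun _ => (1 : ℝ≥0∞)) (T y) =
        ∫⁻ y in Ioo (-1 : ℝ) 1, (T₀ ⁻¹' A).indicator (fun _ => (1 : ℝ≥0∞)) y := by
      refine setLIntegral_congr_fun measurableSet_Ioo fun y hy => ?_
      by_cases h : T y ∈ A
      · rw [indicator_of_mem h, indicator_of_mem (show y ∈ T₀ ⁻¹' A by rw [mem_preimage, hT₀e y hy]; exact h)]
      · rw [indicator_of_notMem h,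
          indicator_of_notMem (show y ∉ T₀ ⁻¹' A by rw [mem_preimage, hT₀e y hy]; exact h)]
    rw [e2, lintegral_indicator (hT₀m hA), lintegral_const, one_mul, Measure.restrict_apply_univ,
      Measure.restrict_apply (hT₀m hA)]
  -- products
  have hpi : (Measure.pi fun _ : P => μ).map (fun y v => T₀ (y v)) = Measure.pi fun _ : P => lam := by
    haveI : ∀ i : P, SigmaFinite ((fun _ : P => μ) i |>.map ((fun _ : P => T₀) i)) := fun i => by
      show SigmaFinite (μ.map T₀)
      rw [hmap]
      infer_instance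
    have h1 := Measure.pi_map_pi (μ := fun _ : P => μ) (f := fun _ : P => T₀)
      (fun _ => hT₀m.aemeasurable)
    rw [hmap] at h1
    exact h1
  have hd : (Measure.pi fun _ : P => lam) =
      (volume : Measure (P → ℝ)).withDensity fun x => ∏ v, ENNReal.ofReal (ρ (x v)) :=
    Pool.Agent.H988R2.pi_withDensity_real (fun _ : P => fun x => ENNReal.ofReal (ρ x))
      (fun _ => hρm) (fun _ => by
        show SigmaFinite lam
        infer_instance)
  set cube : Set (P → ℝ) := Set.pi univ fun _ : P => Ioo (-1 : ℝ) 1 with hcube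
  have hcm : MeasurableSet cube := MeasurableSet.univ_pi fun _ => measurableSet_Ioo
  have hpm : (Measure.pi fun _ : P => μ) =
      ((1 / 2 : ℝ≥0∞) ^ Fintype.card P) • (volume : Measure (P → ℝ)).restrict cube := by
    refine Measure.pi_eq fun s hs => ?_
    rw [Measure.smul_apply, hcube, volume_pi, Measure.restrict_pi_pi, Measure.pi_pi, smul_eq_mul]
    simp only [hμ, Measure.smul_apply, smul_eq_mul]
    rw [Finset.prod_mul_distrib, Finset.prod_const, Finset.card_univ]
  have hKCm : MeasurableSet (KC R) := Run7.h961.KF.meas_KC R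
  have hmm : Measurable fun y : P → ℝ => fun v => T₀ (y v) :=
    measurable_pi_lambda _ fun v => hT₀m.comp (measurable_pi_apply v)
  -- the computation
  have hprodm : Measurable fun x : P → ℝ => ∏ v, ENNReal.ofReal (ρ (x v)) :=
    Finset.measurable_prod _ fun v _ => hρm.comp (measurable_pi_apply v)
  have s1 : ∫⁻ x in KC R, Φ x * ∏ v, ENNReal.ofReal (ρ (x v)) =
      ∫⁻ x, (KC R).indicator Φ x ∂(Measure.pi fun _ : P => lam) := by
    rw [lintegral_indicator hKCm, hd, setLIntegral_withDensity_eq_setLIntegral_mul _ hprodm hΦ hKCm]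
    refine lintegral_congr fun x => ?_
    rw [Pi.mul_apply, mul_comm]
  rw [s1, ← hpi, lintegral_map (hΦ.indicator hKCm) hmm, hpm, lintegral_smul_measure, smul_eq_mul]
  congr 1
  -- on the open cube
  have hord : ∀ y ∈ cube, ((fun v => T₀ (y v)) ∈ KC R ↔ y ∈ KK R) := by
    intro y hy
    have hy' : ∀ v, y v ∈ Ioo (-1 : ℝ) 1 := fun v => hy v (mem_univ v)
    have hle : ∀ v w, T₀ (y v) ≤ T₀ (y w) ↔ y v ≤ y w := by
      intro v w
      rw [hT₀e _ (hy' v), hT₀e _ (hy' w)]
      exact hTs.le_iff_le (hy' v) (hy' w)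
    have hsv : ∀ a b, R a b → (sv (fun v => T₀ (y v)) a ≤ sv (fun v => T₀ (y v)) b ↔
        sv y a ≤ sv y b) := by
      intro a b hab
      obtain ⟨h1, h2⟩ := hR a b hab
      unfold sv
      rw [if_pos h1, if_pos h2, if_pos h1, if_pos h2]
      exact hle _ _
    unfold KC KK
    simp only [mem_ofPred_eq]
    constructor
    · intro h
      exact ⟨fun v => ⟨(hy' v).1.le, (hy' v).2.le⟩, fun a b hab => (hsv a b hab).1 (h a b hab)⟩
    · intro h a b hab
      exact (hsv a b hab).2 (h.2 a b hab)
  have s2 : ∫⁻ y in cube, (KC R).indicator Φ (fun v => T₀ (y v)) =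
      ∫⁻ y in cube, (KK R).indicator (fun y => Φ fun v => T (y v)) y := by
    refine setLIntegral_congr_fun hcm fun y hy => ?_
    have e1 : (fun v => T₀ (y v)) = fun v => T (y v) := by
      funext v
      exact hT₀e _ (hy v (mem_univ v))
    by_cases h : y ∈ KK R
    · rw [indicator_of_mem h, indicator_of_mem ((hord y hy).2 h), e1]
    · rw [indicator_of_notMem h, indicator_of_notMem (fun h' => h ((hord y hy).1 h'))]
  rw [s2]
  have hKKm : MeasurableSet (KK R) := by
    have : KK R = (Set.pi univ fun _ : P => Icc (-1 : ℝ) 1) ∩ KC R := by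
      ext y
      simp only [KK, KC, mem_ofPred_eq, mem_inter_iff, Set.mem_pi, mem_univ, true_implies, mem_Icc]
    rw [this]
    exact (MeasurableSet.univ_pi fun _ => measurableSet_Icc).inter hKCm
  rw [lintegral_indicator hKKm, Measure.restrict_restrict hKKm]
  refine setLIntegral_congr ?_
  have h1 : cube =ᵐ[volume] Icc (fun _ : P => (-1 : ℝ)) (fun _ => 1) :=
    Measure.univ_pi_Ioo_ae_eq_Icc
  have h2 : KK R ⊆ Icc (fun _ : P => (-1 : ℝ)) (fun _ => 1) := fun y hy =>
    ⟨fun v => (hy.1 v).1, fun v => (hy.1 v).2⟩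
  have h3 : (KK R ∩ cube : Set (P → ℝ)) =ᵐ[volume]
      (KK R ∩ Icc (fun _ : P => (-1 : ℝ)) (fun _ => 1) : Set (P → ℝ)) :=
    ae_eq_set_inter (ae_eq_refl _) h1
  rwa [inter_eq_left.2 h2] at h3

end Run7.h523.KF
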