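import Pool.Agent.Run7.h523.KF.ALLD
import Pool.Agent.Run7.h523.KF.MST
import Pool.Agent.Run7.h523.KF.FIN4
import Pool.Agent.Run7.h523.KF.LCP1
import Pool.Agent.Run7.h523.KF.LCP2
import Pool.Agent.Run7.h523.KF.QA
import Pool.Agent.Run7.h523.KF.QB
import Pool.Agent.Run7.h523.KF.QC
import Pool.Agent.Run7.h523.KF.QNT
import Pool.Agent.Run7.h523.KF.TRN
import Pool.Agent.Run7.h590.KF.APX
import Pool.Agent.Run7.h590.KF.MOM
import Pool.Agent.Run7.h590.KF.SUM2
import Pool.Agent.Run7.h961.KF.SYMA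

/-!
# Project KF: independent samples of a log-concave law conditioned on a partial order
-/

set_option autoImplicit false

namespace Run7.h523.KF

theorem all_lcp : S_LCP :=
  lcp_of (t_LCP1 (t_QNT t_QA t_QB t_QC) t_TRN Run7.h590.KF.AP.t_APX Run7.h590.KF.MM.t_MOM
      fun P _ _ R hv => master_two all_disc P R hv)
    (t_LCP2 Run7.h961.KF.t_SYMA Run7.h590.KF.t_SUM2 Run7.h590.KF.MM.t_MOM)

end Run7.h523.KF
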