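import Pool.Agent.Run7.h523.KF.ALLC
import Pool.Agent.Run7.h523.KF.ALLD

/-!
# Project KF: the theorem for 1-symmetric measures
-/

set_option autoImplicit false

namespace Run7.h523.KF

theorem all_cmb : ∃ K : ℝ, 0 < K ∧ S_CMB K := cmb_of all_disc

end Run7.h523.KF
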