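import Pool.Agent.Run7.h523.KF.Iface

set_option autoImplicit false

/-!
# Piece CEL1: cells of states are in `K`
-/

namespace Run7.h523.KF

namespace Cel

open MeasureTheory Set Filter Topology

section
variable {P : Type} [Fintype P] [DecidableEq P]

theorem mem_Si {M : ℕ} {z : ℤ} : z ∈ Si M ↔ -(2 * M : ℤ) < z ∧ z < 2 * M ∧ Odd z := by
  unfold Si
  rw [Finset.mem_filter, Finset.mem_Ioo, and_assoc]

open Classical in
theorem mem_Om {R : P × Bool → P × Bool → Prop} {M : ℕ} {x : P → ℤ} :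
    x ∈ Om R M ↔ (∀ v, -(2 * M : ℤ) < x v ∧ x v < 2 * M ∧ Odd (x v)) ∧
      (∀ v w, |x v| = |x w| → v = w) ∧ ∀ a b, R a b → sv x a ≤ sv x b := by
  unfold Om
  rw [Finset.mem_filter, Fintype.mem_piFinset]
  simp only [mem_Si]

omit [Fintype P] [DecidableEq P] in
/-- the position of a signed label in the cell -/
theorem sv_pos_bounds {M : ℕ} (hM : 1 ≤ M) (x : P → ℤ) {y : P → ℝ}
    (h : ∀ w, ((x w : ℝ) - 1) / (2 * M) ≤ y w ∧ y w ≤ ((x w : ℝ) + 1) / (2 * M)) (a : P × Bool) :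
    (((sv x a : ℤ) : ℝ) - 1) / (2 * M) ≤ sv y a ∧ sv y a ≤ (((sv x a : ℤ) : ℝ) + 1) / (2 * M) := by
  have hM0 : (0 : ℝ) < 2 * M := by positivity
  obtain ⟨w, s⟩ := a
  have h1 := h w
  cases s
  · have e1 : ((sv x (w, false) : ℤ) : ℝ) = -(x w : ℝ) := by simp [sv]
    have e2 : sv y (w, false) = -(y w) := by simp [sv]
    rw [e1, e2]
    rw [div_le_iff₀ hM0, le_div_iff₀ hM0]
    rw [div_le_iff₀ hM0, le_div_iff₀ hM0] at h1
    constructor <;> linarith [h1.1, h1.2]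
  · have e1 : ((sv x (w, true) : ℤ) : ℝ) = (x w : ℝ) := by simp [sv]
    have e2 : sv y (w, true) = y w := by simp [sv]
    rw [e1, e2]
    exact h1

omit [Fintype P] [DecidableEq P] in
theorem sv_odd {x : P → ℤ} (h : ∀ v, Odd (x v)) (a : P × Bool) : Odd (sv x a) := by
  unfold sv
  split_ifs
  · exact h _
  · exact (h _).neg

omit [Fintype P] [DecidableEq P] in
theorem sv_abs (x : P → ℤ) (a : P × Bool) : |sv x a| = |x a.1| := by
  unfold sv
  split_ifs
  · rfl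
  · rw [abs_neg]

omit [Fintype P] [DecidableEq P] in
theorem sv_eq_imp {x : P → ℤ} (h : ∀ v, Odd (x v)) (hi : ∀ v w, |x v| = |x w| → v = w)
    {a b : P × Bool} (hab : sv x a = sv x b) : a = b := by
  have h1 : a.1 = b.1 := hi _ _ (by rw [← sv_abs x a, ← sv_abs x b, hab])
  obtain ⟨v, s⟩ := a
  obtain ⟨w, t⟩ := b
  simp only at h1
  subst h1
  have h2 := h v
  have h3 : x v ≠ 0 := by
    intro h0; rw [h0] at h2; exact absurd h2 (by decide)
  cases s <;> cases t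
  · rfl
  · exfalso
    simp only [sv, Bool.false_eq_true, if_false, if_true] at hab
    omega
  · exfalso
    simp only [sv, Bool.false_eq_true, if_false, if_true] at hab
    omega
  · rfl

/-- A point of the closed cell of a state is in `K`. -/
theorem cell_mem_KK {R : P × Bool → P × Bool → Prop} {M : ℕ} (hM : 1 ≤ M) {x : P → ℤ}
    (hx : x ∈ Om R M) {y : P → ℝ}
    (h : ∀ w, ((x w : ℝ) - 1) / (2 * M) ≤ y w ∧ y w ≤ ((x w : ℝ) + 1) / (2 * M)) : y ∈ KK R := by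
  have hM0 : (0 : ℝ) < 2 * M := by positivity
  rw [mem_Om] at hx
  obtain ⟨h1, h2, h3⟩ := hx
  refine ⟨fun v => ?_, fun a b hab => ?_⟩
  · obtain ⟨a1, a2, a3⟩ := h1 v
    obtain ⟨b1, b2⟩ := h v
    obtain ⟨k, hk⟩ := a3
    have c1 : -(2 * M : ℤ) ≤ x v - 1 := by omega
    have c2 : x v + 1 ≤ (2 * M : ℤ) := by omega
    have c1' : -(2 * M : ℝ) ≤ (x v : ℝ) - 1 := by exact_mod_cast c1
    have c2' : (x v : ℝ) + 1 ≤ (2 * M : ℝ) := by exact_mod_cast c2
    constructor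
    · refine le_trans ?_ b1
      rw [le_div_iff₀ hM0]; linarith
    · refine le_trans b2 ?_
      rw [div_le_iff₀ hM0]; linarith
  · have hle := h3 a b hab
    obtain ⟨-, d2⟩ := sv_pos_bounds hM x h a
    obtain ⟨e1, -⟩ := sv_pos_bounds hM x h b
    rcases hle.eq_or_lt with he | hlt
    · rw [sv_eq_imp (fun v => (h1 v).2.2) h2 he]
    · obtain ⟨k, hk⟩ := sv_odd (fun v => (h1 v).2.2) a
      obtain ⟨l, hl⟩ := sv_odd (fun v => (h1 v).2.2) b
      have h4 : sv x a + 1 ≤ sv x b - 1 := by omega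
      have h5 : ((sv x a : ℤ) : ℝ) + 1 ≤ ((sv x b : ℤ) : ℝ) - 1 := by exact_mod_cast h4
      refine d2.trans (le_trans ?_ e1)
      gcongr

omit [Fintype P] [DecidableEq P] in
theorem pos_bounds {M : ℕ} (hM : 1 ≤ M) (x : P → ℤ) {t : P → ℝ} (ht : t ∈ Qb P M) (w : P) :
    ((x w : ℝ) - 1) / (2 * M) ≤ pos M x t w ∧ pos M x t w ≤ ((x w : ℝ) + 1) / (2 * M) := by
  have hM0 : (0 : ℝ) < M := by positivity
  obtain ⟨h1, h2⟩ := ht w
  unfold pos
  refine ⟨by linarith, ?_⟩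
  have : ((x w : ℝ) + 1) / (2 * M) = ((x w : ℝ) - 1) / (2 * M) + 1 / M := by
    field_simp; ring
  rw [this]
  linarith

end

end Cel

open Cel in
theorem t_CEL1 : S_CEL1 := by
  intro P _ _ R M hM x hx t ht
  exact cell_mem_KK hM hx (fun w => pos_bounds hM x ht w)

end Run7.h523.KF
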