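import Pool.Agent.Run7.h523.KF.CEL1

set_option autoImplicit false

/-!
# Piece CEL2: shifted cells
-/

namespace Run7.h523.KF

namespace Cel

open MeasureTheory Set Filter Topology

section
variable {P : Type} [Fintype P] [DecidableEq P]

/-- the shifted half-open cell -/
def Cl (M : ℕ) (x : P → ℤ) (b : P → ℝ) : Set (P → ℝ) :=
  {y | ∀ w, ((x w : ℝ) - 1) / (2 * M) + b w ≤ y w ∧ y w < ((x w : ℝ) - 1) / (2 * M) + b w + 1 / M}

omit [DecidableEq P] in
theorem meas_Cl (M : ℕ) (x : P → ℤ) (b : P → ℝ) : MeasurableSet (Cl M x b) := by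
  have : Cl M x b = Set.pi univ fun w =>
      Ico (((x w : ℝ) - 1) / (2 * M) + b w) (((x w : ℝ) - 1) / (2 * M) + b w + 1 / M) := by
    ext y
    simp only [Cl, Set.mem_ofPred_eq, Set.mem_pi, Set.mem_univ, true_imp_iff, Set.mem_Ico]
  rw [this]
  exact MeasurableSet.univ_pi fun w => measurableSet_Ico

omit [DecidableEq P] in
theorem int_shift (M : ℕ) (x : P → ℤ) (b : P → ℝ) (G : (P → ℝ) → ℝ) :
    ∫ t in Qb P M, G (fun w => pos M x t w + b w) = ∫ y in Cl M x b, G y := by
  set a : P → ℝ := fun w => ((x w : ℝ) - 1) / (2 * M) + b w with ha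
  have h1 := (measurePreserving_add_right (volume : Measure (P → ℝ)) a).setIntegral_preimage_emb
    (MeasurableEquiv.addRight a).measurableEmbedding G (Cl M x b)
  rw [← h1]
  have h2 : (fun t : P → ℝ => t + a) ⁻¹' (Cl M x b) = Qb P M := by
    ext t
    simp only [Cl, Qb, Set.mem_preimage, Set.mem_ofPred_eq, Pi.add_apply, ha]
    refine forall_congr' fun w => ?_
    constructor
    · rintro ⟨c1, c2⟩
      constructor <;> linarith
    · rintro ⟨c1, c2⟩
      constructor <;> linarith
  rw [h2]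
  refine integral_congr_ae (Eventually.of_forall fun t => ?_)
  show G _ = G _
  congr 1
  funext w
  simp only [pos, Pi.add_apply, ha]
  ring

omit [Fintype P] [DecidableEq P] in
theorem disj_Cl {M : ℕ} (hM : 1 ≤ M) {x x' : P → ℤ} (hx : ∀ v, Odd (x v)) (hx' : ∀ v, Odd (x' v))
    (hne : x ≠ x') (b : P → ℝ) : Disjoint (Cl M x b) (Cl M x' b) := by
  have hM0 : (0 : ℝ) < M := by positivity
  rw [Set.disjoint_left]
  intro y hy hy'
  apply hne
  funext w
  obtain ⟨a1, a2⟩ := hy w
  obtain ⟨b1, b2⟩ := hy' w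
  have e : ∀ z : ℝ, (z - 1) / (2 * M) = (z - 1) / 2 / M := by
    intro z; field_simp
  rw [e] at a1 a2 b1 b2
  have h1 : ((x w : ℝ) - 1) / 2 / M < ((x' w : ℝ) - 1) / 2 / M + 1 / M := by linarith
  have h2 : ((x' w : ℝ) - 1) / 2 / M < ((x w : ℝ) - 1) / 2 / M + 1 / M := by linarith
  rw [← add_div, div_lt_div_iff_of_pos_right hM0] at h1 h2
  have h3 : (x w : ℝ) < x' w + 2 := by linarith
  have h4 : (x' w : ℝ) < x w + 2 := by linarith
  have h3' : x w < x' w + 2 := by exact_mod_cast h3
  have h4' : x' w < x w + 2 := by exact_mod_cast h4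
  obtain ⟨k, hk⟩ := hx w
  obtain ⟨l, hl⟩ := hx' w
  omega

omit [Fintype P] [DecidableEq P] in
theorem sv_cont (a : P × Bool) : Continuous fun y : P → ℝ => sv y a := by
  unfold sv
  split_ifs
  · exact continuous_apply _
  · exact (continuous_apply _).neg

omit [Fintype P] [DecidableEq P] in
theorem closed_KK (R : P × Bool → P × Bool → Prop) : IsClosed (KK R) := by
  have : KK R = (⋂ v, {y : P → ℝ | -1 ≤ y v}) ∩ (⋂ v, {y : P → ℝ | y v ≤ 1}) ∩
      ⋂ a, ⋂ b, ⋂ (_ : R a b), {y : P → ℝ | sv y a ≤ sv y b} := by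
    ext y
    simp only [KK, Set.mem_ofPred_eq, Set.mem_inter_iff, Set.mem_iInter]
    constructor
    · rintro ⟨h1, h2⟩
      exact ⟨⟨fun v => (h1 v).1, fun v => (h1 v).2⟩, h2⟩
    · rintro ⟨⟨h1, h2⟩, h3⟩
      exact ⟨fun v => ⟨h1 v, h2 v⟩, h3⟩
  rw [this]
  refine ((isClosed_iInter fun v => isClosed_le continuous_const (continuous_apply v)).inter
    (isClosed_iInter fun v => isClosed_le (continuous_apply v) continuous_const)).inter ?_
  exact isClosed_iInter fun a => isClosed_iInter fun b => isClosed_iInter fun _ =>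
    isClosed_le (sv_cont a) (sv_cont b)

omit [Fintype P] [DecidableEq P] in
theorem compact_KK (R : P × Bool → P × Bool → Prop) : IsCompact (KK R) := by
  refine (isCompact_univ_pi (fun _ : P => isCompact_Icc (a := (-1 : ℝ)) (b := 1))).of_isClosed_subset
    (closed_KK R) ?_
  intro y hy w _
  exact hy.1 w

omit [DecidableEq P] in
theorem int_KK (R : P × Bool → P × Bool → Prop) {G : (P → ℝ) → ℝ} (hG : Continuous G) :
    IntegrableOn G (KK R) :=
  hG.continuousOn.integrableOn_compact (compact_KK R)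

omit [Fintype P] [DecidableEq P] in
theorem conv_KK (R : P × Bool → P × Bool → Prop) : Convex ℝ (KK R) := by
  intro y hy z hz a b ha hb hab
  refine ⟨fun v => ?_, fun p q hpq => ?_⟩
  · obtain ⟨y1, y2⟩ := hy.1 v
    obtain ⟨z1, z2⟩ := hz.1 v
    simp only [Pi.add_apply, Pi.smul_apply, smul_eq_mul]
    constructor
    · nlinarith
    · nlinarith
  · have h1 := hy.2 p q hpq
    have h2 := hz.2 p q hpq
    have e : ∀ c : P × Bool, sv (a • y + b • z) c = a * sv y c + b * sv z c := by
      intro c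
      unfold sv
      split_ifs
      · simp only [Pi.add_apply, Pi.smul_apply, smul_eq_mul]
      · simp only [Pi.add_apply, Pi.smul_apply, smul_eq_mul]; ring
    rw [e, e]
    nlinarith [mul_le_mul_of_nonneg_left h1 ha, mul_le_mul_of_nonneg_left h2 hb]

theorem Cl_sub {R : P × Bool → P × Bool → Prop} {M : ℕ} (hM : 1 ≤ M) {x : P → ℤ} {v : P}
    (hx : x ∈ Om R M) (hx' : rt v x ∈ Om R M) {s : ℝ} (hs0 : 0 ≤ s) (hs : s ≤ 1 / M) :
    Cl M x (fun w => if w = v then s else 0) ⊆ KK R := by
  have hM0 : (0 : ℝ) < M := by positivity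
  intro y hy
  set t : P → ℝ := fun w => y w - ((x w : ℝ) - 1) / (2 * M) - (if w = v then s else 0) with ht
  have htQ : t ∈ Qb P M := by
    intro w
    obtain ⟨h1, h2⟩ := hy w
    simp only [ht]
    constructor <;> linarith
  have h0 := t_CEL1 P R M hM x hx t htQ
  have h1 := t_CEL1 P R M hM _ hx' t htQ
  have h2 := conv_KK R h0 h1 (a := 1 - s * M) (b := s * M) (by
    have : s * M ≤ 1 := by
      rw [le_div_iff₀ hM0] at hs; exact hs
    linarith) (by positivity) (by ring)
  convert h2 using 1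
  funext w
  simp only [Pi.add_apply, Pi.smul_apply, smul_eq_mul, pos, ht, rt]
  by_cases hw : w = v
  · subst hw
    simp only [if_true, Function.update_self]
    push_cast
    field_simp
    ring
  · simp only [if_neg hw, Function.update_of_ne hw]
    ring

end

end Cel

open Cel MeasureTheory Set in
theorem t_CEL2 : S_CEL2 := by
  intro P _ _ R M hM v s hs0 hs G hG hG0
  simp only [int_shift]
  have hodd : ∀ x ∈ (Om R M).filter (fun x => rt v x ∈ Om R M), ∀ w, Odd (x w) := by
    intro x hx w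
    rw [Finset.mem_filter] at hx
    exact ((mem_Om.1 hx.1).1 w).2.2
  have hsub : ∀ x ∈ (Om R M).filter (fun x => rt v x ∈ Om R M),
      Cl M x (fun w => if w = v then s else 0) ⊆ KK R := by
    intro x hx
    rw [Finset.mem_filter] at hx
    exact Cl_sub hM hx.1 hx.2 hs0 hs
  rw [← integral_biUnion_finset]
  · refine setIntegral_mono_set (int_KK R hG) (Filter.Eventually.of_forall hG0) ?_
    exact (Set.iUnion₂_subset hsub).eventuallyLE
  · intro x _
    exact meas_Cl M x _
  · intro x hx x' hx' hne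
    exact disj_Cl hM (hodd x hx) (hodd x' hx') hne _
  · intro x hx
    exact (int_KK R hG).mono_set (hsub x hx)

end Run7.h523.KF
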