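import Pool.Agent.Run7.h523.KF.Iface2

/-!
# 1-symmetric log-concave measures conditioned on a cone: interface, third part (helper523)

Let `ρ` be a log-concave probability density on `P → ℝ`, `n = card P`, invariant under permutations and changes of signs of the coordinates, `E x_i² ≤ s`, and
`KC R` any cone given by inequalities `x_v ≤ x_w`, `x_v + x_w ≤ 0`, `0 ≤ x_v + x_w` (also `v = w`), of positive measure. Then the conditional measure has a Poincare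
constant `≤ C s` with an absolute constant.

Proof. `KC R` is (up to a null set) a union of Weyl chambers `Ch x`, `x ∈ Om R n` (all levels occupied). (1) in one chamber: Poincare for symmetric functions (theorem for
1-symmetric measures of the starting files). (2) The means `F_x` over the chambers: discrete Poincare inequality DISC with `M = n` and the weights
`c_j = (1 - (j/n)²)²`, `γ = 1/(2n²)` (SUP2); (3) `(F_x - F_{s_j x})² ≤ 8 E τ_j² E |∇f|²` (BND), `E τ_j² ≤ 256 s/(n-j)²` (GAP), where `τ_j` is the distance to the wall. Only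
linear changes of variables and the monotonicity of `ρ` are used.
-/

set_option autoImplicit false

namespace Run7.h523.KF

open MeasureTheory Set Filter Topology
open scoped ENNReal

/-- 1-symmetric log-concave probability densities -/
structure Sy1 {P : Type} [Fintype P] (ρ : (P → ℝ) → ℝ) : Prop where
  nonneg : ∀ x, 0 ≤ ρ x
  meas : Measurable ρ
  logc : ∀ x y : P → ℝ, ∀ t : ℝ, 0 < t → t < 1 →
    ρ x ^ (1 - t) * ρ y ^ t ≤ ρ ((1 - t) • x + t • y)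
  inv : ∀ σ : Equiv.Perm P, ∀ x y : P → ℝ, (∀ i, |y i| = |x (σ i)|) → ρ y = ρ x
  mass : ∫⁻ x, ENNReal.ofReal (ρ x) = 1

/-- `E x_i² ≤ s` -/
def Mom2 {P : Type} [Fintype P] (ρ : (P → ℝ) → ℝ) (s : ℝ) : Prop :=
  ∀ i, ∫⁻ x, ENNReal.ofReal (x i ^ 2 * ρ x) ≤ ENNReal.ofReal s

/-- admissible functions -/
structure Bf {P : Type} [Fintype P] [DecidableEq P] (f : (P → ℝ) → ℝ) (C : ℝ) : Prop where
  cd : ContDiff ℝ 1 f
  bd : ∀ x, |f x| ≤ C
  db : ∀ x v, |fderiv ℝ f x (Pi.single v 1)| ≤ C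

section defs
variable {P : Type} [Fintype P] [DecidableEq P]

/-- squared length of the gradient -/
noncomputable def gr (f : (P → ℝ) → ℝ) (x : P → ℝ) : ℝ :=
  ∑ v, (fderiv ℝ f x (Pi.single v 1)) ^ 2

/-- all states with `card P` levels (all occupied): they are the Weyl chambers -/
noncomputable def XX (P : Type) [Fintype P] [DecidableEq P] : Finset (P → ℤ) :=
  Om (fun _ _ : P × Bool => False) (Fintype.card P)

/-- the open Weyl chamber of the state `x` -/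
def Ch (x : P → ℤ) : Set (P → ℝ) := {y | ∀ a b, sv x a < sv x b → sv y a < sv y b}

/-- the signed label at the site `z` -/
noncomputable def lab [Nonempty P] (x : P → ℤ) (z : ℤ) : P × Bool :=
  Classical.epsilon fun a => sv x a = z

/-- the reflection exchanging the chambers of `x` and `sx j x` -/
noncomputable def rf [Nonempty P] (x : P → ℤ) (j : ℕ) (y : P → ℝ) : P → ℝ :=
  fun v => sv y (lab x (sb j (x v)))

/-- the value at the level `i = 1, …, n` (positive on `Ch x`, increasing in `i`); `0` for `i = 0` -/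
noncomputable def uu [Nonempty P] (x : P → ℤ) (y : P → ℝ) (i : ℕ) : ℝ :=
  if i = 0 then 0 else sv y (lab x (2 * i - 1))

/-- the gaps, `j = 0, …, n - 1` -/
noncomputable def gp [Nonempty P] (x : P → ℤ) (y : P → ℝ) (j : ℕ) : ℝ := uu x y (j + 1) - uu x y j

/-- second moments of the gaps over the chamber -/
noncomputable def qq [Nonempty P] (ρ : (P → ℝ) → ℝ) (x : P → ℤ) (k l : ℕ) : ℝ :=
  ∫ y in Ch x, gp x y k * gp x y l * ρ y

end defs

/-- **CH0.** Geometry of the chambers, `n = card P`. Proof. `x ∈ XX P`: all `|x v|` are different odd numbers in `{1, …, 2n-1}`, so `v ↦ |x v|` is a bijection, and `a ↦ sv x a` is a bijection from the signed labels onto the sites. `Ch x` is open (finitely many strict inequalities).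
(2) If `y ∈ Ch x ∩ Ch x'` then `sv x a < sv x b ↔ sv y a < sv y b ↔ sv x' a < sv x' b` for all `a ≠ b` (injectivity), so `sv x'`, `sv x` are increasing enumerations of the same set of sites: `x = x'`. (3) If all `y_v ≠ 0` and `|y_v| ≠ |y_w|` for `v ≠ w` then ranking: `x_v = sign(y_v) (2 r_v - 1)`,
`r_v = #{w : |y_w| ≤ |y_v|}` is in `XX P` and `y ∈ Ch x`; the exceptional set is a finite union of hyperplanes. (4) for `x ∈ XX`: `x ∈ Om R n ↔ ∀ a b, R a b → sv x a ≤ sv x b`; `a = b` trivial, otherwise `sv x a < sv x b`, so `sv y a < sv y b` on `Ch x`; if `R a b` and `sv x a > sv x b` then `sv y a > sv y b` on `Ch x`.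
(5) `Om R n ⊂ XX` by definition. -/
def S_CH0 : Prop :=
  ∀ (P : Type) [Fintype P] [DecidableEq P],
    (∀ x ∈ XX P, IsOpen (Ch x)) ∧
    (∀ x ∈ XX P, ∀ x' ∈ XX P, x ≠ x' → Disjoint (Ch x) (Ch x')) ∧
    (volume (⋃ x ∈ XX P, Ch x)ᶜ = 0) ∧
    (∀ R : P × Bool → P × Bool → Prop, Om R (Fintype.card P) ⊆ XX P ∧
      (∀ x ∈ Om R (Fintype.card P), Ch x ⊆ KC R) ∧
      ∀ x ∈ XX P, x ∉ Om R (Fintype.card P) → Disjoint (Ch x) (KC R)) ∧
    ∀ x ∈ XX P, ∀ x' ∈ XX P, ∃ (σ : Equiv.Perm P) (ε : P → ℝ), (∀ v, ε v = 1 ∨ ε v = -1) ∧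
      (∀ v, (x' v : ℝ) = ε v * x (σ v)) ∧ ∀ y, y ∈ Ch x ↔ (fun v => ε v * y (σ v)) ∈ Ch x'

/-- **SPM.** Signed permutations preserve the volume, and all chambers have the same integrals of invariant functions (hypothesis CH0: prove `S_CH0 → S_SPM`). Proof: `volume_preserving_piCongrLeft` / `measurePreserving_piCongrLeft` for the permutation and `x ↦ -x` in some coordinates (`Measure.pi` of measure preserving maps; or
`Real.map_matrix_volume_pi_eq_smul_volume_pi`, determinant `±1`). (b): last part of CH0. (c): the chambers have the same mass, they are disjoint and fill the space: `∑_{x ∈ XX}` of the mass is `1`. -/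
def S_SPM : Prop :=
  ∀ (P : Type) [Fintype P] [DecidableEq P],
    (∀ (σ : Equiv.Perm P) (ε : P → ℝ), (∀ v, ε v = 1 ∨ ε v = -1) →
      MeasurePreserving (fun (y : P → ℝ) v => ε v * y (σ v))) ∧
    ∀ ρ : (P → ℝ) → ℝ, Sy1 ρ → ∀ Φ : (P → ℝ) → ℝ≥0∞, Measurable Φ →
      (∀ (σ : Equiv.Perm P) (x y : P → ℝ), (∀ i, |y i| = |x (σ i)|) → Φ y = Φ x) →
      ∀ x ∈ XX P,
        ((XX P).card : ℝ≥0∞) * ∫⁻ y in Ch x, Φ y * ENNReal.ofReal (ρ y) =
          ∫⁻ y, Φ y * ENNReal.ofReal (ρ y)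

/-- **RF.** The reflection. `x ∈ XX P`, `j < n`. Proof. `lab x z` is the unique signed label at the site `z ∈ Si n` (`a ↦ sv x a` is a bijection onto the sites), `lab x (-z)` is the opposite one, `lab x (x v) = (v, true)`. So `rf x j y` only changes the labels at the levels `2j ± 1`: for `j ≥ 1`, `v`, `w` at these levels and `x_v`, `x_w` of the same sign:
`y_v` and `y_w` are exchanged, if the signs are different: `(y_v, y_w) ↦ (-y_w, -y_v)`; `j = 0`: `y_v ↦ -y_v` for the label at level 1. It is a signed permutation. -/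
def S_RF : Prop :=
  ∀ (P : Type) [Fintype P] [DecidableEq P] [Nonempty P] (x : P → ℤ) (j : ℕ), x ∈ XX P →
    j < Fintype.card P →
    sx j x ∈ XX P ∧ (∀ z ∈ Si (Fintype.card P), sv x (lab x z) = z) ∧
    (∀ a, lab x (sv x a) = a) ∧
    (∃ (σ : Equiv.Perm P) (ε : P → ℝ), (∀ v, ε v = 1 ∨ ε v = -1) ∧
      ∀ y v, rf x j y v = ε v * y (σ v)) ∧
    (∀ y, rf x j (rf x j y) = y) ∧ (∀ y, rf (sx j x) j y = rf x j y) ∧
    (∀ y, y ∈ Ch x ↔ rf x j y ∈ Ch (sx j x)) ∧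
    (∀ y v, |x v| ≠ 2 * j - 1 → |x v| ≠ 2 * j + 1 → rf x j y v = y v) ∧
    (∀ y, ∑ v, (y v - rf x j y v) ^ 2 = if j = 0 then 4 * gp x y 0 ^ 2 else 2 * gp x y j ^ 2) ∧
    (∀ y ∈ Ch x, ∀ i, i < Fintype.card P → 0 < gp x y i) ∧
    ∀ y ∈ Ch x, ∀ θ : ℝ, 0 < θ → θ ≤ 1 →
      (fun v => (1 + θ) / 2 * y v + (1 - θ) / 2 * rf x j y v) ∈ Ch x

/-- **BND.** Means over adjacent chambers (given RF, SPM). Proof. `r = rf x j`, `x' = sx j x`, `n = card P`. `κ_θ y = ((1+θ)/2) y + ((1-θ)/2) r y`, `θ ∈ [-1, 1]`; `κ_{-θ} = r κ_θ`. `∫_{Ch x'} f ρ = ∫_{Ch x} f(r y) ρ(y)` (`r` preserves the volume and `ρ`). For `y ∈ Ch x`: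
`f(y) - f(r y) = ∫_{-1}^1 (1/2) ∑_v ∂_v f(κ_θ y) (y_v - r y_v) dθ`, only the labels with `|x v| = 2j ± 1` occur, so `|f y - f (r y)| ≤ ∫_{-1}^1 τ(y) e(κ_θ y) dθ`, `τ² = (1/4) ∑_v (y_v - r y_v)²`, `e(y)² = ∑_{v : |x v| = 2j ± 1} (∂_v f(y))²`. By Fubini and Cauchy-Schwarz
`|∫_{Ch x} (f - f∘r) ρ| ≤ ∫_{-1}^1 (∫_{Ch x} τ² ρ)^{1/2} (∫_{Ch x} e²(κ_θ y) ρ(y) dy)^{1/2} dθ`. `κ_θ y` is a convex combination of `y` and `r y`, so `ρ(κ_θ y) ≥ ρ(y)` (log-concavity, `ρ(r y) = ρ(y)`). The linear map `κ_θ` has `|det| = |θ|` (`r` is a reflection: eigenvalue `-1` once) and maps `Ch x` into `Ch x` for `θ > 0`, into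
`Ch x'` for `θ < 0`: `∫_{Ch x} e²(κ_θ y) ρ(y) dy ≤ |θ|⁻¹ ∫_{Ch x or Ch x'} e² ρ`. With `∫_0^1 θ^{-1/2} = 2`: `|∫_{Ch x} f ρ - ∫_{Ch x'} f ρ| ≤ 2 A (a + b)`, `A² = ∫_{Ch x} τ² ρ`, `a² = ∫_{Ch x} e² ρ`, `b² = ∫_{Ch x'} e² ρ`. (Determinant: alternatively use that the image of `vol` under `κ_θ` is `|det|⁻¹ vol` with
`LinearMap.det` of `κ_θ` computed in the two coordinates `v, w`; or any other argument giving the factor `|θ|⁻¹`. If `τ² ρ` is not integrable on `Ch x` the real integral is `0`: this is excluded by `Mom2`.) -/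
def S_BND : Prop :=
  ∀ (P : Type) [Fintype P] [DecidableEq P] [Nonempty P] (ρ : (P → ℝ) → ℝ) (s C : ℝ)
    (f : (P → ℝ) → ℝ) (x : P → ℤ) (j : ℕ), Sy1 ρ → Mom2 ρ s → Bf f C → x ∈ XX P →
    j < Fintype.card P →
    ((∫ y in Ch x, f y * ρ y) - ∫ y in Ch (sx j x), f y * ρ y) ^ 2 ≤
      8 * (∫ y in Ch x, (1 / 4 * ∑ v, (y v - rf x j y v) ^ 2) * ρ y) *
        ((∫ y in Ch x, (∑ v, if |x v| = 2 * j - 1 ∨ |x v| = 2 * j + 1 then
            (fderiv ℝ f y (Pi.single v 1)) ^ 2 else 0) * ρ y) +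
          ∫ y in Ch (sx j x), (∑ v, if |x v| = 2 * j - 1 ∨ |x v| = 2 * j + 1 then
            (fderiv ℝ f y (Pi.single v 1)) ^ 2 else 0) * ρ y)

/-- **GP1.** Lines of the first type. `x ∈ XX P`, `n = card P`, `k + 1 < n`, `m = n - k ≥ 2`: the `m` labels at the levels `k+1, …, n` (the top group). Direction: the lowest one of the group (level `k+1`) goes down with speed `m - 1`, the others of the group go up with speed `1` (absolute values, in the chamber `Ch x`): the gap `k` decreases with speed `m - 1`,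
the gap `k+1` increases with speed `m`, the other gaps are constant. Put `τ = gp_{k+1}/m`, `τ' = gp_k/(m-1)`; `τ + τ' = T` is constant on these lines, and the chamber is `{τ > 0, τ' > 0}` on each line. (M) `ρ` is nonincreasing in `τ` along the lines within the chamber: if `z` is `y` moved by `t ≥ 0` in this direction, `y, z ∈ closure (Ch x)`,
then `ρ(z) ≤ ρ(y)`: with `p` the absolute value at the level `k+1` and `b_i` the other ones of the group in `y`, `y = (1 - ∑ λ_i) z + ∑ λ_i T_i z`, `T_i` the exchange of the absolute values of the level `k+1` and the one of `b_i`, `λ_i = t/(b_i - p + m t) ≤ 1/m`; all `T_i z` have the same density as `z`, and `{ρ ≥ ρ(z)}` is convex.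
(a) Involution `ι`: exchange `τ` and `τ'` on each line (a linear map, `ι² = 1`, so `|det| = 1`), `ι(Ch x) = Ch x`. `∫_{Ch x} gp_l (τ' - τ) ρ = (1/2) ∫_{Ch x} gp_l (τ' - τ) (ρ(y) - ρ(ι y)) ≥ 0` by (M), `l ≠ k, k+1`: so `(m - 1) qq (k+1) l ≤ m qq k l`. (b) Halving `κ`: `τ ↦ τ/2`, `τ' ↦ τ' + τ/2` (linear, `det = 1/2`), `κ(Ch x) ⊂ Ch x`, `ρ(κ y) ≥ ρ(y)`:
`∫ τ τ' ρ ≥ (1/2) ∫ (τ τ')(κ y) ρ(y) ≥ (1/8) ∫ τ² ρ` as `(τ/2) (T - τ/2) ≥ τ²/4`. So `qq (k+1) (k+1) / m² ≤ 8 qq k (k+1) / (m (m-1))`. All the integrals are finite because of the second moments. -/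
def S_GP1 : Prop :=
  ∀ (P : Type) [Fintype P] [DecidableEq P] [Nonempty P] (ρ : (P → ℝ) → ℝ) (s : ℝ) (x : P → ℤ)
    (k : ℕ), Sy1 ρ → Mom2 ρ s → x ∈ XX P → k + 1 < Fintype.card P →
    (∀ l < Fintype.card P, l ≠ k → l ≠ k + 1 →
      ((Fintype.card P : ℝ) - k - 1) * qq ρ x (k + 1) l ≤ ((Fintype.card P : ℝ) - k) * qq ρ x k l) ∧
    ((Fintype.card P : ℝ) - k - 1) * qq ρ x (k + 1) (k + 1) ≤
      8 * ((Fintype.card P : ℝ) - k) * qq ρ x k (k + 1)

/-- **GP2.** Lines of the second type: only the label at the level `k+1` moves, `k + 1 < n`, between its neighbours: `τ = gp_k`, `τ' = gp_{k+1}`, `τ + τ'` constant, the other gaps constant. (M) `ρ` is nonincreasing in `τ`: even and log-concave in each coordinate. (a) Involution exchanging `τ` and `τ'`: `∫ gp_l (τ' - τ) ρ ≥ 0`, `l ≠ k, k+1`. (b) Halving `τ ↦ τ/2`,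
`τ' ↦ τ' + τ/2`: `∫ τ τ' ρ ≥ (1/8) ∫ τ² ρ`. -/
def S_GP2 : Prop :=
  ∀ (P : Type) [Fintype P] [DecidableEq P] [Nonempty P] (ρ : (P → ℝ) → ℝ) (s : ℝ) (x : P → ℤ)
    (k : ℕ), Sy1 ρ → Mom2 ρ s → x ∈ XX P → k + 1 < Fintype.card P →
    (∀ l < Fintype.card P, l ≠ k → l ≠ k + 1 → qq ρ x k l ≤ qq ρ x (k + 1) l) ∧
    qq ρ x k k ≤ 8 * qq ρ x k (k + 1)

/-- **GSQ.** Abstract conclusion. `q` symmetric, nonnegative, `n ≥ 1`; `Q ≥ 0` bounds `∑_{k,l} (n-k) (n-l) q k l` (`= ∫ (∑_k (n-k) gp_k)² ρ`) and Cauchy-Schwarz `(∑_k (n-k) q k l)² ≤ Q q l l` holds. Proof. For `k < l`: `(n-k) q k l ≥ … ≥ (n-l+1) q (l-1) l ≥ (1/8) (n-l) q l l`; for `k > l`: `q k l ≥ … ≥ q (l+1) l ≥ (1/8) q l l`. So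
`∑_k (n-k) q k l ≥ (1/8) q l l ((n-l) l + 8 (n-l) + (n-l) (n-l-1)/2) ≥ (1/16) n (n-l) q l l`, and with Cauchy-Schwarz `q l l ≤ 256 Q / (n² (n-l)²)`. -/
def S_GSQ : Prop :=
  ∀ (n : ℕ) (q : ℕ → ℕ → ℝ) (Q : ℝ), 1 ≤ n → 0 ≤ Q → (∀ k l, q k l = q l k) → (∀ k l, 0 ≤ q k l) →
    (∀ k, k + 1 < n → ∀ l < n, l ≠ k → l ≠ k + 1 →
      ((n : ℝ) - k - 1) * q (k + 1) l ≤ ((n : ℝ) - k) * q k l) →
    (∀ k, k + 1 < n → ((n : ℝ) - k - 1) * q (k + 1) (k + 1) ≤ 8 * ((n : ℝ) - k) * q k (k + 1)) →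
    (∀ k, k + 1 < n → ∀ l < n, l ≠ k → l ≠ k + 1 → q k l ≤ q (k + 1) l) →
    (∀ k, k + 1 < n → q k k ≤ 8 * q k (k + 1)) →
    (∀ l < n, (∑ k ∈ Finset.range n, ((n : ℝ) - k) * q k l) ^ 2 ≤ Q * q l l) →
    ∀ l < n, q l l ≤ 256 * Q / ((n : ℝ) ^ 2 * ((n : ℝ) - l) ^ 2)

/-- **GAP.** (given CH0, SPM, RF, GP1, GP2, GSQ). Proof. `q = qq ρ x` (set `q k l = 0` if `k` or `l ≥ n`). On `Ch x`: `∑_{k<n} (n-k) gp_k = ∑_{i=1}^n uu_i = ∑_v |y_v|`, `∫_{Ch x} (∑ |y_v|)² ρ ≤ n ∑_v ∫_{Ch x} y_v² ρ = n (1/|XX|) ∫ ∑ y_v² ρ ≤ n² s/|XX|` (SPM for the invariant function `∑ y_v²`). Cauchy-Schwarz for `∫ (∑ (n-k) gp_k) gp_l ρ`. So `Q = n² s/|XX|`. -/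
def S_GAP : Prop :=
  ∀ (P : Type) [Fintype P] [DecidableEq P] [Nonempty P] (ρ : (P → ℝ) → ℝ) (s : ℝ) (x : P → ℤ)
    (l : ℕ), Sy1 ρ → 0 ≤ s → Mom2 ρ s → x ∈ XX P → l < Fintype.card P →
    qq ρ x l l ≤ 256 * s / ((XX P).card * ((Fintype.card P : ℝ) - l) ^ 2)

/-- Poincaré inequality for 1-symmetric measures (leader, from the starting file `OneSymmetric`) -/
def S_OSP (K : ℝ) : Prop :=
  ∀ (P : Type) [Fintype P] [DecidableEq P] [Nonempty P] (ρ : (P → ℝ) → ℝ) (s C : ℝ)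
    (f : (P → ℝ) → ℝ), Sy1 ρ → 0 < s → Mom2 ρ s → Bf f C →
    (∫ y, f y ^ 2 * ρ y) - (∫ y, f y * ρ y) ^ 2 ≤ K * s * ∫ y, gr f y * ρ y

/-- **OSP.** From the starting file `Pool.Agent.Results.MP_6d896a_gt.OneSymmetric` (import it; `result`) by transport from `EuclideanSpace ℝ (Fin n)` to `P → ℝ` (`Fintype.equivFin P`, `PiLp.volume_preserving_toLp`, `volume_measurePreserving_piCongrLeft`; `‖fderiv‖² = ∑ (∂_v)²`: see `normsq` in `KF/EUC.lean`); `variance = E f² - (E f)²`. -/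
def S_OS : Prop := ∃ K : ℝ, 0 < K ∧ S_OSP K

/-- **SRT.** Sorting is a contraction (given CH0). Proof. Let `x ∈ XX P`. For `y` in the chamber of `x'` let `S y = (ε_v y_{σ v})_v` with `σ, ε` from CH0 (`(x' → x)`, mapping `Ch x'` onto `Ch x`); in general `S y` is the unique point of `closure (Ch x)` of the form `(ε_v y_{σ v})`: choose a signed permutation maximizing `⟨g y, x⟩` (`x` as a real vector): then `g y ∈ closure (Ch x)`. For
`a, b ∈ closure (Ch x)` and any signed permutation `g`: `⟨g a, b⟩ ≤ ⟨a, b⟩` (rearrangement inequality for the absolute values, `MonovaryOn.sum_mul_comp_perm_le_sum_mul` or `Monovary`). So `|S y - S z|² = |y|² + |z|² - 2 ⟨S y, S z⟩ ≤ |y|² + |z|² - 2 ⟨y, z⟩`. -/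
def S_SRT : Prop :=
  ∀ (P : Type) [Fintype P] [DecidableEq P] (x : P → ℤ), x ∈ XX P → ∃ S : (P → ℝ) → (P → ℝ),
    (∀ y z, ∑ v, (S y v - S z v) ^ 2 ≤ ∑ v, (y v - z v) ^ 2) ∧
    ∀ x' ∈ XX P, ∃ (σ : Equiv.Perm P) (ε : P → ℝ), (∀ v, ε v = 1 ∨ ε v = -1) ∧
      (∀ y ∈ Ch x', S y = fun v => ε v * y (σ v)) ∧
      ∀ y, y ∈ Ch x' ↔ (fun v => ε v * y (σ v)) ∈ Ch x

/-- **MOL.** From `C¹` to Lipschitz functions. `g` bounded and Lipschitz, `C¹` on an open set `U` whose complement is a null set, with partial derivatives bounded on `U`; `ρ` a probability density. If the Poincaré inequality with constant `K` holds for all admissible (`Bf`) functions then it holds for `g`. Proof. `g_ε = g ∗ η_ε` (`ContDiffBump`, `convolution`) is smooth, bounded by the same constant,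
`g_ε → g` uniformly, Lipschitz with the same constant, so `Bf g_ε C'`; for `y ∈ U`: `∂_v g_ε(y) = ∫ ∂_v g(y - z) η_ε(z) dz` for small `ε`, which tends to `∂_v g(y)`. Dominated convergence. -/
def S_MOL : Prop :=
  ∀ (P : Type) [Fintype P] [DecidableEq P] (ρ : (P → ℝ) → ℝ) (K C : ℝ) (g : (P → ℝ) → ℝ)
    (U : Set (P → ℝ)), (∀ x, 0 ≤ ρ x) → Measurable ρ → ∫⁻ x, ENNReal.ofReal (ρ x) = 1 →
    (∀ (f : (P → ℝ) → ℝ) (C' : ℝ), Bf f C' →
      (∫ y, f y ^ 2 * ρ y) - (∫ y, f y * ρ y) ^ 2 ≤ K * ∫ y, gr f y * ρ y) →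
    (∀ x, |g x| ≤ C) → (∀ x y, |g x - g y| ≤ C * dist x y) → IsOpen U → volume Uᶜ = 0 →
    ContDiffOn ℝ 1 g U →
    (∫ y, g y ^ 2 * ρ y) - (∫ y, g y * ρ y) ^ 2 ≤ K * ∫ y, gr g y * ρ y

/-- **CHP.** Poincaré inequality in one chamber (given CH0, SPM, SRT, MOL and OSP: prove `S_CH0 → S_SPM → S_SRT → S_MOL → ∀ K, S_OSP K → S_CHP K`). Proof. `g = f ∘ S`, `S` from SRT. `g` is bounded and Lipschitz (`f` is Lipschitz for the Euclidean distance as its partial derivatives are bounded), on `U = ⋃ Ch x'` it is `C¹` with `gr g(y) = gr f(S y)` (`S` is a signed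
permutation near `y`). `∫_{Ch x'} Φ(S y) ρ(y) dy = ∫_{Ch x} Φ ρ`. So with `N = card (XX P)` MOL gives `N ∫_{Ch x} f² ρ - (N ∫_{Ch x} f ρ)² ≤ K s N ∫_{Ch x} gr f ρ`. -/
def S_CHP (K : ℝ) : Prop :=
  ∀ (P : Type) [Fintype P] [DecidableEq P] [Nonempty P] (ρ : (P → ℝ) → ℝ) (s C : ℝ)
    (f : (P → ℝ) → ℝ) (x : P → ℤ), Sy1 ρ → 0 < s → Mom2 ρ s → Bf f C → x ∈ XX P →
    (∫ y in Ch x, f y ^ 2 * ρ y) - (XX P).card * (∫ y in Ch x, f y * ρ y) ^ 2 ≤
      K * s * ∫ y in Ch x, gr f y * ρ y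

/-- **CMB.** The theorem (given S_DISC, S_SUP2, S_CH0, S_SPM, S_RF, S_BND, S_GAP and S_CHP K): constant `K + 2^14`. Proof. `n = card P`, `N = card (XX P)`, `O = Om R n` (nonempty because the mass `Z` of the cone is positive), each chamber has the mass `1/N`, `Z = |O|/N`. `F_x = ∫_{Ch x} f ρ`.
`∫_{KC} f² ρ - (∫_{KC} f ρ)²/Z = ∑_{x ∈ O} (∫_{Ch x} f² ρ - N F_x²) + N (∑_{x∈O} F_x² - (∑_{x∈O} F_x)²/|O|)`. First sum: CHP. Second: DISC with `M = n`, `c_j = (1 - (j/n)²)²`, `γ = 1/(2n²)` (SUP2 for `n ≥ 2`; for `n = 1` check `Sup 1` directly), `f := F`, gives `N (n²/2) ∑_j c_j ∑_{x ∈ O} D_j(F)(x)²`.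
`c_j ≤ 4 (n-j)²/n²`; BND with `τ² ≤ gp_j²`: `D_j(F)(x)² ≤ 8 · 256 s/(N (n-j)²) (e_j(x) + e_j(s_j x))`, `e_j(x) = ∫_{Ch x} ∑_{v : |x v| = 2j ± 1} (∂_v f)² ρ`. So the second part is at most `4096 s ∑_j ∑_{x∈O, s_j x∈O} (e_j(x) + e_j(s_j x)) ≤ 8192 s ∑_j ∑_{x ∈ O} e_j(x)` (note that the set of labels with `|x v| = 2j ± 1` is the same for `s_j x`)
`≤ 16384 s ∑_{x∈O} ∫_{Ch x} gr f ρ`, each label being in at most two bonds. -/
def S_CMB (K : ℝ) : Prop :=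
  ∀ (P : Type) [Fintype P] [DecidableEq P] [Nonempty P] (R : P × Bool → P × Bool → Prop)
    (ρ : (P → ℝ) → ℝ) (s C : ℝ) (f : (P → ℝ) → ℝ), Sy1 ρ → 0 < s → Mom2 ρ s → Bf f C →
    0 < ∫ y in KC R, ρ y →
    (∫ y in KC R, f y ^ 2 * ρ y) - (∫ y in KC R, f y * ρ y) ^ 2 / ∫ y in KC R, ρ y ≤
      (K + 2 ^ 14) * s * ∫ y in KC R, gr f y * ρ y

/-- **SYR.** Second moment of the sum for cones given by inequalities `x_v ≤ x_w` only. Proof. As SYMA, with the density `ρ` invariant under permutations: `∫_{KC} Φ ρ = (∫_{KC} ρ) ∫ Φ ρ` for `Φ ≥ 0` invariant under permutations. For `Φ = (∑ x_v)²`: `∫ (∑ x_v)² ρ = ∑_v ∫ x_v² ρ`, the mixed terms vanish by the symmetry `x_v → -x_v`; all `∫ x_v² ρ` are equal. And `∫_{KC} (∑ x_v) ρ = 0`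
because `∫_{KC} (∑ x_v)^± ρ = (∫_{KC} ρ) ∫ (∑ x_v)^± ρ` and the two are equal by `x → -x`. -/
def S_SYR : Prop :=
  ∀ (P : Type) [Fintype P] [DecidableEq P] (R : P × Bool → P × Bool → Prop)
    (ρ : (P → ℝ) → ℝ) (s : ℝ), TypeA R → Sy1 ρ → Mom2 ρ s →
    (∫ y in KC R, (∑ v, y v) * ρ y = 0) ∧
    ∀ i : P, ∫ y in KC R, (∑ v, y v) ^ 2 * ρ y =
      (∫ y in KC R, ρ y) * (Fintype.card P * ∫ y, y i ^ 2 * ρ y)

end Run7.h523.KF
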