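import Pool.Agent.Run7.h523.KF.EUC
import Pool.Agent.Run7.h523.KF.Iface3
import Pool.Agent.Run7.h444.ER5

/-!
# From Poincaré's inequality on `κ → ℝ` to isoperimetry in Euclidean space (helper523)
-/

set_option autoImplicit false

namespace Run7.h523.KF

open MeasureTheory Set Filter Topology
open scoped ENNReal InnerProductSpace
open Pool.Agent.W695.KH (EV VV)

variable {κ : Type} [Fintype κ]

/-- the set in Euclidean space -/
def EE (K : Set (κ → ℝ)) : Set (EuclideanSpace ℝ κ) := {x | WithLp.ofLp x ∈ K}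

theorem int_EE (K : Set (κ → ℝ)) (g : EuclideanSpace ℝ κ → ℝ) :
    ∫ x in EE K, g x = ∫ y in K, g (WithLp.toLp 2 y) := by
  have h := (PiLp.volume_preserving_toLp κ).setIntegral_preimage_emb
    (MeasurableEquiv.toLp 2 (κ → ℝ)).measurableEmbedding g (EE K)
  rw [← h]
  rfl

theorem vol_EE (K : Set (κ → ℝ)) : volume (EE K) = volume K := by
  have h := (PiLp.volume_preserving_toLp κ).measure_preimage_emb
    (MeasurableEquiv.toLp 2 (κ → ℝ)).measurableEmbedding (EE K)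
  rw [← h]
  rfl

omit [Fintype κ] in
theorem EE_compact {K : Set (κ → ℝ)} (hK : IsCompact K) : IsCompact (EE K) := by
  have : EE K = (WithLp.toLp 2) '' K := by
    ext x
    constructor
    · intro hx
      exact ⟨WithLp.ofLp x, hx, rfl⟩
    · rintro ⟨y, hy, rfl⟩
      exact hy
  rw [this]
  exact hK.image (PiLp.continuous_toLp 2 _)

omit [Fintype κ] in
theorem EE_convex {K : Set (κ → ℝ)} (hK : Convex ℝ K) : Convex ℝ (EE K) := by
  intro y hy z hz s t hs ht hst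
  exact hK hy hz hs ht hst

theorem fd_toLp [DecidableEq κ] {f : EuclideanSpace ℝ κ → ℝ} (hf : Differentiable ℝ f) (y : κ → ℝ)
    (v : κ) : fderiv ℝ (fun y : κ → ℝ => f (WithLp.toLp 2 y)) y (Pi.single v 1) =
      fderiv ℝ f (WithLp.toLp 2 y) (EuclideanSpace.single v 1) := by
  have h1 : HasFDerivAt (fun y : κ → ℝ => (WithLp.toLp 2 y : EuclideanSpace ℝ κ))
      ((PiLp.continuousLinearEquiv 2 ℝ (fun _ : κ => ℝ)).symm : (κ → ℝ) →L[ℝ] _) y :=
    PiLp.hasFDerivAt_toLp 2 y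
  have h2 : HasFDerivAt f (fderiv ℝ f (WithLp.toLp 2 y)) (WithLp.toLp 2 y) :=
    (hf _).hasFDerivAt
  have h3 := h2.comp y h1
  have h4 : fderiv ℝ (fun y : κ → ℝ => f (WithLp.toLp 2 y)) y = _ := h3.fderiv
  rw [h4]
  rfl

theorem gr_toLp [DecidableEq κ] {f : EuclideanSpace ℝ κ → ℝ} (hf : Differentiable ℝ f)
    (y : κ → ℝ) : gr (fun y : κ → ℝ => f (WithLp.toLp 2 y)) y =
      ‖fderiv ℝ f (WithLp.toLp 2 y)‖ ^ 2 := by
  rw [normsq]
  exact Finset.sum_congr rfl fun v _ => by rw [fd_toLp hf]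

/-- the Poincaré inequality with the constant `C` on `K` -/
def Poi [DecidableEq κ] (K : Set (κ → ℝ)) (C : ℝ) : Prop :=
  ∀ f : (κ → ℝ) → ℝ, ContDiff ℝ 1 f →
    (∫ y in K, f y ^ 2) - (∫ y in K, f y) ^ 2 / (volume K).toReal ≤ C * ∫ y in K, gr f y

theorem Poi.E [DecidableEq κ] {K : Set (κ → ℝ)} {C : ℝ} (H : Poi K C)
    (f : EuclideanSpace ℝ κ → ℝ) (hf : ContDiff ℝ 1 f) :
    (∫ x in EE K, f x ^ 2) - (∫ x in EE K, f x) ^ 2 / (volume (EE K)).toReal ≤
      C * ∫ x in EE K, ‖fderiv ℝ f x‖ ^ 2 := by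
  have hto : ContDiff ℝ 1 (fun y : κ → ℝ => (WithLp.toLp 2 y : EuclideanSpace ℝ κ)) :=
    PiLp.contDiff_toLp
  have h := H (fun y => f (WithLp.toLp 2 y)) (hf.comp hto)
  rw [int_EE K (fun x => f x ^ 2), int_EE K f, int_EE K (fun x => ‖fderiv ℝ f x‖ ^ 2), vol_EE]
  simp only [gr_toLp (hf.differentiable one_ne_zero)] at h
  exact h

theorem Poi.V [DecidableEq κ] {K : Set (κ → ℝ)} {C : ℝ} (H : Poi K C) (hK : IsCompact K)
    (hv : 0 < volume K) (f : EuclideanSpace ℝ κ → ℝ) (hf : ContDiff ℝ 1 f) :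
    VV (EE K) f ≤ C * EV (EE K) fun x => ‖fderiv ℝ f x‖ ^ 2 := by
  have hfin : volume K ≠ ⊤ := hK.measure_lt_top.ne
  have hV : 0 < (volume (EE K)).toReal := by
    rw [vol_EE]
    exact ENNReal.toReal_pos hv.ne' hfin
  have h1 := H.E f hf
  unfold VV EV
  have h2 : ∀ a b V : ℝ, 0 < V → a / V - (b / V) ^ 2 = (a - b ^ 2 / V) / V := by
    intro a b V hV
    field_simp
  rw [h2 _ _ _ hV, ← mul_div_assoc, div_le_div_iff_of_pos_right hV]
  exact h1

/-- isoperimetry from the Poincaré inequality -/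
theorem Poi.iso [DecidableEq κ] {K : Set (κ → ℝ)} {C : ℝ} (H : Poi K C) (hC : 0 < C)
    (hK : IsCompact K) (hc : Convex ℝ K) (hv : 0 < volume K) (μ : Measure (EuclideanSpace ℝ κ))
    (hμ : μ = (volume (EE K))⁻¹ • volume.restrict (EE K)) (S : Set (EuclideanSpace ℝ κ))
    (hS : MeasurableSet S) :
    min (μ S) (μ Sᶜ) ≤ ENNReal.ofReal (2 * Real.sqrt (40 * C)) * Run7.h444.ER.bd μ S := by
  have hK' := EE_compact hK
  have hc' := EE_convex hc
  have hv' : 0 < volume (EE K) := by rw [vol_EE]; exact hv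
  have hfin : volume (EE K) ≠ ⊤ := hK'.measure_lt_top.ne
  have hprob : IsProbabilityMeasure μ := by
    refine ⟨?_⟩
    rw [hμ, Measure.smul_apply, Measure.restrict_apply_univ, smul_eq_mul,
      ENNReal.inv_mul_cancel hv'.ne' hfin]
  have h3 := Pool.Agent.W695.KH.mink κ (EE K) hK' hc' hv' (Real.sqrt (40 * C)) (by positivity)
    (Run7.h444.ER.cheeger (EE K) hK' hc' hv' C hC (fun v hv0 => H.V hK hv v hv0)) μ hμ S hS
  have hSc : μ Sᶜ = 1 - μ S := prob_compl_eq_one_sub hS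
  have h4 : min (μ S) (μ Sᶜ) ≤ 2 * (μ S * (1 - μ S)) := by
    rw [← hSc]
    have hadd := measure_add_measure_compl (μ := μ) hS
    rw [measure_univ] at hadd
    have hS1 : μ S ≠ ⊤ := measure_ne_top μ S
    have hS2 : μ Sᶜ ≠ ⊤ := measure_ne_top μ Sᶜ
    obtain ⟨a, ha⟩ : ∃ a : ℝ, μ S = ENNReal.ofReal a ∧ 0 ≤ a :=
      ⟨(μ S).toReal, (ENNReal.ofReal_toReal hS1).symm, ENNReal.toReal_nonneg⟩
    obtain ⟨b, hb⟩ : ∃ b : ℝ, μ Sᶜ = ENNReal.ofReal b ∧ 0 ≤ b :=
      ⟨(μ Sᶜ).toReal, (ENNReal.ofReal_toReal hS2).symm, ENNReal.toReal_nonneg⟩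
    rw [ha.1, hb.1, ← ENNReal.ofReal_add ha.2 hb.2, ← ENNReal.ofReal_one] at hadd
    have hab : a + b = 1 := by
      have := congrArg ENNReal.toReal hadd
      rwa [ENNReal.toReal_ofReal (by linarith [ha.2, hb.2]), ENNReal.toReal_ofReal zero_le_one]
        at this
    rw [ha.1, hb.1, ← ENNReal.ofReal_mul ha.2]
    have e2 : (2 : ℝ≥0∞) = ENNReal.ofReal 2 := by norm_num
    rw [e2, ← ENNReal.ofReal_mul (by norm_num), ← ENNReal.ofReal_min]
    refine ENNReal.ofReal_le_ofReal ?_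
    rcases le_total a b with h | h
    · rw [min_eq_left h]
      nlinarith [ha.2, hb.2]
    · rw [min_eq_right h]
      nlinarith [ha.2, hb.2]
  refine h4.trans ((mul_le_mul_right h3 2).trans_eq ?_)
  have e2 : ENNReal.ofReal 2 = (2 : ℝ≥0∞) := by norm_num
  rw [ENNReal.ofReal_mul (by norm_num), e2, mul_assoc]
  rfl

end Run7.h523.KF
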