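import Pool.Agent.Run7.h523.KF.FIN0
import Pool.Agent.Run7.h523.KF.MST
import Pool.Agent.Run7.h67.KF.VLB
import Pool.Agent.Run7.h67.KF.SYM
import Pool.Agent.Run7.h67.KF.IBP

/-!
# Polytopes in the cube: final form (helper523)
-/

set_option autoImplicit false

namespace Run7.h523.KF

open MeasureTheory Set Filter Topology
open scoped ENNReal InnerProductSpace

variable {κ : Type} [Fintype κ] [DecidableEq κ]

theorem gr_cont {f : (κ → ℝ) → ℝ} (hf : ContDiff ℝ 1 f) (v : κ) :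
    Continuous fun y => (fderiv ℝ f y (Pi.single v 1)) ^ 2 :=
  ((hf.continuous_fderiv one_ne_zero).clm_apply continuous_const).pow 2

theorem poi_KK (hD : S_DISC) (R : κ × Bool → κ × Bool → Prop) (hv : 0 < volume (KK R)) :
    Poi (KK R) (4 / Real.pi ^ 2) := by
  intro f hf
  have h := master_one hD κ R hv f hf
  refine h.trans_eq ?_
  rw [one_div_div]
  congr 1
  unfold gr
  rw [integral_finsetSum]
  · simp only [one_mul]
  · intro v _
    exact (gr_cont hf v).continuousOn.integrableOn_compact (KK_compact R)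

/-- variances of marginals of the uniform measure -/
theorem var_EE {K : Set (κ → ℝ)} (hK : IsCompact K) (hv : 0 < volume K)
    (μ : Measure (EuclideanSpace ℝ κ))
    (hμ : μ = (volume (EE K))⁻¹ • volume.restrict (EE K)) (g : EuclideanSpace ℝ κ → ℝ)
    (hg : Continuous g) : ProbabilityTheory.variance g μ =
      (∫ y in K, g (WithLp.toLp 2 y) ^ 2) / (volume K).toReal -
        ((∫ y in K, g (WithLp.toLp 2 y)) / (volume K).toReal) ^ 2 := by
  have hK' := EE_compact hK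
  have hv' : 0 < volume (EE K) := by rw [vol_EE]; exact hv
  have hfin : volume (EE K) ≠ ⊤ := hK'.measure_lt_top.ne
  have hprob : IsProbabilityMeasure μ := by
    refine ⟨?_⟩
    rw [hμ, Measure.smul_apply, Measure.restrict_apply_univ, smul_eq_mul,
      ENNReal.inv_mul_cancel hv'.ne' hfin]
  have hμc : μ (EE K)ᶜ = 0 := by
    rw [hμ, Measure.smul_apply, Measure.restrict_apply hK'.measurableSet.compl, compl_inter_self,
      measure_empty, smul_zero]
  have hint : ∀ g : EuclideanSpace ℝ κ → ℝ,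
      ∫ x, g x ∂μ = (∫ y in K, g (WithLp.toLp 2 y)) / (volume K).toReal := by
    intro g
    rw [hμ, integral_smul_measure, ENNReal.toReal_inv, smul_eq_mul, int_EE, vol_EE,
      inv_mul_eq_div]
  have hL2 : MemLp g 2 μ := by
    rw [memLp_two_iff_integrable_sq hg.aestronglyMeasurable]
    exact Run7.h444.ER.int_of_cont hK' hμc (hg.pow 2)
  rw [ProbabilityTheory.variance_eq_sub hL2, hint, hint]
  rfl

theorem vlb_E [Nonempty κ] (R : κ × Bool → κ × Bool → Prop) (hv : 0 < volume (KK R))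
    (μ : Measure (EuclideanSpace ℝ κ))
    (hμ : μ = (volume (EE (KK R)))⁻¹ • volume.restrict (EE (KK R))) (s : ℝ) (hs : 0 < s)
    (hvar : ∀ θ : EuclideanSpace ℝ κ, ‖θ‖ = 1 →
      ProbabilityTheory.variance (fun x => ⟪x, θ⟫_ℝ) μ ≤ s) : 1 / 63 ≤ s := by
  refine Run7.h67.KF.t_VLB Run7.h67.KF.t_SYM Run7.h67.KF.t_IBP κ R s hv fun θ => ?_
  by_cases h0 : (WithLp.toLp 2 θ : EuclideanSpace ℝ κ) = 0
  · have h1 : θ = 0 := by
      have := congrArg WithLp.ofLp h0
      simpa using this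
    subst h1
    simp
  have hn : 0 < ‖(WithLp.toLp 2 θ : EuclideanSpace ℝ κ)‖ := norm_pos_iff.2 h0
  obtain ⟨N, hN⟩ : ∃ N, N = ‖(WithLp.toLp 2 θ : EuclideanSpace ℝ κ)‖ := ⟨_, rfl⟩
  have hN0 : 0 < N := by rw [hN]; exact hn
  have hN2 : N ^ 2 = ∑ v, θ v ^ 2 := by
    rw [hN, EuclideanSpace.real_norm_sq_eq]
  have h1 := hvar (N⁻¹ • WithLp.toLp 2 θ) (by
    rw [norm_smul, norm_inv, Real.norm_eq_abs, abs_of_pos hN0, ← hN, inv_mul_cancel₀ hN0.ne'])
  rw [var_EE (KK_compact R) hv μ hμ _ (by fun_prop)] at h1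
  have h2 : ∀ y : κ → ℝ, ⟪(WithLp.toLp 2 y : EuclideanSpace ℝ κ), N⁻¹ • WithLp.toLp 2 θ⟫_ℝ =
      N⁻¹ * ∑ v, θ v * y v := by
    intro y
    rw [inner_smul_right]
    simp [PiLp.inner_apply]
  simp only [h2, mul_pow, integral_const_mul] at h1
  have h3 : N⁻¹ ^ 2 * (∫ y in KK R, (∑ v, θ v * y v) ^ 2) / (volume (KK R)).toReal -
      (N⁻¹ * (∫ y in KK R, ∑ v, θ v * y v) / (volume (KK R)).toReal) ^ 2 =
      (N ^ 2)⁻¹ * ((∫ y in KK R, (∑ v, θ v * y v) ^ 2) / (volume (KK R)).toReal -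
      ((∫ y in KK R, ∑ v, θ v * y v) / (volume (KK R)).toReal) ^ 2) := by
    rw [inv_pow]
    ring
  rw [h3, inv_mul_le_iff₀ (by positivity), hN2] at h1
  linarith

/-- KLS for the polytopes in the cube -/
theorem kls_KK (hD : S_DISC) [Nonempty κ] (R : κ × Bool → κ × Bool → Prop)
    (hv : 0 < volume (KK R)) (μ : Measure (EuclideanSpace ℝ κ))
    (hμ : μ = (volume (EE (KK R)))⁻¹ • volume.restrict (EE (KK R))) (s : ℝ) (hs : 0 < s)
    (hvar : ∀ θ : EuclideanSpace ℝ κ, ‖θ‖ = 1 →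
      ProbabilityTheory.variance (fun x => ⟪x, θ⟫_ℝ) μ ≤ s) (S : Set (EuclideanSpace ℝ κ))
    (hS : MeasurableSet S) :
    ENNReal.ofReal (1 / (64 * Real.sqrt s)) * min (μ S) (μ Sᶜ) ≤ Run7.h444.ER.bd μ S := by
  have h1 := (poi_KK hD R hv).iso (by positivity) (KK_compact R) (KK_convex R) hv μ hμ S hS
  have h2 := vlb_E R hv μ hμ s hs hvar
  refine (mul_le_mul_right h1 _).trans ?_
  rw [← mul_assoc, ← ENNReal.ofReal_mul (by positivity)]
  refine (mul_le_mul' (ENNReal.ofReal_le_one.2 ?_) le_rfl).trans_eq (one_mul _)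
  have hs0 : 0 < Real.sqrt s := Real.sqrt_pos.2 hs
  rw [div_mul_eq_mul_div, one_mul, div_le_one (by positivity)]
  have h3 : Real.sqrt (40 * (4 / Real.pi ^ 2)) ≤ 32 * Real.sqrt s := by
    rw [show (32 : ℝ) * Real.sqrt s = Real.sqrt (32 ^ 2 * s) by
      rw [Real.sqrt_mul (by norm_num), Real.sqrt_sq (by norm_num)]]
    refine Real.sqrt_le_sqrt ?_
    have h4 : (9.86 : ℝ) ≤ Real.pi ^ 2 := by nlinarith [Real.pi_gt_d4]
    rw [← mul_div_assoc, div_le_iff₀ (by positivity)]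
    nlinarith
  linarith

end Run7.h523.KF
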