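import Pool.Agent.Run7.h523.KF.FIN1

/-!
# 1-symmetric bodies cut by cones: final form (helper523)
-/

set_option autoImplicit false

namespace Run7.h523.KF

open MeasureTheory Set Filter Topology
open scoped ENNReal InnerProductSpace

variable {κ : Type} [Fintype κ] [DecidableEq κ]

/-- 1-symmetric convex bodies -/
structure SB (L : Set (κ → ℝ)) : Prop where
  comp : IsCompact L
  conv : Convex ℝ L
  vol : 0 < volume L
  inv : ∀ σ : Equiv.Perm κ, ∀ x ∈ L, ∀ y : κ → ℝ, (∀ i, |y i| = |x (σ i)|) → y ∈ L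

/-- normalised indicator function -/
noncomputable def rL (L : Set (κ → ℝ)) : (κ → ℝ) → ℝ := L.indicator fun _ => (volume L).toReal⁻¹

omit [DecidableEq κ] in
theorem SB.V {L : Set (κ → ℝ)} (h : SB L) : 0 < (volume L).toReal :=
  ENNReal.toReal_pos h.vol.ne' h.comp.measure_lt_top.ne

omit [DecidableEq κ] in
theorem SB.sy {L : Set (κ → ℝ)} (h : SB L) : Sy1 (rL L) := by
  have hV := h.V
  have hi : 0 < (volume L).toReal⁻¹ := inv_pos.2 hV
  refine ⟨fun x => indicator_nonneg (fun _ _ => hi.le) x,
    measurable_const.indicator h.comp.measurableSet, ?_, ?_, ?_⟩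
  · intro x y t ht ht1
    unfold rL
    by_cases hx : x ∈ L
    · by_cases hy : y ∈ L
      · have hz : (1 - t) • x + t • y ∈ L := h.conv hx hy (by linarith) ht.le (by ring)
        rw [indicator_of_mem hx, indicator_of_mem hy, indicator_of_mem hz,
          ← Real.rpow_add hi, sub_add_cancel, Real.rpow_one]
      · rw [indicator_of_notMem hy, Real.zero_rpow ht.ne', mul_zero]
        exact indicator_nonneg (fun _ _ => hi.le) _
    · rw [indicator_of_notMem hx, Real.zero_rpow (sub_pos.2 ht1).ne', zero_mul]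
      exact indicator_nonneg (fun _ _ => hi.le) _
  · intro σ x y hxy
    unfold rL
    by_cases hx : x ∈ L
    · rw [indicator_of_mem hx, indicator_of_mem (h.inv σ x hx y hxy)]
    · have hy : y ∉ L := by
        intro hy
        refine hx (h.inv σ.symm y hy x fun i => ?_)
        rw [hxy, Equiv.apply_symm_apply]
      rw [indicator_of_notMem hx, indicator_of_notMem hy]
  · have e : (fun x => ENNReal.ofReal (rL L x)) =
        L.indicator fun _ => ENNReal.ofReal (volume L).toReal⁻¹ := by
      funext x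
      unfold rL
      by_cases hx : x ∈ L
      · rw [indicator_of_mem hx, indicator_of_mem hx]
      · rw [indicator_of_notMem hx, indicator_of_notMem hx, ENNReal.ofReal_zero]
    rw [e, lintegral_indicator h.comp.measurableSet, setLIntegral_const,
      ENNReal.ofReal_inv_of_pos hV, ENNReal.ofReal_toReal h.comp.measure_lt_top.ne,
      ENNReal.inv_mul_cancel h.vol.ne' h.comp.measure_lt_top.ne]

omit [DecidableEq κ] in
theorem rL_int {L : Set (κ → ℝ)} (h : SB L) (C : Set (κ → ℝ)) (hC : MeasurableSet C)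
    (g : (κ → ℝ) → ℝ) :
    ∫ y in C, g y * rL L y = (volume L).toReal⁻¹ * ∫ y in L ∩ C, g y := by
  have e : ∀ y, g y * rL L y = L.indicator (fun y => (volume L).toReal⁻¹ * g y) y := by
    intro y
    unfold rL
    by_cases hy : y ∈ L
    · rw [indicator_of_mem hy, indicator_of_mem hy, mul_comm]
    · rw [indicator_of_notMem hy, indicator_of_notMem hy, mul_zero]
  simp only [e]
  rw [integral_indicator h.comp.measurableSet, Measure.restrict_restrict h.comp.measurableSet,
    integral_const_mul]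

theorem KC_closed {P : Type} (R : P × Bool → P × Bool → Prop) : IsClosed (KC R) := by
  have : KC R = ⋂ (a) (b) (_ : R a b), {y | sv y a ≤ sv y b} := by
    ext y
    simp only [KC, Set.mem_ofPred_eq, Set.mem_iInter]
  rw [this]
  exact isClosed_iInter fun a => isClosed_iInter fun b => isClosed_iInter fun _ =>
    isClosed_le (sv_cont a) (sv_cont b)

theorem KC_convex {P : Type} (R : P × Bool → P × Bool → Prop) : Convex ℝ (KC R) := by
  intro y hy z hz s t hs ht hst a b hab
  rw [sv_add, sv_add]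
  have h1 := hy a b hab
  have h2 := hz a b hab
  nlinarith

omit [DecidableEq κ] in
/-- second moments, first with a crude bound, then exact -/
theorem SB.mom0 {L : Set (κ → ℝ)} (h : SB L) : ∃ s : ℝ, Mom2 (rL L) s := by
  have hsy := h.sy
  obtain ⟨r, hr⟩ := h.comp.isBounded.exists_norm_le
  refine ⟨r ^ 2, fun i => ?_⟩
  calc ∫⁻ x, ENNReal.ofReal (x i ^ 2 * rL L x)
      ≤ ∫⁻ x, ENNReal.ofReal (r ^ 2) * ENNReal.ofReal (rL L x) := by
        refine lintegral_mono fun x => ?_
        rw [← ENNReal.ofReal_mul (sq_nonneg r)]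
        refine ENNReal.ofReal_le_ofReal ?_
        by_cases hx : x ∈ L
        · refine mul_le_mul_of_nonneg_right ?_ (hsy.nonneg x)
          have h1 : |x i| ≤ r := (norm_le_pi_norm x i).trans (hr x hx)
          exact sq_le_sq' (by linarith [neg_abs_le (x i)]) (by linarith [le_abs_self (x i)])
        · unfold rL
          rw [indicator_of_notMem hx, mul_zero, mul_zero]
    _ = ENNReal.ofReal (r ^ 2) := by
        rw [lintegral_const_mul _ hsy.meas.ennreal_ofReal, hsy.mass, mul_one]

omit [DecidableEq κ] in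
theorem SB.integrable {L : Set (κ → ℝ)} (h : SB L) (g : (κ → ℝ) → ℝ) (hg : Continuous g) :
    Integrable fun y => g y * rL L y := by
  have e : (fun y => g y * rL L y) = L.indicator (fun y => (volume L).toReal⁻¹ * g y) := by
    funext y
    unfold rL
    by_cases hy : y ∈ L
    · rw [indicator_of_mem hy, indicator_of_mem hy, mul_comm]
    · rw [indicator_of_notMem hy, indicator_of_notMem hy, mul_zero]
  rw [e, integrable_indicator_iff h.comp.measurableSet]
  exact (hg.const_mul _).continuousOn.integrableOn_compact h.comp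

/-- `E x_i²` does not depend on `i` -/
theorem SB.mom {L : Set (κ → ℝ)} (h : SB L) (hY : S_SYR) (i : κ) :
    Mom2 (rL L) (∫ y, y i ^ 2 * rL L y) := by
  obtain ⟨s, hs⟩ := h.mom0
  have h1 := (hY κ (fun _ _ => False) (rL L) s (fun _ _ hf => hf.elim) h.sy hs).2
  have hU : KC (fun _ _ : κ × Bool => False) = univ := by
    ext y
    simp [KC]
  rw [hU] at h1
  simp only [Measure.restrict_univ] at h1
  have hone : ∫ y, rL L y = 1 := by
    have := rL_int h univ MeasurableSet.univ (fun _ => 1)
    simp only [one_mul, Measure.restrict_univ, inter_univ] at this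
    rw [this, setIntegral_const, smul_eq_mul, mul_one, Measure.real, inv_mul_cancel₀ h.V.ne']
  rw [hone] at h1
  have hn : (0 : ℝ) < Fintype.card κ := by
    have : Nonempty κ := ⟨i⟩
    exact_mod_cast Fintype.card_pos
  intro j
  have h2 : ∫ y, y j ^ 2 * rL L y = ∫ y, y i ^ 2 * rL L y := by
    have h3 := (h1 i).symm.trans (h1 j)
    rw [one_mul, one_mul] at h3
    exact (mul_left_cancel₀ hn.ne' h3).symm
  rw [← h2, ← ofReal_integral_eq_lintegral_ofReal]
  · exact h.integrable (fun y => y j ^ 2) (by fun_prop)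
  · exact Eventually.of_forall fun y => mul_nonneg (sq_nonneg _) (h.sy.nonneg y)

/-- Poincaré inequality for `L ∩ KC R` -/
theorem poi_body {K : ℝ} (hC : S_CMB K) (hY : S_SYR) [Nonempty κ] (R : κ × Bool → κ × Bool → Prop)
    {L : Set (κ → ℝ)} (h : SB L) (hv : 0 < volume (L ∩ KC R)) (i : κ)
    (hs : 0 < ∫ y, y i ^ 2 * rL L y) :
    Poi (L ∩ KC R) ((K + 2 ^ 14) * ∫ y, y i ^ 2 * rL L y) := by
  intro f hf
  have hKm : MeasurableSet (KC R : Set (κ → ℝ)) := (KC_closed R).measurableSet
  obtain ⟨r, hr⟩ := h.comp.isBounded.exists_norm_le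
  have hr0 : 0 ≤ r ∨ r < 0 := le_or_gt 0 r
  obtain ⟨ρ, hρ⟩ : ∃ ρ : ℝ, ρ = max r 0 + 1 := ⟨_, rfl⟩
  have hρ0 : 0 < ρ := by rw [hρ]; positivity
  -- cutoff
  let χ : ContDiffBump (0 : κ → ℝ) := ⟨ρ, ρ + 1, hρ0, by linarith⟩
  have hball : ∀ x ∈ L, x ∈ Metric.ball (0 : κ → ℝ) ρ := by
    intro x hx
    rw [mem_ball_zero_iff, hρ]
    linarith [hr x hx, le_max_left r 0]
  have hg : ContDiff ℝ 1 fun x => χ x * f x := χ.contDiff.mul hf
  have hsupp : HasCompactSupport fun x => χ x * f x :=
    χ.hasCompactSupport.mul_right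
  have heq : ∀ x ∈ L, (fun x => χ x * f x) =ᶠ[𝓝 x] f := by
    intro x hx
    filter_upwards [Metric.isOpen_ball.mem_nhds (hball x hx)] with z hz
    have : χ z = 1 := χ.one_of_mem_closedBall (Metric.ball_subset_closedBall hz)
    rw [this, one_mul]
  obtain ⟨C1, hC1⟩ := hg.continuous.bounded_above_of_compact_support hsupp
  obtain ⟨C2, hC2⟩ := (hg.continuous_fderiv one_ne_zero).bounded_above_of_compact_support
    (hsupp.fderiv ℝ)
  have hBf : Bf (fun x => χ x * f x) (max C1 C2) := by
    refine ⟨hg, fun x => (hC1 x).trans (le_max_left _ _), fun x v => ?_⟩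
    have h1 := (fderiv ℝ (fun x => χ x * f x) x).le_opNorm (Pi.single v 1)
    have h2 : ‖(Pi.single v (1 : ℝ) : κ → ℝ)‖ ≤ 1 := by
      rw [pi_norm_le_iff_of_nonneg zero_le_one]
      intro w
      by_cases hw : w = v
      · subst hw
        simp
      · simp [Pi.single_eq_of_ne hw]
    rw [← Real.norm_eq_abs]
    refine h1.trans (le_trans ?_ (le_max_right C1 C2))
    calc _ ≤ ‖fderiv ℝ (fun x => χ x * f x) x‖ * 1 :=
          mul_le_mul_of_nonneg_left h2 (norm_nonneg _)
      _ ≤ C2 := by rw [mul_one]; exact hC2 x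
  have hZ : 0 < ∫ y in KC R, rL L y := by
    have h1 := rL_int h (KC R) hKm (fun _ => 1)
    simp only [one_mul] at h1
    rw [h1, setIntegral_const, smul_eq_mul, mul_one, Measure.real]
    have h2 : volume (L ∩ KC R) ≠ ⊤ :=
      ((measure_mono inter_subset_left).trans_lt h.comp.measure_lt_top).ne
    have h3 := ENNReal.toReal_pos hv.ne' h2
    have h4 := h.V
    positivity
  have H := hC κ R (rL L) _ _ _ h.sy hs (h.mom hY i) hBf hZ
  rw [rL_int h (KC R) hKm (fun y => (χ y * f y) ^ 2), rL_int h (KC R) hKm (fun y => χ y * f y),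
    rL_int h (KC R) hKm (gr fun y => χ y * f y)] at H
  have h1 := rL_int h (KC R) hKm (fun _ => 1)
  simp only [one_mul] at h1
  rw [h1, setIntegral_const, smul_eq_mul, mul_one, Measure.real] at H
  have hm : MeasurableSet (L ∩ KC R) := h.comp.measurableSet.inter hKm
  have e1 : ∫ y in L ∩ KC R, (χ y * f y) ^ 2 = ∫ y in L ∩ KC R, f y ^ 2 :=
    setIntegral_congr_fun hm fun y hy => by
      have h5 : χ y * f y = f y := (heq y hy.1).eq_of_nhds
      show (χ y * f y) ^ 2 = f y ^ 2
      rw [h5]
  have e2 : ∫ y in L ∩ KC R, χ y * f y = ∫ y in L ∩ KC R, f y :=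
    setIntegral_congr_fun hm fun y hy => (heq y hy.1).eq_of_nhds
  have e3 : ∫ y in L ∩ KC R, gr (fun y => χ y * f y) y = ∫ y in L ∩ KC R, gr f y :=
    setIntegral_congr_fun hm fun y hy => by
      simp only [gr]
      rw [(heq y hy.1).fderiv_eq]
  rw [e1, e2, e3] at H
  have hV := h.V
  have h2 : volume (L ∩ KC R) ≠ ⊤ :=
    ((measure_mono inter_subset_left).trans_lt h.comp.measure_lt_top).ne
  have h3 := ENNReal.toReal_pos hv.ne' h2
  have h4 := mul_le_mul_of_nonneg_left H hV.le
  have e4 : ∀ a b V v : ℝ, 0 < V → 0 < v → V * (V⁻¹ * a - (V⁻¹ * b) ^ 2 / (V⁻¹ * v)) =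
      a - b ^ 2 / v := by
    intro a b V v hV hv
    field_simp
  rw [e4 _ _ _ _ hV h3] at h4
  refine h4.trans_eq ?_
  field_simp

end Run7.h523.KF
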