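import Pool.Agent.Run7.h523.KF.FIN2

/-!
# KLS for 1-symmetric bodies cut by order cones (helper523)
-/

set_option autoImplicit false

namespace Run7.h523.KF

open MeasureTheory Set Filter Topology
open scoped ENNReal InnerProductSpace

variable {κ : Type} [Fintype κ] [DecidableEq κ]

/-- the second moment of a coordinate is positive -/
theorem SB.mpos {L : Set (κ → ℝ)} (h : SB L) (i : κ) : 0 < ∫ y, y i ^ 2 * rL L y := by
  have e := rL_int h univ MeasurableSet.univ (fun y => y i ^ 2)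
  rw [Measure.restrict_univ, inter_univ] at e
  rw [e]
  have hV := h.V
  refine mul_pos (inv_pos.2 hV) ?_
  rw [integral_pos_iff_support_of_nonneg_ae]
  · have h1 : (volume.restrict L) {y : κ → ℝ | y i = 0} = 0 := by
      refine le_antisymm ((Measure.restrict_apply_le _ _).trans ?_) bot_le
      have h2 : {y : κ → ℝ | y i = 0} = (LinearMap.ker (LinearMap.proj (R := ℝ) i :
          (κ → ℝ) →ₗ[ℝ] ℝ) : Set (κ → ℝ)) := by
        ext y
        simp
      rw [h2]
      refine (Measure.addHaar_submodule volume _ fun htop => ?_).le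
      have h3 : (Pi.single i (1 : ℝ) : κ → ℝ) ∈ LinearMap.ker (LinearMap.proj (R := ℝ) i :
          (κ → ℝ) →ₗ[ℝ] ℝ) := by
        rw [htop]
        trivial
      simp at h3
    have h4 : Function.support (fun y : κ → ℝ => y i ^ 2) = {y : κ → ℝ | y i = 0}ᶜ := by
      ext y
      simp
    have h5 : MeasurableSet {y : κ → ℝ | y i = 0} :=
      measurableSet_eq_fun (measurable_pi_apply i) measurable_const
    have hfm : IsFiniteMeasure (volume.restrict L) :=
      ⟨by rw [Measure.restrict_apply_univ]; exact h.comp.measure_lt_top⟩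
    rw [h4, measure_compl h5 (measure_ne_top _ _), h1, tsub_zero, Measure.restrict_apply_univ]
    exact h.vol
  · exact Eventually.of_forall fun y => sq_nonneg _
  · exact (by fun_prop : Continuous fun y : κ → ℝ => y i ^ 2).continuousOn.integrableOn_compact
      h.comp

/-- the direction `(1, …, 1)` -/
theorem var_body (hY : S_SYR) {R : κ × Bool → κ × Bool → Prop} (hA : TypeA R)
    {L : Set (κ → ℝ)} (h : SB L) (hv : 0 < volume (L ∩ KC R)) (μ : Measure (EuclideanSpace ℝ κ))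
    (hμ : μ = (volume (EE (L ∩ KC R)))⁻¹ • volume.restrict (EE (L ∩ KC R))) (i : κ) (s : ℝ)
    (hvar : ∀ θ : EuclideanSpace ℝ κ, ‖θ‖ = 1 →
      ProbabilityTheory.variance (fun x => ⟪x, θ⟫_ℝ) μ ≤ s) :
    ∫ y, y i ^ 2 * rL L y ≤ s := by
  have hne : Nonempty κ := ⟨i⟩
  have hn : (0 : ℝ) < Fintype.card κ := by exact_mod_cast Fintype.card_pos
  have hKm : MeasurableSet (KC R : Set (κ → ℝ)) := (KC_closed R).measurableSet
  have hKc : IsCompact (L ∩ KC R) := h.comp.inter_right (KC_closed R)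
  obtain ⟨s0, hs0⟩ := h.mom0
  obtain ⟨h1, h2⟩ := hY κ R (rL L) s0 hA h.sy hs0
  have h2 := h2 i
  rw [rL_int h _ hKm (fun y => ∑ v, y v)] at h1
  have h3 := rL_int h (KC R) hKm (fun _ => 1)
  simp only [one_mul] at h3
  rw [rL_int h _ hKm (fun y => (∑ v, y v) ^ 2), h3, setIntegral_const, smul_eq_mul, mul_one,
    Measure.real] at h2
  have hV := h.V
  have hv2 : volume (L ∩ KC R) ≠ ⊤ :=
    ((measure_mono inter_subset_left).trans_lt h.comp.measure_lt_top).ne
  have hv3 := ENNReal.toReal_pos hv.ne' hv2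
  have h4 : ∫ y in L ∩ KC R, ∑ v, y v = 0 := by
    rcases mul_eq_zero.1 h1 with h5 | h5
    · exact absurd h5 (inv_ne_zero hV.ne')
    · exact h5
  have h5 : ∫ y in L ∩ KC R, (∑ v, y v) ^ 2 = (volume (L ∩ KC R)).toReal *
      (Fintype.card κ * ∫ y, y i ^ 2 * rL L y) := by
    have h6 := congrArg (fun a => (volume L).toReal * a) h2
    simp only [← mul_assoc, mul_inv_cancel₀ hV.ne', one_mul] at h6
    rw [h6]
    ring
  obtain ⟨N, hN⟩ : ∃ N, N = Real.sqrt (Fintype.card κ) := ⟨_, rfl⟩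
  have hN0 : 0 < N := by rw [hN]; exact Real.sqrt_pos.2 hn
  have hN2 : N ^ 2 = Fintype.card κ := by rw [hN, Real.sq_sqrt hn.le]
  have h7 := hvar (WithLp.toLp 2 fun _ => N⁻¹) (by
    rw [EuclideanSpace.norm_eq]
    simp only [Real.norm_eq_abs, sq_abs, Finset.sum_const, Finset.card_univ, nsmul_eq_mul]
    rw [← hN2, inv_pow, mul_inv_cancel₀ (by positivity), Real.sqrt_one])
  rw [var_EE hKc hv μ hμ _ (by fun_prop)] at h7
  have h8 : ∀ y : κ → ℝ, ⟪(WithLp.toLp 2 y : EuclideanSpace ℝ κ),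
      WithLp.toLp 2 fun _ => N⁻¹⟫_ℝ = N⁻¹ * ∑ v, y v := by
    intro y
    simp [PiLp.inner_apply, Finset.mul_sum]
  simp only [h8, mul_pow, integral_const_mul] at h7
  rw [h4, h5] at h7
  rw [mul_zero, zero_div, zero_pow two_ne_zero, sub_zero, ← hN2] at h7
  refine le_trans (le_of_eq ?_) h7
  field_simp

/-- **KLS for 1-symmetric bodies cut by order cones.** -/
theorem kls_body {K : ℝ} (hK : 0 < K) (hC : S_CMB K) (hY : S_SYR) [Nonempty κ]
    {R : κ × Bool → κ × Bool → Prop} (hA : TypeA R) {L : Set (κ → ℝ)} (h : SB L)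
    (hv : 0 < volume (L ∩ KC R)) (μ : Measure (EuclideanSpace ℝ κ))
    (hμ : μ = (volume (EE (L ∩ KC R)))⁻¹ • volume.restrict (EE (L ∩ KC R))) (s : ℝ)
    (hs : 0 < s) (hvar : ∀ θ : EuclideanSpace ℝ κ, ‖θ‖ = 1 →
      ProbabilityTheory.variance (fun x => ⟪x, θ⟫_ℝ) μ ≤ s) (S : Set (EuclideanSpace ℝ κ))
    (hS : MeasurableSet S) :
    ENNReal.ofReal (1 / (2 * Real.sqrt (40 * (K + 2 ^ 14))) / Real.sqrt s) *
      min (μ S) (μ Sᶜ) ≤ Run7.h444.ER.bd μ S := by
  obtain ⟨i⟩ := ‹Nonempty κ›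
  have hne : Nonempty κ := ⟨i⟩
  have h0 := h.mpos i
  have hC' : 0 < (K + 2 ^ 14) * ∫ y, y i ^ 2 * rL L y := by positivity
  have h1 := (poi_body hC hY R h hv i h0).iso hC' (h.comp.inter_right (KC_closed R))
    (h.conv.inter (KC_convex R)) hv μ hμ S hS
  have h2 := var_body hY hA h hv μ hμ i s hvar
  refine (mul_le_mul_right h1 _).trans ?_
  rw [← mul_assoc, ← ENNReal.ofReal_mul (by positivity)]
  refine (mul_le_mul' (ENNReal.ofReal_le_one.2 ?_) le_rfl).trans_eq (one_mul _)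
  have hs0 : 0 < Real.sqrt s := Real.sqrt_pos.2 hs
  have hK' : 0 < Real.sqrt (40 * (K + 2 ^ 14)) := Real.sqrt_pos.2 (by positivity)
  have h3 : Real.sqrt (40 * ((K + 2 ^ 14) * ∫ y, y i ^ 2 * rL L y)) ≤
      Real.sqrt (40 * (K + 2 ^ 14)) * Real.sqrt s := by
    rw [← Real.sqrt_mul (by positivity)]
    refine Real.sqrt_le_sqrt ?_
    rw [← mul_assoc]
    exact mul_le_mul_of_nonneg_left h2 (by positivity)
  calc 1 / (2 * Real.sqrt (40 * (K + 2 ^ 14))) / Real.sqrt s *
        (2 * Real.sqrt (40 * ((K + 2 ^ 14) * ∫ y, y i ^ 2 * rL L y)))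
      ≤ 1 / (2 * Real.sqrt (40 * (K + 2 ^ 14))) / Real.sqrt s *
        (2 * (Real.sqrt (40 * (K + 2 ^ 14)) * Real.sqrt s)) := by gcongr
    _ = 1 := by field_simp

end Run7.h523.KF
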