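import Mathlib

/-!
# KLS for polytopes cut out of the cube by inequalities `± x_i ± x_j ≤ 0` (helper523): interface

Theorem. Let `K ⊂ [-1, 1]^P` be given by ANY set of inequalities of the form `x_v ≤ x_w`,
`x_v + x_w ≤ 0`, `0 ≤ x_v + x_w`, `x_v ≤ 0`, `0 ≤ x_v` and let it have positive volume (order
polytopes of all posets, fractional stable set polytopes of all graphs, signed posets, ...).
Then for all `C¹` functions and every even weight `W` (with a supersolution `h`)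

  `Var_K f ≤ (1 / lam) ∑_v E_K W(x_v) (∂_v f)²`,

for `W = 1`: `lam = π² / 4`, the constant of the cube; for `W(y) = (1 - y²)²`: `lam = 1`. And KLS with an
absolute constant follows.

Proof. Discrete model: the labels `v ∈ P` sit on the odd integers `|z| < 2M`, at most one label on
`{z, -z}`, and satisfy the constraints. The bond `j ≥ 1` exchanges the levels `2j-1` and `2j+1` (on
both sides of `0`), the bond `0` exchanges `1` and `-1`; a move which leads out of the constraints is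
not allowed. `D_j f(x) = f(x) - f(s_j x)`. Then (L² argument, dihedral groups)
`⟨D_j f, D_k f⟩ ≥ 0` for `|j - k| ≥ 2`, `⟨D_j f, D_{j+1} f⟩ ≥ - cos(π/3) ‖D_j f‖ ‖D_{j+1} f‖`,
`⟨D_0 f, D_1 f⟩ ≥ - cos(π/4) ‖D_0 f‖ ‖D_1 f‖`, hence `‖∑ c_j D_j f‖² ≥ γ ∑ c_j ‖D_j f‖²`, which is the spectral
gap. Then `M → ∞`.

Every piece is a closed statement `S_XXX`; its complete proof is in its doc string.
-/

set_option autoImplicit false

namespace Run7.h523.KF

open MeasureTheory Set Filter Topology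
open scoped ENNReal

/-! ## Definitions -/

/-- value of the signed label `a`: `y v` for `a = (v, true)` and `- y v` for `a = (v, false)` -/
def sv {P α : Type} [Neg α] (y : P → α) (a : P × Bool) : α := if a.2 then y a.1 else -y a.1

/-- the polytope in the cube `[-1, 1]^P` with the inequalities `sv y a ≤ sv y b`, `R a b` -/
def KK {P : Type} (R : P × Bool → P × Bool → Prop) : Set (P → ℝ) :=
  {y | (∀ v, -1 ≤ y v ∧ y v ≤ 1) ∧ ∀ a b, R a b → sv y a ≤ sv y b}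

/-- the bond `j`: exchanges `2j-1` and `2j+1`, and `-(2j-1)` and `-(2j+1)`; for `j = 0` it exchanges
`1` and `-1` -/
def sb (j : ℕ) (z : ℤ) : ℤ :=
  if z = 2 * j + 1 then 2 * j - 1 else if z = -(2 * j + 1) then -(2 * j - 1)
  else if z = 2 * j - 1 then 2 * j + 1 else if z = -(2 * j - 1) then -(2 * j + 1) else z

/-- `s_j x` -/
def sx {P : Type} (j : ℕ) (x : P → ℤ) : P → ℤ := fun v => sb j (x v)

open Classical in
/-- the sites: odd integers of absolute value less than `2 M` -/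
noncomputable def Si (M : ℕ) : Finset ℤ := (Finset.Ioo (-(2 * M : ℤ)) (2 * M)).filter Odd

section defs
variable {P : Type} [Fintype P] [DecidableEq P]

open Classical in
/-- the states: labels on sites with different absolute values, satisfying the constraints -/
noncomputable def Om (R : P × Bool → P × Bool → Prop) (M : ℕ) : Finset (P → ℤ) :=
  (Fintype.piFinset fun _ : P => Si M).filter fun x =>
    (∀ v w, |x v| = |x w| → v = w) ∧ ∀ a b, R a b → sv x a ≤ sv x b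

open Classical in
/-- difference over the bond `j`, if the move is allowed -/
noncomputable def D (R : P × Bool → P × Bool → Prop) (M : ℕ) (f : (P → ℤ) → ℝ) (j : ℕ)
    (x : P → ℤ) : ℝ :=
  if x ∈ Om R M ∧ sx j x ∈ Om R M then f x - f (sx j x) else 0

/-- move the label `v` one site to the right -/
def rt (v : P) (x : P → ℤ) : P → ℤ := Function.update x v (x v + 2)

/-- the point of the cube with the state `x` and the shift `t ∈ [0, 1/M)^P` -/
noncomputable def pos (M : ℕ) (x : P → ℤ) (t : P → ℝ) : P → ℝ :=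
  fun v => ((x v : ℝ) - 1) / (2 * M) + t v

/-- the shifts -/
def Qb (P : Type) (M : ℕ) : Set (P → ℝ) := {t | ∀ v, 0 ≤ t v ∧ t v < 1 / M}

/-- supersolution: `c_j (2 h_j - h_{j+1} - h_{j-1}) ≥ 2 γ h_j` for `j < M`, with `h_{-1} = h_1` and
`h_M ≥ 0` arbitrary -/
structure Sup (M : ℕ) (c h : ℕ → ℝ) (γ : ℝ) : Prop where
  cpos : ∀ j, j < M → 0 < c j
  hpos : ∀ j, j < M → 0 < h j
  hM : 0 ≤ h M
  zero : 2 * γ * h 0 ≤ c 0 * (2 * h 0 - 2 * h 1)
  succ : ∀ j, j + 1 < M → 2 * γ * h (j + 1) ≤ c (j + 1) * (2 * h (j + 1) - h (j + 2) - h j)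

end defs

/-! ## Discrete pieces -/

/-- **INV.** Basic facts on the bonds. Proof: `unfold sb; split_ifs <;> omega`; for the states: `sb j` is an
odd involution of the sites (`j < M`) and it changes absolute values by a bijection of levels:
`|sb j z|` depends only on `|z|`, and injectively (odd `z`, `z'`), for `j ≥ 1`: levels exchanged; `j = 0`: the
levels do not change. -/
def S_INV : Prop :=
  (∀ (j : ℕ) (z : ℤ), sb j (sb j z) = z) ∧ (∀ (j : ℕ) (z : ℤ), sb j (-z) = -sb j z) ∧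
  (∀ (M j : ℕ) (z : ℤ), j < M → z ∈ Si M → sb j z ∈ Si M) ∧
  (∀ (j : ℕ) (z z' : ℤ), Odd z → Odd z' → (|sb j z| = |sb j z'| ↔ |z| = |z'|)) ∧
  (∀ (j k : ℕ) (z : ℤ), j + 2 ≤ k → Odd z → sb j (sb k z) = sb k (sb j z)) ∧
  (∀ (j : ℕ) (z : ℤ), 1 ≤ j → Odd z →
    sb (j + 1) (sb j (sb (j + 1) (sb j (sb (j + 1) (sb j z))))) = z) ∧
  (∀ z : ℤ, Odd z → sb 1 (sb 0 (sb 1 (sb 0 (sb 1 (sb 0 (sb 1 (sb 0 z))))))) = z)

/-- **COM.** Bonds which are not adjacent. Proof. `s = sx j`, `t = sx k` commute on `X` (vectors of sites)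
and are involutions of `X`. (1) If `x`, `s x`, `t x` are states then `s t x` is a state, and more generally if
`x, s x ∈ Om` and `t x ∈ Om` then `s t x ∈ Om`: a constraint `sv x a ≤ sv x b` can change under `sb j` only if both
`|sv x a|` and `|sv x b|` are in the two levels `2j ± 1` of the bond `j` (for `j = 0`: if it is about
`±1`, one label, `a.1 = b.1`), and these are not moved by `sb k`. (Pointwise on odd integers `p = sv x a`,
`q = sv x b` with `|p| ≠ |q|` or `p = ± q`: from `p ≤ q`, `sb j p ≤ sb j q`, `sb k p ≤ sb k q` follows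
`sb j (sb k p) ≤ sb j (sb k q)`.) (2) Sum over `X` instead of `Om` (`D` vanishes outside of `Om`), and average
over the orbit `x, s x, t x, s t x` (each is a bijection of `X`): with `a = D_j f(x)`, `b = D_j f(t x)`,
`c = D_k f(x)`, `d = D_k f(s x)` the values of `D_j f` are `a, -a, b, -b` at `x, s x, t x, s t x` and the ones of `D_k f` are
`c, d, -c, -d`: the sum of the products is `a c - a d - b c + b d = (a - b) (c - d)`. By (1) (also applied to `s x`, `t x`,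
`s t x`) either all four points are in `Om`, and then `a - b = c - d`, or at most two adjacent ones are in `Om` and
all products vanish. -/
def S_COM : Prop :=
  ∀ (P : Type) [Fintype P] [DecidableEq P] (R : P × Bool → P × Bool → Prop) (M : ℕ)
    (f : (P → ℤ) → ℝ) (j k : ℕ), j + 2 ≤ k → k < M →
    0 ≤ ∑ x ∈ Om R M, D R M f j x * D R M f k x

/-- alternate application of `a` and `b`: `z, a z, b a z, a b a z, …` -/
def alt {α : Type} (a b : α → α) : ℕ → α → α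
  | 0, z => z
  | i + 1, z => if i % 2 = 0 then a (alt a b i z) else b (alt a b i z)

/-- **PAT6.** The order of two points along a hexagon. `p`, `q` odd, `|p| ≠ |q|` or `q = p` or `q = -p`, `j ≥ 1`:
the set of `i < 6` with `alt (sb j) (sb (j+1)) i p ≤ alt (sb j) (sb (j+1)) i q` is everything or contained in three
cyclically consecutive `i`. Proof: the maps preserve signs (`j ≥ 1`) and are the identity outside of the
three levels `2j-1, 2j+1, 2j+3`; if not both `|p|`, `|q|` are in these levels, or if the signs differ, the order is the same for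
all `i`. For `p`, `q` both positive in the three levels, `p ≠ q`: the six orders. Best: compute `alt … i p` for all `i < 6` in
the cases `p = ±(2j-1), ±(2j+1), ±(2j+3)`, other (seven cases, `simp [alt, sb]`, `omega`), the same for `q`; then `omega`. -/
def S_PAT6 : Prop :=
  ∀ (j : ℕ) (p q : ℤ), 1 ≤ j → Odd p → Odd q →
    (∀ i < 6, alt (sb j) (sb (j + 1)) i p ≤ alt (sb j) (sb (j + 1)) i q) ∨
    ∃ i₀ < 6, ∀ i < 6, alt (sb j) (sb (j + 1)) i p ≤ alt (sb j) (sb (j + 1)) i q →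
      i = i₀ ∨ i = (i₀ + 1) % 6 ∨ i = (i₀ + 2) % 6

/-- **PAT8.** The same for the bonds `0` and `1`, with eight points and four consecutive ones. `|p| ≠ |q|` or `q = ± p`.
Levels `±1, ±3`. -/
def S_PAT8 : Prop :=
  ∀ (p q : ℤ), Odd p → Odd q →
    (∀ i < 8, alt (sb 0) (sb 1) i p ≤ alt (sb 0) (sb 1) i q) ∨
    ∃ i₀ < 8, ∀ i < 8, alt (sb 0) (sb 1) i p ≤ alt (sb 0) (sb 1) i q →
      i = i₀ ∨ i = (i₀ + 1) % 8 ∨ i = (i₀ + 2) % 8 ∨ i = (i₀ + 3) % 8

open Classical in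
/-- **DIH6.** Abstract inequality for hexagons. `X` a finite set, `a`, `b` involutions of `X` with `(b a)³ = 1`, `O ⊂ X` such that for
every `x ∈ X` the set of `i < 6` with `alt a b i x ∈ O` is everything or contained in three cyclically consecutive ones.
`A(x) = f(x) - f(a x)` if `x, a x ∈ O`, otherwise `0`; `B` similarly. Proof. `A` and `B` vanish outside of `O`, so sum over `X`.
Each `alt a b i` is a bijection of `X`, so it is enough to show for each `x` the inequality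
`-∑_{i<6} A(x_i) B(x_i) ≤ (1/4) ∑_{i<6} (t A(x_i)² + t⁻¹ B(x_i)²)`, `x_i = alt a b i x`. The `a`-edges are `x_0 x_1`, `x_2 x_3`, `x_4 x_5`, the `b`-edges
`x_1 x_2`, `x_3 x_4`, `x_5 x_0`. If all `x_i ∈ O`, let `e_i = f(x_{i+1}) - f(x_i)`, `∑ e_i = 0`; then `A(x_i) B(x_i) = - e_{i-1} e_i`, and with
`α = (e_0, e_2, e_4)`, `β = (e_1, e_3, e_5)`, `S = ∑ α = -∑ β`:
`∑ e_i e_{i+1} = - S² - (e_0 e_3 + e_2 e_5 + e_4 e_1) ≤ |α| |β| ≤ (t |α|² + t⁻¹ |β|²) / 2`, and the right hand side is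
`(1/4) (2 t |α|² + 2 t⁻¹ |β|²)`. Otherwise at most three consecutive points are in `O`, and at most one of the products is not
zero: at the middle point; it is `-e e'` and `e e' ≤ (t e² + t⁻¹ e'²)/2`, while the right hand side is at least
`(1/4) (2 t e² + 2 t⁻¹ e'²)`. -/
def S_DIH6 : Prop :=
  ∀ (α : Type) (X O : Finset α) (a b : α → α) (f : α → ℝ) (t : ℝ), 0 < t → O ⊆ X →
    (∀ x ∈ X, a x ∈ X) → (∀ x ∈ X, b x ∈ X) → (∀ x ∈ X, a (a x) = x) → (∀ x ∈ X, b (b x) = x) →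
    (∀ x ∈ X, alt a b 6 x = x) →
    (∀ x ∈ X, (∀ i < 6, alt a b i x ∈ O) ∨ ∃ i₀ < 6, ∀ i < 6, alt a b i x ∈ O →
      i = i₀ ∨ i = (i₀ + 1) % 6 ∨ i = (i₀ + 2) % 6) →
    -∑ x ∈ O, (if x ∈ O ∧ a x ∈ O then f x - f (a x) else 0) *
        (if x ∈ O ∧ b x ∈ O then f x - f (b x) else 0) ≤
      1 / 4 * (t * ∑ x ∈ O, (if x ∈ O ∧ a x ∈ O then f x - f (a x) else 0) ^ 2 +
        t⁻¹ * ∑ x ∈ O, (if x ∈ O ∧ b x ∈ O then f x - f (b x) else 0) ^ 2)

open Classical in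
/-- **DIH8.** The same for octagons, with `cos(π/4)`. Proof as for DIH6: now it is enough that
`-∑_{i<8} A(x_i) B(x_i) ≤ (√2/4) ∑_{i<8} (t A(x_i)² + t⁻¹ B(x_i)²)`. All `x_i ∈ O`: `e_i = f(x_{i+1}) - f(x_i)`, `α = (e_0, e_2, e_4, e_6)`,
`β = (e_1, e_3, e_5, e_7)`, `∑ α + ∑ β = 0`, `∑ e_i e_{i+1} = ∑_i α_i (β_{i-1} + β_i)`. Let `S = ∑ α`, `α' = α - S/4`, `β' = β + S/4` (sums zero): the sum is
`- S²/2 + ∑ α'_i (β'_{i-1} + β'_i) ≤ |α'| |γ|`, `γ_i = β'_{i-1} + β'_i`,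
`|γ|² = 2 |β'|² + 2 (β'_0 + β'_2) (β'_1 + β'_3) = 2 |β'|² - 2 (β'_0 + β'_2)² ≤ 2 |β'|²`. So it is at most
`√2 |α'| |β'| ≤ √2 |α| |β| ≤ (√2/2) (t |α|² + t⁻¹ |β|²)`. Otherwise the points of `O` are among four consecutive ones and there are at most
three edges `e, e', e''` (consecutive), the sum of the products is `-(e e' + e' e'')` and
`e' (e + e'') ≤ √2 |e'| √(e² + e''²) ≤ (√2/2) (t (e² + e''²) + t⁻¹ e'²)` (and the same with `t` and `t⁻¹` exchanged, if the outer edges are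
`b`-edges). -/
def S_DIH8 : Prop :=
  ∀ (α : Type) (X O : Finset α) (a b : α → α) (f : α → ℝ) (t : ℝ), 0 < t → O ⊆ X →
    (∀ x ∈ X, a x ∈ X) → (∀ x ∈ X, b x ∈ X) → (∀ x ∈ X, a (a x) = x) → (∀ x ∈ X, b (b x) = x) →
    (∀ x ∈ X, alt a b 8 x = x) →
    (∀ x ∈ X, (∀ i < 8, alt a b i x ∈ O) ∨ ∃ i₀ < 8, ∀ i < 8, alt a b i x ∈ O →
      i = i₀ ∨ i = (i₀ + 1) % 8 ∨ i = (i₀ + 2) % 8 ∨ i = (i₀ + 3) % 8) →
    -∑ x ∈ O, (if x ∈ O ∧ a x ∈ O then f x - f (a x) else 0) *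
        (if x ∈ O ∧ b x ∈ O then f x - f (b x) else 0) ≤
      Real.sqrt 2 / 4 * (t * ∑ x ∈ O, (if x ∈ O ∧ a x ∈ O then f x - f (a x) else 0) ^ 2 +
        t⁻¹ * ∑ x ∈ O, (if x ∈ O ∧ b x ∈ O then f x - f (b x) else 0) ^ 2)

/-- **HEX.** Adjacent bonds `j ≥ 1`, `j + 1`. Proof: DIH6 with `X` the vectors of sites, `a = sx j`, `b = sx (j+1)`. The vectors `x ∈ X` with the
property `|x v| = |x w| → v = w` are mapped to such vectors and the others to others (INV); if `x` has not this property, no `x_i` is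
in `Om`. If it has, and some `x_i ∉ Om`, then some constraint `R c d` fails for `x_i`; apply PAT6 to `p = sv x c`, `q = sv x d`; note
`sv x_i c = alt (sb j) (sb (j+1)) i (sv x c)` because the maps are odd. (INV, PAT6, DIH6 as hypotheses or imported.) -/
def S_HEX : Prop :=
  ∀ (P : Type) [Fintype P] [DecidableEq P] (R : P × Bool → P × Bool → Prop) (M : ℕ)
    (f : (P → ℤ) → ℝ) (j : ℕ) (t : ℝ), 1 ≤ j → j + 1 < M → 0 < t →
    -∑ x ∈ Om R M, D R M f j x * D R M f (j + 1) x ≤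
      1 / 4 * (t * ∑ x ∈ Om R M, D R M f j x ^ 2 + t⁻¹ * ∑ x ∈ Om R M, D R M f (j + 1) x ^ 2)

/-- **OCT.** The bonds `0` and `1`. Proof: DIH8, PAT8, INV as in HEX. -/
def S_OCT : Prop :=
  ∀ (P : Type) [Fintype P] [DecidableEq P] (R : P × Bool → P × Bool → Prop) (M : ℕ)
    (f : (P → ℤ) → ℝ) (t : ℝ), 1 < M → 0 < t →
    -∑ x ∈ Om R M, D R M f 0 x * D R M f 1 x ≤
      Real.sqrt 2 / 4 *
        (t * ∑ x ∈ Om R M, D R M f 0 x ^ 2 + t⁻¹ * ∑ x ∈ Om R M, D R M f 1 x ^ 2)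

/-- **ASM.** Assembly: purely an inequality for a Gram matrix. Abstractly: let `g j k` (`j, k < M`) be symmetric real numbers (`g j k = ⟨D_j, D_k⟩`), with
`g j j ≥ 0`, `g j k ≥ 0` for `j + 2 ≤ k`, `-g j (j+1) ≤ (1/4) (t g j j + t⁻¹ g (j+1) (j+1))` for all `t > 0`, `j ≥ 1`, and `-g 0 1 ≤ (√2/4) (t g 0 0 + t⁻¹ g 1 1)`. Then
`∑_{j,k<M} c_j c_k g j k ≥ γ ∑_{j<M} c_j g j j` for a supersolution. Proof: take `t_j = c_j h_{j+1} / (c_{j+1} h_j)` for `j ≥ 1`:
`-2 c_j c_{j+1} g j (j+1) ≤ (1/2) (c_j² (h_{j+1}/h_j) g j j + c_{j+1}² (h_j/h_{j+1}) g (j+1) (j+1))`; `t_0 = √2 c_0 h_1 / (c_1 h_0)`: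
`-2 c_0 c_1 g 0 1 ≤ c_0² (h_1/h_0) g 0 0 + (1/2) c_1² (h_0/h_1) g 1 1`. So the double sum is at least
`∑_j c_j² g j j (1 - (h_{j+1} + h_{j-1}) / (2 h_j))` (with `h_{-1} = h_1`, and one has to use `h_M ≥ 0`; for `j = M-1` there is no term `h_M`), and
`c_j (2 h_j - h_{j+1} - h_{j-1}) ≥ 2 γ h_j`. Induction on the number of terms or `Finset.sum` manipulations; `M = 0, 1` are trivial. -/
def S_ASM : Prop :=
  ∀ (M : ℕ) (c h : ℕ → ℝ) (γ : ℝ) (g : ℕ → ℕ → ℝ), Sup M c h γ → (∀ j k, g j k = g k j) →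
    (∀ j, 0 ≤ g j j) → (∀ j k, j + 2 ≤ k → k < M → 0 ≤ g j k) →
    (∀ j t, 1 ≤ j → j + 1 < M → 0 < t → -g j (j + 1) ≤ 1 / 4 * (t * g j j + t⁻¹ * g (j + 1) (j + 1))) →
    (∀ t, 1 < M → 0 < t → -g 0 1 ≤ Real.sqrt 2 / 4 * (t * g 0 0 + t⁻¹ * g 1 1)) →
    γ * ∑ j ∈ Finset.range M, c j * g j j ≤
      ∑ j ∈ Finset.range M, ∑ k ∈ Finset.range M, c j * c k * g j k

/-- **CON.** Connectivity. Proof. Let `x ≠ y` be states. For a label `v` let `u_v = y_v` if `x_v > 0` and `u_v = -y_v` if `x_v < 0` (the target, seen from the side where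
the label is). Let `Q(x) = ∑_v (x_v - y_v)² = ∑_v (|x_v| - u_v)²`. Claim: there is a bond `j < M` with `s_j x ∈ Om` and `Q(s_j x) < Q(x)`. Then induction on `Q` gives
`f x = f y`. Proof of the claim: suppose that for all `j < M`: (i) if labels sit on the levels `2j-1` and `2j+1` (`j ≥ 1`; labels `v`, `w`) then `u_v < u_w`; (ii) if a label `v` is on
the level `2j-1` and none on `2j+1` then `u_v ≤ 2j-1 = |x_v|`; (iii) if a label `w` is on the level `2j+1`, none on `2j-1`, `j ≥ 1`, then `u_w ≥ 2j+1`; (iv) if a label `v` is on level `1` then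
`u_v > 0`. Then `u_v = |x_v|` for all `v`: going up in a block of consecutive occupied levels `u_v ≥ |x_v|` (start: (iii) or (iv); step: (i), `u` odd so it increases by
at least `2`), going down `u_v ≤ |x_v|` (start: (ii), or the highest level `2M-1`, where `|u_v| ≤ 2M-1`). So `x = y`. Hence one of (i)-(iv) fails for some bond `j < M`
(for (ii), the bond of the levels `2j-1`, `2j+1`, `2j+1 < 2M`): then `Q` decreases: (i) the change is `4 (u_w - u_v) < 0` (`u_v ≠ u_w` because `|y_v| ≠ |y_w|`), (ii) `u_v ≥ 2j+1`: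
`(2j+1-u)² < (2j-1-u)²`, (iii) similar, (iv) `u_v ≤ -1`: `|−1−u|² < |1−u|²`. And `s_j x` is a state: a constraint `sv x a ≤ sv x b` which fails for `s_j x` concerns the two labels which are exchanged
(with the same side factor), or the label on level 1 (`j = 0`, `a.1 = b.1`) (for a single label moved between levels `2j ± 1` with the other empty, no order with another label
changes): then the order of `sv · a`, `sv · b` in `y` is the one of `s_j x` by the failure of (i) or (iv), so the constraint fails for `y`, a contradiction.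
(Alternative proof of the order claim by brute force: pointwise lemma on odd integers.) -/
def S_CON : Prop :=
  ∀ (P : Type) [Fintype P] [DecidableEq P] (R : P × Bool → P × Bool → Prop) (M : ℕ)
    (f : (P → ℤ) → ℝ), (∀ j < M, ∀ x ∈ Om R M, D R M f j x = 0) →
    ∀ x ∈ Om R M, ∀ y ∈ Om R M, f x = f y

open Classical in
/-- **DUA.** Duality. Abstract: `O` a finite nonempty set, `s j` (`j < M`) involutions of the whole type, `c j > 0`,
`A_j f(x) = f(x) - f(s_j x)` if `x, s_j x ∈ O`, else `0`. Assume `∑_{x∈O} (∑_j c_j A_j f(x))² ≥ γ ∑_j c_j ∑_{x∈O} A_j f(x)²` for all `f`, `γ > 0`, and that `A_j f = 0` on `O` for all `j < M` implies `f`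
constant on `O`. Then `∑_O f² - (∑_O f)²/|O| ≤ (1/(4γ)) ∑_j c_j ∑_O (A_j f)²`. Proof. `L f = ∑_j c_j A_j f`. By the symmetry `x ↔ s_j x`: `∑_O g A_j f = (1/2) ∑_O (A_j g) (A_j f)`. So
`⟨g, L f⟩ = (1/2) ∑_j c_j ⟨A_j g, A_j f⟩`. Let `V₀` be the functions `O → ℝ` with sum zero (finite-dimensional); `L` maps `V₀` to `V₀` (take `g = 1`) and is injective on it (if `L f = 0`, `⟨f, L f⟩ = 0`, all `A_j f = 0`,
so `f` is constant with sum zero). So it is surjective (`LinearMap.injective_iff_surjective`). Let `f₀ = f - mean`, `f₀ = L u`. Then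
`‖f₀‖² = ⟨f₀, L u⟩ = (1/2) ∑ c_j ⟨A_j f, A_j u⟩ ≤ (1/2) E(f)^{1/2} E(u)^{1/2}`, `E(f) = ∑ c_j ‖A_j f‖²`, and `γ E(u) ≤ ‖L u‖² = ‖f₀‖²`: so `‖f₀‖² ≤ E(f) / (4 γ)`. -/
def S_DUA : Prop :=
  ∀ (α : Type) (O : Finset α) (M : ℕ) (s : ℕ → α → α) (c : ℕ → ℝ) (γ : ℝ), O.Nonempty → 0 < γ →
    (∀ j x, s j (s j x) = x) → (∀ j, j < M → 0 < c j) →
    (∀ f : α → ℝ, γ * ∑ j ∈ Finset.range M, c j *
        ∑ x ∈ O, (if x ∈ O ∧ s j x ∈ O then f x - f (s j x) else 0) ^ 2 ≤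
      ∑ x ∈ O, (∑ j ∈ Finset.range M, c j *
        (if x ∈ O ∧ s j x ∈ O then f x - f (s j x) else 0)) ^ 2) →
    (∀ f : α → ℝ, (∀ j < M, ∀ x ∈ O, (if x ∈ O ∧ s j x ∈ O then f x - f (s j x) else 0) = 0) →
      ∀ x ∈ O, ∀ y ∈ O, f x = f y) →
    ∀ f : α → ℝ, ∑ x ∈ O, f x ^ 2 - (∑ x ∈ O, f x) ^ 2 / O.card ≤
      1 / (4 * γ) * ∑ j ∈ Finset.range M, c j *
        ∑ x ∈ O, (if x ∈ O ∧ s j x ∈ O then f x - f (s j x) else 0) ^ 2

/-- **MOV.** From bonds to moves of single labels. `|f x - f (s_j x)| ≤ L` for all states with `s_j x` a state, `0 ≤ c_j ≤ 1`. Proof. Fix `j` and a state `x` with `s_j x ∈ Om`. The number of labels `v` with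
`|x_v| ∈ {2j-1, 2j+1}` is 0, 1 or 2. 0: `s_j x = x`. 1: `s_j x = rt v x` or `x = rt v (s_j x)`, `j = |x_v + 1| / 2` (`x_v` the left one of the two positions `z, z+2`: the bond which moves `z` to `z+2` is `j = |z+1|/2`).
By symmetry `x ↔ s_j x` the total of these terms, over all `j`, is at most `2 ∑_v ∑_{x, rt v x ∈ Om} c_{|x_v+1|/2} (f(rt v x) - f(x))²`. 2: then two different labels `v`, `w` have `||x_v| - |x_w|| = 2`;
the term is at most `L²`, and for each ordered pair `(v, w)` and each `x` there is at most one `j`: total at most `L² · (card P)² · #{x ∈ Om : ∃ v ≠ w, ||x v| - |x w|| ≤ 2}`. -/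
def S_MOV : Prop :=
  ∀ (P : Type) [Fintype P] [DecidableEq P] (R : P × Bool → P × Bool → Prop) (M : ℕ)
    (f : (P → ℤ) → ℝ) (c : ℕ → ℝ) (L : ℝ), (∀ j, 0 ≤ c j ∧ c j ≤ 1) → 0 ≤ L →
    (∀ j < M, ∀ x ∈ Om R M, sx j x ∈ Om R M → |f x - f (sx j x)| ≤ L) →
    ∑ j ∈ Finset.range M, c j * ∑ x ∈ Om R M, D R M f j x ^ 2 ≤
      2 * ∑ v : P, ∑ x ∈ (Om R M).filter (fun x => rt v x ∈ Om R M),
          c ((x v + 1).natAbs / 2) * (f (rt v x) - f x) ^ 2 +
        L ^ 2 * (Fintype.card P : ℝ) ^ 2 *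
          ((Om R M).filter fun x => ∃ v w, v ≠ w ∧ abs (|x v| - |x w|) ≤ 2).card

/-- **CNT.** There are few states with two labels on adjacent levels. Proof. `Om ⊂ X`, `|X| = (2M)^{|P|}` (`card (Si M) = 2M`). For a pair `v ≠ w` the number of `x ∈ X` with `||x_v| - |x_w|| ≤ 2` is at most
`6 (2M)^{|P|-1}`: the map `x ↦ x` restricted to `P \ {w}` has fibres of at most `6` elements (`x_w ∈ {±|x_v| + {-2, 0, 2}}`). So the total is at most `|P|² 6 (2M)^{|P|-1}`. `C = 6 |P|² 2^{|P|}`. Simplest: `Finset.card_le_mul_card_image`, or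
inject into `P × P × Fin 6 × X'` … (`(card : ℝ) * M ≤ C * M ^ card P`). -/
def S_CNT : Prop :=
  ∀ (P : Type) [Fintype P] [DecidableEq P] (R : P × Bool → P × Bool → Prop), ∃ C : ℝ, 0 ≤ C ∧
    ∀ M : ℕ, (((Om R M).filter fun x => ∃ v w, v ≠ w ∧ abs (|x v| - |x w|) ≤ 2).card : ℝ) * M ≤
      C * (M : ℝ) ^ Fintype.card P

/-- **SUP1.** `c = 1`, `h_j = cos(π j / (2M))`, `γ = 1 - cos(π/(2M))`: `2 cos a - cos (a+b) - cos (a-b) = 2 cos a (1 - cos b)`. -/
def S_SUP1 : Prop :=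
  ∀ M : ℕ, 1 ≤ M → Sup M (fun _ => 1) (fun j => Real.cos (Real.pi * j / (2 * M)))
    (1 - Real.cos (Real.pi / (2 * M)))

/-- **SUP2.** `c_j = (1 - (j/M)²)²`, `h_j = √(1 - (j/M)²)`, `γ = 1/(2 M²)`, `M ≥ 2`. With `δ = 1/M`, `y = j/M`, `q = 1 - y²` one has to show
`√(q - δ² - 2 y δ) + √(q - δ² + 2 y δ) ≤ 2 √q (1 - δ²/(2 q²))`. Square (both sides are `≥ 0`): `2 (q - δ²) + 2 √((q+δ²)² - 4 δ²) ≤ 4 q (1 - δ²/(2q²))²`, because `(q-δ²)² - 4 (1-q) δ² = (q+δ²)² - 4 δ²`. That is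
`√((q+δ²)² - 4 δ²) ≤ q + δ² - 2 δ²/q + δ⁴/(2 q³)`. Square again: the difference of the squares, right minus left, is `(δ⁴/q²) ((1 - s/2)² + (1-q) (4 - s))` with `s = δ²/q² ≤ 1` (`q ≥ 2δ - δ² ≥ δ` because `y ≤ 1 - δ`); and the
right hand side is `q (1 - 2 s + s²/2 + s q) ≥ 0` as `s ≤ 1/(2-δ)² ≤ 4/9` for `δ ≤ 1/2`. -/
def S_SUP2 : Prop :=
  ∀ M : ℕ, 2 ≤ M → Sup M (fun j => (1 - ((j : ℝ) / M) ^ 2) ^ 2)
    (fun j => Real.sqrt (1 - ((j : ℝ) / M) ^ 2)) (1 / (2 * (M : ℝ) ^ 2))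

/-! ## Continuous pieces -/

/-- **CEL1.** Cells of states are in `K`. Proof: `-1 ≤ (x_v - 1)/(2M)`, `(x_v + 1)/(2M) ≤ 1` for odd `|x_v| < 2M`. Constraints: `p = sv x a ≤ q = sv x b`, `p = q`: then `a = b` (absolute values are different for different labels and `x_v ≠ 0`), trivial. `p < q`: then `p + 2 ≤ q` (odd) and
`sv (pos) a ≤ (p+1)/(2M) ≤ (q-1)/(2M) ≤ sv (pos) b`. -/
def S_CEL1 : Prop :=
  ∀ (P : Type) [Fintype P] [DecidableEq P] (R : P × Bool → P × Bool → Prop) (M : ℕ), 1 ≤ M →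
    ∀ x ∈ Om R M, ∀ t ∈ Qb P M, pos M x t ∈ KK R

/-- **CEL2.** Shifted cells. Proof: for `x` in the sum and `t ∈ Qb`, the point `pos M x t + s e_v` is on the segment from `pos M x t ∈ K` to `pos M (rt v x) t ∈ K` (CEL1), so it is in the convex set `K`. The maps `t ↦ pos M x t + s e_v` are translations of `Qb` onto
pairwise disjoint measurable sets (`x` is determined by the point: `⌊M y_v⌋`-type argument; for different `x`, `x'` there is `w` with `|x_w - x'_w| ≥ 2`). So the sum is the integral of `G` over a disjoint union contained in `K`, `G ≥ 0`. (`G` continuous, `K` compact.) -/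
def S_CEL2 : Prop :=
  ∀ (P : Type) [Fintype P] [DecidableEq P] (R : P × Bool → P × Bool → Prop) (M : ℕ), 1 ≤ M →
    ∀ (v : P) (s : ℝ), 0 ≤ s → s ≤ 1 / M → ∀ G : (P → ℝ) → ℝ, Continuous G → (∀ y, 0 ≤ G y) →
    ∑ x ∈ (Om R M).filter (fun x => rt v x ∈ Om R M),
        ∫ t in Qb P M, G (fun w => pos M x t w + if w = v then s else 0) ≤
      ∫ y in KK R, G y

/-- **CEL3.** Riemann sums. Proof. `∑_x ∫_Q G(pos M x t) dt = ∫_{U_M} G` with `U_M ⊂ K` the disjoint union of the cells of the states. If `y ∈ K`, `0 < |y_v| < 1` for all `v` and `||y_v| - |y_w|| > 1/M` for all `v ≠ w`, then `y ∈ U_M`: `y` is in the cell of some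
vector `x` of sites (`x_v = 2 ⌊M y_v⌋ + 1`); `|x_v| ≠ |x_w|` for `v ≠ w` because otherwise `|y_v|` and `|y_w|` would be in the same closed interval of length `1/M`; if `sv y a ≤ sv y b` but `sv x a > sv x b` then `sv y a ≥ sv y b`, so they are equal, so `|y_{a.1}| = |y_{b.1}|`, `a.1 = b.1`,
`b = (a.1, not a.2)`, `sv y a = 0`: excluded. So for every `y ∈ K` outside of the null set where `y_v = 0` or `|y_v| = 1` or `|y_v| = |y_w|` for some `v ≠ w` one has `y ∈ U_M` for all large `M`: dominated convergence (`G` bounded on `K`), indicator functions of `U_M`. -/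
def S_CEL3 : Prop :=
  ∀ (P : Type) [Fintype P] [DecidableEq P] (R : P × Bool → P × Bool → Prop)
    (G : (P → ℝ) → ℝ), Continuous G →
    Tendsto (fun M : ℕ => ∑ x ∈ Om R M, ∫ t in Qb P M, G (pos M x t)) atTop
      (𝓝 (∫ y in KK R, G y))

/-- **ENE.** Energy of the moves of single labels. `F` is `C¹`, `W` continuous, `W ≥ 0`, `ω ≥ 0` with `W z ≤ W y + ω` for `|y| ≤ 1`, `|z| ≤ 1`, `|y - z| ≤ 1/M`, and `c j = W (j/M)`, `W` even. Proof. For `x, rt v x ∈ Om`, `t ∈ Q`: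
`F(pos M (rt v x) t) - F(pos M x t) = ∫_0^{1/M} (∂_v F)(pos M x t + s e_v) ds`, the square is at most `(1/M) ∫_0^{1/M} (∂_v F)²(pos M x t + s e_v) ds`. The coordinate `y_v` of the point satisfies `|y_v - (x_v + 1)/(2M)| ≤ 1/M`, and `c(|x_v+1|/2) = W(|x_v+1|/(2M)) = W((x_v+1)/(2M)) ≤ W(y_v) + ω`.
Exchange the integrals over `t` and `s` (continuous functions, bounded domains) and use CEL2 with `G(y) = (W(y_v) + ω) (∂_v F(y))²` for each `s`: total `≤ (1/M) ∫_0^{1/M} ∫_K G ds = M^{-2} ∫_K G`. -/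
def S_ENE : Prop :=
  ∀ (P : Type) [Fintype P] [DecidableEq P] (R : P × Bool → P × Bool → Prop) (M : ℕ), 1 ≤ M →
    ∀ (v : P) (F : (P → ℝ) → ℝ) (W : ℝ → ℝ) (ω : ℝ), ContDiff ℝ 1 F → Continuous W →
    (∀ y, 0 ≤ W y) → (∀ y, W (-y) = W y) → 0 ≤ ω →
    (∀ y z : ℝ, |y| ≤ 1 → |z| ≤ 1 → |y - z| ≤ 1 / M → W z ≤ W y + ω) →
    ∑ x ∈ (Om R M).filter (fun x => rt v x ∈ Om R M), W ((((x v + 1).natAbs / 2 : ℕ) : ℝ) / M) *
        ∫ t in Qb P M, (F (pos M (rt v x) t) - F (pos M x t)) ^ 2 ≤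
      1 / (M : ℝ) ^ 2 * ∫ y in KK R, (W (y v) + ω) * (fderiv ℝ F y (Pi.single v 1)) ^ 2

/-- discrete Poincaré inequality, consequence of the discrete pieces (leader) -/
def S_DISC : Prop :=
  ∀ (P : Type) [Fintype P] [DecidableEq P] (R : P × Bool → P × Bool → Prop) (M : ℕ)
    (c h : ℕ → ℝ) (γ : ℝ), 0 < γ → Sup M c h γ → (Om R M).Nonempty → ∀ f : (P → ℤ) → ℝ,
    ∑ x ∈ Om R M, f x ^ 2 - (∑ x ∈ Om R M, f x) ^ 2 / (Om R M).card ≤
      1 / (4 * γ) * ∑ j ∈ Finset.range M, c j * ∑ x ∈ Om R M, D R M f j x ^ 2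

/-- master inequality: `W` even, continuous, `0 ≤ W ≤ 1`, with supersolutions for all large `M` -/
def Master (P : Type) [Fintype P] [DecidableEq P] (R : P × Bool → P × Bool → Prop) (W : ℝ → ℝ)
    (lam : ℝ) : Prop :=
  ∀ F : (P → ℝ) → ℝ, ContDiff ℝ 1 F →
    (∫ y in KK R, F y ^ 2) - (∫ y in KK R, F y) ^ 2 / (volume (KK R)).toReal ≤
      1 / lam * ∑ v : P, ∫ y in KK R, W (y v) * (fderiv ℝ F y (Pi.single v 1)) ^ 2

/-- **LIM.** The limit `M → ∞` (given DISC, MOV, CNT, ENE, CEL1, CEL3 as hypotheses: prove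
`S_DISC → S_MOV → S_CNT → S_ENE → S_CEL1 → S_CEL3 → S_LIM`). Hypothesis on `W`: for all large `M` there are `h`, `γ_M > 0` with `Sup M (fun j => W (j/M)) h γ_M`, and `2 M² γ_M → lam > 0`. Proof. `V = vol K > 0`. For `t ∈ Q = Qb P M` apply DISC to `f_t(x) = F(pos M x t)`, then MOV, and integrate over `t ∈ Q`
(`vol Q = M^{-n}`, `n = card P`): with `S(t) = ∑_x F(pos M x t)`, `N = |Om|`,
`∑_x ∫_Q F(pos)² - (1/N) ∫_Q S(t)² dt ≤ (1/(4γ_M)) (2 ∑_v ∑_x ∫_Q W(..) (F(pos (rt v x)) - F(pos x))² + L_M² n² #bad M^{-n})`. `F` is Lipschitz on the cube `[-2, 2]^P` with a constant `B` for the sup norm (`C¹` on a convex compact set), the moves `s_j` change coordinates by at most `1/M`: `L_M = B/M`; `#bad M^{-n} ≤ C/M` (CNT).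
`|S(t) - S(t')| ≤ N B/M` for `t, t' ∈ Q`, so `|S(t) - M^n ∫_Q S| ≤ N B/M` and `∫_Q S² ≤ M^{-n} (|M^n ∫_Q S| + N B/M)²`; `(1/N) M^{-n} (M^n I + N B/M)² = (1/V_M) (I + V_M B/M)²` with `I = |∫_Q S|`, `V_M = N M^{-n} → V` (CEL3 with `G = 1`), `∫_Q S → ∫_K F` (CEL3). By ENE the first part of the right hand side is at most
`(1/(2 M² γ_M)) ∑_v ∫_K (W + ω_M) (∂_v F)²`, `ω_M → 0` (uniform continuity of `W` on `[-1, 1]`), the second `(M²/(4 M² γ_M)) (B²/M²) n² C/M → 0`. Let `M → ∞`: the limits of both sides give the master inequality. -/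
def S_LIM : Prop :=
  ∀ (P : Type) [Fintype P] [DecidableEq P] (R : P × Bool → P × Bool → Prop) (W : ℝ → ℝ) (lam : ℝ),
    0 < volume (KK R) → Continuous W → (∀ y, 0 ≤ W y) → (∀ y, W (-y) = W y) →
    (∀ y, W y ≤ 1) → 0 < lam →
    (∃ (M₀ : ℕ) (h : ℕ → ℕ → ℝ) (γ : ℕ → ℝ), (∀ M, M₀ ≤ M → 0 < γ M ∧
      Sup M (fun j => W ((j : ℝ) / M)) (h M) (γ M)) ∧
      Tendsto (fun M : ℕ => 2 * (M : ℝ) ^ 2 * γ M) atTop (𝓝 lam)) →
    Master P R W lam

/-! ## Consequences -/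

/-- **SYM.** Symmetrization. Proof: outside of the null set `N = {y_v = 0 or |y_v| = |y_w| for some v ≠ w}` the number of pairs (permutation `σ` of `P`, signs `ε`) such that the point `(σ, ε) y = (ε_v y_{σ v})_v` is in `K` does not depend on `y ∈ [-1,1]^P \ N`: if `y`, `y'` are two such points there is a pair `g` such that
`g y` has the same order of the values `±y_v` as `y'` (sort the absolute values; make the signs equal), i.e. `sv (g y) a ≤ sv (g y) b ↔ sv y' a ≤ sv y' b` for all `a`, `b`, so `g' g y ∈ K ↔ g' y' ∈ K` for all `g'`. So `m = #{g : g y ∈ K}` is constant a.e. on the cube. For `Φ` invariant,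
`|G| ∫_K Φ = ∑_g ∫_{cube} 1_K(g y) Φ(y) dy = m ∫_{cube} Φ`, and the same for `Φ = 1`; `vol (cube) = 2^n`. -/
def S_SYM : Prop :=
  ∀ (P : Type) [Fintype P] [DecidableEq P] (R : P × Bool → P × Bool → Prop)
    (Φ : (P → ℝ) → ℝ), Continuous Φ → (∀ (σ : Equiv.Perm P) (y : P → ℝ), Φ (fun v => y (σ v)) = Φ y) →
    (∀ (v : P) (y : P → ℝ), Φ (Function.update y v (-y v)) = Φ y) →
    ∫ y in KK R, Φ y =
      (volume (KK R)).toReal / 2 ^ Fintype.card P * ∫ y in (Set.pi univ fun _ : P => Icc (-1 : ℝ) 1), Φ y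

/-- **IBP.** Proof. For `|s| < 1/4` the map `φ_s(y) = y + s (y - y³)` is an odd increasing bijection of `[-1, 1]` (`φ_s' = 1 + s (1 - 3y²) > 0`), so the map `Φ_s(y) = (φ_s(y_v))_v` is a bijection of `K` onto `K` (it preserves and reflects all inequalities `sv y a ≤ sv y b`), with Jacobian determinant
`∏_v (1 + s (1 - 3 y_v²))`. So `I(s) = ∫_K (∑_v θ_v φ_s(y_v)) ∏_v (1 + s (1 - 3 y_v²)) dy` does not depend on `s` (change of variables, `MeasureTheory.integral_image_eq_integral_abs_det_fderiv_smul`; or one coordinate at a time). `I` is a polynomial in `s`; its derivative at `0` vanishes: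
`∫_K (∑_v θ_v (y_v - y_v³) + (∑_v θ_v y_v) (∑_v (1 - 3 y_v²))) dy = 0`. (Alternative: `hasDerivAt_integral_of_dominated_loc_of_deriv_le`.) -/
def S_IBP : Prop :=
  ∀ (P : Type) [Fintype P] [DecidableEq P] (R : P × Bool → P × Bool → Prop) (θ : P → ℝ),
    ∫ y in KK R, ((∑ v, θ v * (y v - y v ^ 3)) +
      (∑ v, θ v * y v) * ∑ v, (1 - 3 * y v ^ 2)) = 0

/-- **VLB.** The largest variance of a marginal is at least `1/63` (given SYM, IBP as hypotheses: prove `S_SYM → S_IBP → S_VLB`). Proof. `E` = mean over `K`, `n = card P ≥ 1`, `g(y) = y - y³`, `a_v = E g(y_v)`. Suppose `Var (∑ θ_v y_v) ≤ s |θ|²` for all `θ`. SYM for `∑_v g(y_v)²` and `(∑_v (1 - 3 y_v²))²`: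
`E ∑ g(y_v)² = n ∫_0^1 (y - y³)² dy = 8n/105`, `E (∑ (1 - 3y_v²))² = n ∫_0^1 (1 - 3y²)² dy = 4n/5` (product measure, mean `0`), also `E ∑ (1 - 3 y_v²) = 0`. IBP with `θ = a`: `|a|² = -Cov(∑ a_v y_v, ∑ (1 - 3y_v²))`, so `|a|⁴ ≤ s |a|² · 4n/5`, `|a|² ≤ 4 n s / 5`. And `Var g(y_v) ≤ 4 Var y_v ≤ 4 s`
(`|g'| ≤ 2`: `Var g(y_v) ≤ E (g(y_v) - g(m))² ≤ 4 E (y_v - m)²`, `m = E y_v`). So `8n/105 = ∑ Var g(y_v) + |a|² ≤ 4 n s + 4 n s/5`, `s ≥ 1/63`. -/
def S_VLB : Prop :=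
  ∀ (P : Type) [Fintype P] [DecidableEq P] [Nonempty P] (R : P × Bool → P × Bool → Prop) (s : ℝ),
    0 < volume (KK R) →
    (∀ θ : P → ℝ, (∫ y in KK R, (∑ v, θ v * y v) ^ 2) / (volume (KK R)).toReal -
      ((∫ y in KK R, ∑ v, θ v * y v) / (volume (KK R)).toReal) ^ 2 ≤ s * ∑ v, θ v ^ 2) →
    1 / 63 ≤ s

end Run7.h523.KF
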