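import Pool.Agent.Run7.h523.KF.Iface

/-!
# Independent log-concave variables conditioned on a partial order: interface, second part (helper523)

Let `ρ` be a log-concave probability density on the line and let `X_v`, `v ∈ P`, be independent with the law `ρ`, conditioned on
`X_v ≤ X_w` for all `(v, w)` in an arbitrary relation. Then `Var f(X) ≤ 48 Var(ρ) E |∇f(X)|²` and `Var (∑ X_v) = |P| Var(ρ)`.

Proof: `X_v = T(Y_v)` with `Y` uniform in the polytope `KK R` and `T` the quantile function of `ρ` in the variable `y ∈ (-1, 1)`;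
`(1 - y²) T'(y) ≤ B`, `B² ≤ 48 Var(ρ)`; the master inequality with the weight `(1 - y²)²`, `lam = 1`.
-/

set_option autoImplicit false

namespace Run7.h523.KF

open MeasureTheory Set Filter Topology
open scoped ENNReal

/-- log-concave probability densities on the line -/
structure LCD (ρ : ℝ → ℝ) : Prop where
  nonneg : ∀ x, 0 ≤ ρ x
  meas : Measurable ρ
  logc : ∀ x y, ∀ t : ℝ, 0 < t → t < 1 → ρ x ^ (1 - t) * ρ y ^ t ≤ ρ ((1 - t) * x + t * y)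
  mass : ∫⁻ x, ENNReal.ofReal (ρ x) = 1

/-- the distribution function -/
noncomputable def FF (ρ : ℝ → ℝ) (x : ℝ) : ℝ := ∫ t in Iic x, ρ t

/-- `T` is the quantile function of `ρ` in the variable `y ∈ (-1, 1)`, `(1 - y²) T'(y) ≤ B` -/
structure Qtl (ρ T T' : ℝ → ℝ) (B : ℝ) : Prop where
  deriv : ∀ y ∈ Ioo (-1 : ℝ) 1, HasDerivAt T (T' y) y
  cont : ContinuousOn T' (Ioo (-1) 1)
  pos : ∀ y ∈ Ioo (-1 : ℝ) 1, 0 < T' y
  bound : ∀ y ∈ Ioo (-1 : ℝ) 1, (1 - y ^ 2) * T' y ≤ B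
  law : ∀ φ : ℝ → ℝ≥0∞, Measurable φ →
    ∫⁻ x, φ x * ENNReal.ofReal (ρ x) = 1 / 2 * ∫⁻ y in Ioo (-1 : ℝ) 1, φ (T y)

/-- the weight `(1 - y²)²` (zero outside of `[-1, 1]`) -/
noncomputable def W2 (y : ℝ) : ℝ := (max 0 (1 - y ^ 2)) ^ 2

/-- the cone -/
def KC {P : Type} (R : P × Bool → P × Bool → Prop) : Set (P → ℝ) :=
  {x | ∀ a b, R a b → sv x a ≤ sv x b}

/-- only inequalities `x_v ≤ x_w` -/
def TypeA {P : Type} (R : P × Bool → P × Bool → Prop) : Prop :=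
  ∀ a b, R a b → a.2 = true ∧ b.2 = true

/-- **QA.** Median and ratios. Proof. `ρ` is integrable with `∫ ρ = 1`, `F = FF ρ` is continuous, nondecreasing, `F → 0, 1`: there is `m` with `F m = 1/2`. From log-concavity: for `x < x'`, `u ≥ 0`:
`ρ(x) ρ(x'+u) ≤ ρ(x+u) ρ(x')` (with `t = u/(x'-x+u)` both `x+u = (1-t) x + t (x'+u)` and `x' = t x + (1-t) (x'+u)`; if `u = 0` trivial). Integrate over `u > 0`: `ρ(x) (1 - F(x')) ≤ ρ(x') (1 - F(x))`. By reflection `ρ(x') F(x) ≤ ρ(x) F(x')` for `x < x'`.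
(i) `x > m`: `ρ(m) (1 - F x) ≤ ρ(x)/2`, so `2 ρ(m) F(x) (1 - F(x)) ≤ 2 ρ(m) (1 - F x) ≤ ρ(x)`; `x < m` by reflection; `x = m`: `2 ρ(m)/4 ≤ ρ(m)`. (ii) `x > m`: `ρ(x)/2 ≤ ρ(m) F(x) ≤ ρ(m)`, the same for `x < m`. (iii) `ρ(m) > 0` because otherwise `ρ = 0` by (ii). -/
def S_QA : Prop :=
  ∀ ρ : ℝ → ℝ, LCD ρ → ∃ m : ℝ, FF ρ m = 1 / 2 ∧ 0 < ρ m ∧ (∀ x, ρ x ≤ 2 * ρ m) ∧
    ∀ x, 2 * ρ m * (FF ρ x * (1 - FF ρ x)) ≤ ρ x

/-- **QB.** The quantile function. Proof. Let `U = {x | 0 < F(x) < 1}`, an open interval (`F` continuous, monotone). On `U`: `ρ > 0` (this is the hypothesis `hpos`), and `ρ` is continuous on `U` (`log ρ` is concave on the convex set `{ρ > 0} ⊃ U`, `ConcaveOn.continuousOn` on the open set `U`). So `F` has the derivative `ρ(x) > 0` at `x ∈ U` and it is a strictly increasing bijection from `U` onto `(0, 1)` (intermediate values). Let `T(y)` be the point of `U` with `F(T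 y) = (1+y)/2` for `|y| < 1` (and `0` otherwise). By the inverse function rule (`HasDerivAt.of_local_left_inverse` or
`OpenPartialHomeomorph`) `T' = 1 / (2 ρ(T y))`, continuous. The law: `ρ = 0` a.e. outside of `U` (`∫_{F = 0} ρ = 0`, `∫_{F = 1} ρ = 0`), and on `U` change of variables `x = T(y)`: `∫⁻_U φ ρ = ∫⁻_{(-1,1)} φ(T y) ρ(T y) T'(y) dy` (`lintegral_image_eq_lintegral_abs_deriv_mul`). -/
def S_QB : Prop :=
  ∀ ρ : ℝ → ℝ, LCD ρ → (∀ x, 0 < FF ρ x → FF ρ x < 1 → 0 < ρ x) → ∃ T : ℝ → ℝ,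
    (∀ y ∈ Ioo (-1 : ℝ) 1, HasDerivAt T (1 / (2 * ρ (T y))) y) ∧
    ContinuousOn (fun y => 1 / (2 * ρ (T y))) (Ioo (-1) 1) ∧
    (∀ y ∈ Ioo (-1 : ℝ) 1, FF ρ (T y) = (1 + y) / 2) ∧
    ∀ φ : ℝ → ℝ≥0∞, Measurable φ →
      ∫⁻ x, φ x * ENNReal.ofReal (ρ x) = 1 / 2 * ∫⁻ y in Ioo (-1 : ℝ) 1, φ (T y)

/-- **QC.** Bathtub. Proof. `δ = 1/(2S)`: pointwise `((x-m)² - δ²) (ρ(x) - S 1_{|x-m| ≤ δ}) ≥ 0`, so
`∫ (x-m)² ρ ≥ S ∫_{|x-m| ≤ δ} (x-m)² dx + δ² (∫ ρ - 2 δ S) = S 2 δ³/3 = 1/(12 S²)`. In `ℝ≥0∞`: `S (x-m)² 1_{|x-m|≤δ} + δ² ρ ≤ (x-m)² ρ + S δ² 1_{|x-m| ≤ δ}` pointwise, integrate. -/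
def S_QC : Prop :=
  ∀ (ρ : ℝ → ℝ) (S m : ℝ), LCD ρ → 0 < S → (∀ x, ρ x ≤ S) →
    ENNReal.ofReal (1 / (12 * S ^ 2)) ≤
      ∫⁻ x, ENNReal.ofReal ((x - m) ^ 2) * ENNReal.ofReal (ρ x)

/-- **QNT.** Combination (prove `S_QA → S_QB → S_QC → S_QNT`). `B = 1/ρ(m₀)`, `S = 2 ρ(m₀)`, `m₀` the median of QA. `hpos` of QB: QA (iv). `(1 - y²) T'(y) = 4 F (1-F) / (2 ρ(T y)) ≤ 1/ρ(m₀)` with `F = (1+y)/2`. `B² = 48/(12 S²)`. -/
def S_QNT : Prop :=
  ∀ ρ : ℝ → ℝ, LCD ρ → ∃ (T T' : ℝ → ℝ) (B : ℝ), 0 < B ∧ Qtl ρ T T' B ∧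
    ∀ m : ℝ, ENNReal.ofReal (B ^ 2) ≤
      48 * ∫⁻ x, ENNReal.ofReal ((x - m) ^ 2) * ENNReal.ofReal (ρ x)

/-- **APX.** The master inequality for functions of `T(y)`. Proof. For `0 < r < 1` let `F_r(y) = χ(y) f((T(r y_v))_v)` with a smooth `χ` which is `1` in a neighbourhood of the cube `[-1,1]^P` and has compact support in the open set `{|y_v| < 1/r}` (`exists_contDiff_tsupport_subset` or similar); `F_r` is `C¹`
(`T` is `C¹` on `(-1,1)`: `contDiffOn_succ_iff_deriv_of_isOpen` / `contDiffOn_one_iff...`), on the cube `∂_v F_r(y) = ∂_v f(T(r y)) T'(r y_v) r`. `W2(y_v) (T'(r y_v) r)² ≤ (1 - r² y_v²)² T'(r y_v)² ≤ B²` as `(1-y²) r ≤ 1 - r² y²`. So Master gives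
`∫_K F_r² - (∫_K F_r)²/V ≤ B² ∑_v ∫_K (∂_v f)²(T(r y)) dy`. Let `r → 1` (`r = 1 - 1/(k+2)`): for `y` in the open cube (a.e. on `K`) `T(r y_v) → T(y_v)`, `f`, `∂_v f` are continuous and bounded: dominated convergence. -/
def S_APX : Prop :=
  ∀ (P : Type) [Fintype P] [DecidableEq P] (R : P × Bool → P × Bool → Prop) (T T' : ℝ → ℝ) (B C : ℝ)
    (f : (P → ℝ) → ℝ), 0 < volume (KK R) → Master P R W2 1 →
    (∀ y ∈ Ioo (-1 : ℝ) 1, HasDerivAt T (T' y) y) → ContinuousOn T' (Ioo (-1) 1) →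
    (∀ y ∈ Ioo (-1 : ℝ) 1, 0 < T' y) → (∀ y ∈ Ioo (-1 : ℝ) 1, (1 - y ^ 2) * T' y ≤ B) →
    ContDiff ℝ 1 f → (∀ x, |f x| ≤ C) → (∀ x v, |fderiv ℝ f x (Pi.single v 1)| ≤ C) →
    (∫ y in KK R, f (fun v => T (y v)) ^ 2) -
        (∫ y in KK R, f (fun v => T (y v))) ^ 2 / (volume (KK R)).toReal ≤
      B ^ 2 * ∑ v : P, ∫ y in KK R, (fderiv ℝ f (fun v => T (y v)) (Pi.single v 1)) ^ 2

/-- **TRN.** Transport. Proof. `Qtl.law` says that the image of the measure `(1/2) dy` on `(-1,1)` under `T` (measurable on `(-1,1)`; replace `T` by a measurable function equal to it there, for instance `indicator`) is `ρ dx`. So the image of `2^{-n} dy` on the open cube under `y ↦ (T y_v)_v` is `∏ ρ(x_v) dx`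
(`Measure.pi_map_pi`, `volume_pi`, `Measure.pi_withDensity`-type facts or `lintegral` by induction; `withDensity` of a product: `MeasureTheory.Measure.pi_withDensity`?). `T` is strictly increasing on `(-1,1)` (`strictMonoOn_of_deriv_pos`), so for `y` in the open cube `T y ∈ KC R ↔ y ∈ KK R` (`TypeA R`). The closed cube minus the open one is a null set. -/
def S_TRN : Prop :=
  ∀ (P : Type) [Fintype P] [DecidableEq P] (R : P × Bool → P × Bool → Prop) (ρ T T' : ℝ → ℝ) (B : ℝ),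
    TypeA R → LCD ρ → Qtl ρ T T' B → ∀ Φ : (P → ℝ) → ℝ≥0∞, Measurable Φ →
    ∫⁻ x in KC R, Φ x * ∏ v, ENNReal.ofReal (ρ (x v)) =
      (1 / 2) ^ Fintype.card P * ∫⁻ y in KK R, Φ (fun v => T (y v))

/-- **SYMA.** Symmetrization over permutations. Proof. Let `ν = ∏ ρ(x_v) dx` (a probability measure, invariant under permutations of the coordinates). For `x` with distinct coordinates the number `m` of permutations `σ` with `(x_{σ v})_v ∈ KC R` does not depend on `x`: (if `x`, `x'` have distinct coordinates there is a permutation `τ` such that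
`x ∘ τ` and `x'` are in the same order: `x (τ v) ≤ x (τ w) ↔ x' v ≤ x' w`; then `x ∘ (τ σ) ∈ KC R ↔ x' ∘ σ ∈ KC R`; only inequalities `x_v ≤ x_w` because of `TypeA`.) Points with two equal coordinates are a null set. So for invariant `Φ ≥ 0`: `n! ∫_{KC} Φ dν = ∑_σ ∫ 1_{KC}(x ∘ σ) Φ(x) dν = m ∫ Φ dν`, and for `Φ = 1`: `n! ν(KC) = m`. -/
def S_SYMA : Prop :=
  ∀ (P : Type) [Fintype P] [DecidableEq P] (R : P × Bool → P × Bool → Prop) (ρ : ℝ → ℝ),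
    TypeA R → LCD ρ → ∀ Φ : (P → ℝ) → ℝ≥0∞, Measurable Φ →
    (∀ (σ : Equiv.Perm P) (x : P → ℝ), Φ (fun v => x (σ v)) = Φ x) →
    ∫⁻ x in KC R, Φ x * ∏ v, ENNReal.ofReal (ρ (x v)) =
      (∫⁻ x in KC R, ∏ v, ENNReal.ofReal (ρ (x v))) *
        ∫⁻ x, Φ x * ∏ v, ENNReal.ofReal (ρ (x v))

/-- **SUM2.** Moments of the sum for the product measure. Proof. `μ = (volume.withDensity (ofReal ρ))`, a probability measure with finite moments (given: `hfin`), the product `Measure.pi`; `∫ ∑ x_v dν = n a`, `∫ (∑ x_v - n a)² dν = n Var`: independence (`ProbabilityTheory.iIndepFun_pi`, `IndepFun.variance_sum`) or expansion of the square and `integral_fintype_prod_eq_prod`-type lemmas. Here `a = ∫ x ρ(x) dx`. -/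
def S_SUM2 : Prop :=
  ∀ (P : Type) [Fintype P] [DecidableEq P] (ρ : ℝ → ℝ), LCD ρ →
    Integrable (fun x => x ^ 2 * ρ x) →
    (Integrable (fun x : P → ℝ => (∑ v, x v) ^ 2 * ∏ v, ρ (x v))) ∧
    (∫ x : P → ℝ, (∑ v, x v) * ∏ v, ρ (x v) = Fintype.card P * ∫ x, x * ρ x) ∧
    ∫ x : P → ℝ, (∑ v, x v) ^ 2 * ∏ v, ρ (x v) =
      Fintype.card P * ((∫ x, x ^ 2 * ρ x) - (∫ x, x * ρ x) ^ 2) +
        (Fintype.card P * ∫ x, x * ρ x) ^ 2

/-- **MOM.** Log-concave densities on the line have second moments. Proof. By QA: let `m` be the median, `F = FF ρ`; for `x ≥ m`: `ρ(x) ≥ 2 ρ(m) F (1-F) ≥ ρ(m) (1 - F(x))`, so `(1-F)' ≤ -ρ(m) (1-F)` and `1 - F(x) ≤ (1/2) exp(-ρ(m) (x-m))`: the function `(1-F(x)) exp(ρ(m) x)` is nonincreasing (`F` is an integral of a locally integrable function; it is locally absolutely continuous; to avoid that use: for `x < x'` close, `(1-F(x')) ≤ (1-F(x)) - ρ(m)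 (x'-x) (1-F(x'))`, so `1 - F(x + n h) ≤ (1 + ρ(m) h)^{-n}/2`, in particular with `h = 1/ρ(m)`: `1 - F(m + n h) ≤ 2^{-n-1}`). The same on the left.
So `∫ x² ρ ≤ ∑_n (|m| + (n+1) h)² 2^{-n} < ∞`. -/
def S_MOM : Prop := ∀ ρ : ℝ → ℝ, LCD ρ → Integrable (fun x => x ^ 2 * ρ x)

end Run7.h523.KF
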