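import Pool.Agent.Run7.h523.KF.Iface4

/-!
# LCP in two parts (helper523)
-/

set_option autoImplicit false

namespace Run7.h523.KF

open MeasureTheory Set Filter Topology
open scoped ENNReal

/-- **LCP1.** The Poincare inequality (given `S_QNT`, `S_TRN`, `S_APX`, `S_MOM` and
`hM : ∀ P R, 0 < volume (KK R) → Master P R W2 1`). -/
def S_LCP1 : Prop :=
  ∀ (P : Type) [Fintype P] [DecidableEq P] [Nonempty P] (R : P × Bool → P × Bool → Prop)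
    (ρ : ℝ → ℝ) (m : ℝ), TypeA R → LCD ρ →
    0 < ∫ y in KC R, ∏ v, ρ (y v) →
    Integrable (fun x => (x - m) ^ 2 * ρ x) ∧
    ∀ (f : (P → ℝ) → ℝ) (C : ℝ), Bf f C →
      (∫ y in KC R, f y ^ 2 * ∏ v, ρ (y v)) / (∫ y in KC R, ∏ v, ρ (y v)) -
          ((∫ y in KC R, f y * ∏ v, ρ (y v)) / ∫ y in KC R, ∏ v, ρ (y v)) ^ 2 ≤
        48 * (∫ x, (x - m) ^ 2 * ρ x) *
          ((∫ y in KC R, gr f y * ∏ v, ρ (y v)) / ∫ y in KC R, ∏ v, ρ (y v))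

/-- **LCP2.** The variance of the sum. (Given `S_SYMA`, `S_SUM2`, `S_MOM`.) Proof. By MOM and SUM2 `(∑ x_v)² ∏ρ` is integrable on
the whole space, hence on `KC R`; `(∑ x_v) ∏ρ` too (`|s| ≤ 1 + s²`, `∏ρ` integrable: `Integrable.fintype_prod`). For invariant measurable
`g` with `g ∏ρ` integrable: `∫_{KC} g ∏ρ = (∫_{KC} ∏ρ) (∫ g ∏ρ)`: SYMA for `ofReal g` and `ofReal (-g)`, `integral_eq_lintegral_pos_part_sub_lintegral_neg_part`, `ofReal (g ∏ρ) = ofReal g ∏ ofReal ρ` (`ENNReal.ofReal_mul'`, `ENNReal.ofReal_prod_of_nonneg`).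
So, with `Z = ∫_{KC} ∏ρ > 0`, `a = ∫ x ρ = m`, `b = ∫ x² ρ` and `∫ (x - m)² ρ = b - m²` (`∫ ρ = 1`): `∫_{KC} s² ∏ρ / Z - (∫_{KC} s ∏ρ / Z)² = n (b - a²) + (n a)² - (n a)²`. -/
def S_LCP2 : Prop :=
  ∀ (P : Type) [Fintype P] [DecidableEq P] [Nonempty P] (R : P × Bool → P × Bool → Prop)
    (ρ : ℝ → ℝ) (m : ℝ), TypeA R → LCD ρ → m = ∫ x, x * ρ x →
    0 < ∫ y in KC R, ∏ v, ρ (y v) →
    IntegrableOn (fun y : P → ℝ => (∑ v, y v) ^ 2 * ∏ v, ρ (y v)) (KC R) ∧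
    (∫ y in KC R, (∑ v, y v) ^ 2 * ∏ v, ρ (y v)) / (∫ y in KC R, ∏ v, ρ (y v)) -
        ((∫ y in KC R, (∑ v, y v) * ∏ v, ρ (y v)) / ∫ y in KC R, ∏ v, ρ (y v)) ^ 2 =
      Fintype.card P * ∫ x, (x - m) ^ 2 * ρ x

theorem lcp_of (h1 : S_LCP1) (h2 : S_LCP2) : S_LCP := by
  intro P _ _ _ R ρ m hA hρ hm hZ
  obtain ⟨a1, a2⟩ := h1 P R ρ m hA hρ hZ
  obtain ⟨b1, b2⟩ := h2 P R ρ m hA hρ hm hZ
  exact ⟨a1, a2, b1, b2⟩

end Run7.h523.KF
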